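import Pool.Agent.Helper37.PC.Defs

/-!
# PL: coefficient vectors of polynomials in two variables
-/

universe u v

namespace Pool.Agent.PC

open MvPolynomial

variable {R : Type u} [CommRing R] {n : ℕ}

/-- the exponent -/
noncomputable def expo {n : ℕ} (q : Mon n) : Fin 2 →₀ ℕ :=
  Finsupp.single 0 (q.1.1 : ℕ) + Finsupp.single 1 (q.1.2 : ℕ)

lemma expo_zero (q : Mon n) : expo q 0 = (q.1.1 : ℕ) := by
  simp [expo]

lemma expo_one (q : Mon n) : expo q 1 = (q.1.2 : ℕ) := by
  simp [expo]

lemma expo_injective : Function.Injective (expo : Mon n → Fin 2 →₀ ℕ) := by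
  intro q q' h
  have h0 := congrArg (fun s => s 0) h
  have h1 := congrArg (fun s => s 1) h
  simp only [expo_zero, expo_one] at h0 h1
  exact Subtype.ext (Prod.ext (Fin.ext h0) (Fin.ext h1))

lemma mono_eq (q : Mon n) : mono R q = monomial (expo q) 1 := by
  rw [mono, expo, X_pow_eq_monomial, X_pow_eq_monomial, monomial_mul, one_mul]

lemma C_mul_mono (a : R) (q : Mon n) : C a * mono R q = monomial (expo q) a := by
  rw [mono_eq, C_mul_monomial, mul_one]

lemma coeff_pol (g : Mon n → R) (q : Mon n) : coeff (expo q) (pol g) = g q := by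
  classical
  rw [pol, coeff_sum]
  simp only [C_mul_mono, coeff_monomial]
  rw [Finset.sum_eq_single q]
  · rw [if_pos rfl]
  · intro b _ hb
    rw [if_neg fun h => hb (expo_injective h)]
  · intro h
    exact absurd (Finset.mem_univ q) h

lemma pol_injective : Function.Injective (pol : (Mon n → R) → MvPolynomial (Fin 2) R) := by
  intro g g' h
  funext q
  rw [← coeff_pol g q, h, coeff_pol]

lemma totalDegree_pol_le (g : Mon n → R) : (pol g).totalDegree ≤ n := by
  classical
  refine totalDegree_finsetSum_le fun q _ => ?_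
  rw [C_mul_mono]
  refine (totalDegree_monomial_le _ _).trans ?_
  rw [Finsupp.sum_fintype _ _ (fun _ => rfl), Fin.sum_univ_two, expo_zero, expo_one]
  exact q.2

/-- the coefficient vector -/
noncomputable def cf (n : ℕ) (P : MvPolynomial (Fin 2) R) (q : Mon n) : R := coeff (expo q) P

lemma cf_pol (g : Mon n → R) : cf n (pol g) = g := funext fun q => coeff_pol g q

lemma pol_cf {P : MvPolynomial (Fin 2) R} (hP : P.totalDegree ≤ n) : pol (cf n P) = P := by
  classical
  ext s
  by_cases hs : s 0 + s 1 ≤ n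
  · let q : Mon n := ⟨(⟨s 0, by omega⟩, ⟨s 1, by omega⟩), hs⟩
    have hq : expo q = s := by
      ext i
      fin_cases i
      · exact expo_zero q
      · exact expo_one q
    rw [← hq, coeff_pol]
    rfl
  · have h0 : ∀ Q : MvPolynomial (Fin 2) R, Q.totalDegree ≤ n → coeff s Q = 0 := by
      intro Q hQ
      by_contra h
      have h1 := le_totalDegree (mem_support_iff.mpr h)
      rw [Finsupp.sum_fintype _ _ (fun _ => rfl), Fin.sum_univ_two] at h1
      omega
    rw [h0 _ hP, h0 _ (totalDegree_pol_le _)]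

lemma pol_add (g g' : Mon n → R) : pol (g + g') = pol g + pol g' := by
  rw [pol, pol, pol, ← Finset.sum_add_distrib]
  refine Finset.sum_congr rfl fun q _ => ?_
  rw [Pi.add_apply, C_add, add_mul]

lemma pol_smul (a : R) (g : Mon n → R) : pol (fun q => a * g q) = C a * pol g := by
  rw [pol, pol, Finset.mul_sum]
  refine Finset.sum_congr rfl fun q _ => ?_
  rw [C_mul, mul_assoc]

lemma pol_zero : pol (fun _ : Mon n => (0 : R)) = 0 := by
  rw [pol]
  simp

lemma pol_finsum {ι : Type*} (s : Finset ι) (g : ι → Mon n → R) :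
    pol (fun q => ∑ i ∈ s, g i q) = ∑ i ∈ s, pol (g i) := by
  simp only [pol]
  rw [Finset.sum_comm]
  refine Finset.sum_congr rfl fun q _ => ?_
  rw [map_sum, Finset.sum_mul]

lemma map_pol {S : Type v} [CommRing S] (φ : R →+* S) (g : Mon n → R) :
    map φ (pol g) = pol fun q => φ (g q) := by
  rw [pol, map_sum]
  refine Finset.sum_congr rfl fun q _ => ?_
  rw [map_mul, map_C, mono, mono, map_mul, map_pow, map_pow, map_X, map_X]

lemma cf_add (P Q : MvPolynomial (Fin 2) R) : cf n (P + Q) = cf n P + cf n Q := by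
  funext q
  simp [cf]

lemma cf_C_mul (a : R) (P : MvPolynomial (Fin 2) R) (q : Mon n) :
    cf n (C a * P) q = a * cf n P q := by
  simp [cf]

lemma cf_sum {ι : Type*} (s : Finset ι) (P : ι → MvPolynomial (Fin 2) R) (q : Mon n) :
    cf n (∑ i ∈ s, P i) q = ∑ i ∈ s, cf n (P i) q := by
  rw [cf, coeff_sum]
  rfl

lemma cf_map {S : Type v} [CommRing S] (φ : R →+* S) (P : MvPolynomial (Fin 2) R) (q : Mon n) :
    cf n (map φ P) q = φ (cf n P q) := coeff_map _ _ _

end Pool.Agent.PC
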