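import Pool.Agent.Helper10.PL.L1
import Pool.Agent.Helper10.PL.Pol

/-!
# PL: block L1 in the form of StubSol
-/

universe u v

namespace Pool.Agent.PC

open MvPolynomial

/-- the special curve `∏ (y - γ j) = T x ^ d` -/
noncomputable def f0 {A : Type u} [CommRing A] {d : ℕ} (γ : Fin d → A) (T : A) :
    MvPolynomial (Fin 2) A :=
  ∏ j, (X 1 - C (γ j)) - C T * X 0 ^ d

/-- `(y - γ) (y - γ - 1) ^ (p m)` -/
noncomputable def G0 {A : Type u} [CommRing A] (p m : ℕ) (γ : A) : MvPolynomial (Fin 2) A :=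
  (X 1 - C γ) * (X 1 - C γ - 1) ^ (p * m)

/-- `x ^ r ∏ (y - γ j - 1) ^ m` -/
noncomputable def W0 {A : Type u} [CommRing A] {d : ℕ} (r m : ℕ) (γ : Fin d → A) :
    MvPolynomial (Fin 2) A :=
  X 0 ^ r * ∏ j, (X 1 - C (γ j) - 1) ^ m

section Conv

variable {A : Type u} [CommRing A]

/-- the inner variable is `y`, the outer variable is `x` -/
noncomputable def conv (A : Type u) [CommRing A] :
    Polynomial (Polynomial A) →+* MvPolynomial (Fin 2) A :=
  Polynomial.eval₂RingHom (Polynomial.eval₂RingHom C (X 1)) (X 0)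

lemma conv_C (a : Polynomial A) :
    conv A (Polynomial.C a) = Polynomial.eval₂ C (X 1) a := by
  simp [conv]

lemma conv_CC (a : A) : conv A (Polynomial.C (Polynomial.C a)) = C a := by
  simp [conv]

lemma conv_CX : conv A (Polynomial.C Polynomial.X) = X 1 := by
  simp [conv]

lemma conv_X : conv A Polynomial.X = X 0 := by
  simp [conv]

lemma totalDegree_conv {N : ℕ} {F : Polynomial (Polynomial A)} (hF : PL.TD N F) :
    (conv A F).totalDegree ≤ N := by
  classical
  rw [F.as_sum_range_C_mul_X_pow, map_sum]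
  refine totalDegree_finsetSum_le fun l _ => ?_
  rw [map_mul, map_pow, conv_X, conv_C, (F.coeff l).as_sum_range_C_mul_X_pow,
    Polynomial.eval₂_finsetSum, Finset.sum_mul]
  refine totalDegree_finsetSum_le fun k _ => ?_
  by_cases h : N < l + k
  · rw [hF l k h]
    simp
  · rw [Polynomial.eval₂_mul, Polynomial.eval₂_C, Polynomial.eval₂_X_pow, X_pow_eq_monomial,
      X_pow_eq_monomial, C_mul_monomial, monomial_mul]
    refine (totalDegree_monomial_le _ _).trans ?_
    rw [Finsupp.sum_fintype _ _ (fun _ => rfl), Fin.sum_univ_two]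
    simp
    omega

lemma exists_conv {N : ℕ} {P : MvPolynomial (Fin 2) A} (hP : P.totalDegree ≤ N) :
    ∃ F : Polynomial (Polynomial A), PL.TD N F ∧ conv A F = P := by
  classical
  refine ⟨∑ q : Mon N, Polynomial.C (Polynomial.C (cf N P q) * Polynomial.X ^ (q.1.2 : ℕ)) *
    Polynomial.X ^ (q.1.1 : ℕ), ?_, ?_⟩
  · refine PL.TD.sum fun q _ => PL.TD.C_mul_X_pow (Or.inr ?_)
    have h1 := Polynomial.natDegree_C_mul_X_pow_le (cf N P q) (q.1.2 : ℕ)
    have h2 := q.2
    omega
  · rw [map_sum]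
    conv_rhs => rw [← pol_cf hP, pol]
    refine Finset.sum_congr rfl fun q _ => ?_
    rw [map_mul, map_pow, conv_X, conv_C, Polynomial.eval₂_mul, Polynomial.eval₂_C,
      Polynomial.eval₂_X_pow, mono]
    ring

end Conv

theorem surj_lin {A : Type u} [Field A] [CharZero A] {d p r m : ℕ} (hp : p.Prime)
    (hd : d = p * r) (hd0 : 0 < d) (hm : d ≤ m) {T : A} (hT : T ≠ 0) {γ : Fin d → A}
    (hγ : Function.Injective γ) (hγ1 : ∀ i j, γ i ≠ γ j + 1) (F : MvPolynomial (Fin 2) A)
    (hF : F.totalDegree ≤ d * (1 + p * m)) :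
    ∃ (g : Fin d → MvPolynomial (Fin 2) A) (u h : MvPolynomial (Fin 2) A),
      (∀ i, (g i).totalDegree ≤ 1 + p * m) ∧ u.totalDegree ≤ r * (1 + p * m) ∧
      h.totalDegree ≤ d * (p * m) ∧
      F = ∑ i, g i * ∏ j ∈ Finset.univ.erase i, G0 p m (γ j) -
        (p : MvPolynomial (Fin 2) A) * C T * u * W0 r m γ ^ (p - 1) - h * f0 γ T := by
  classical
  obtain ⟨F', hF', rfl⟩ := exists_conv hF
  have hdp : d / p = r := by rw [hd]; exact Nat.mul_div_cancel_left _ hp.pos
  obtain ⟨δG, δW, δH, h1, h2, h3, h4⟩ := PL.linearised hd0 (by omega) hp.one_le ⟨r, hd⟩ hγ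
    (fun i j h => hγ1 j i h.symm) (one_ne_zero (α := A)) hT
    (Nat.cast_ne_zero.mpr hp.ne_zero) F' hF'
  rw [hdp] at h2
  rw [show p * (d * m) = d * (p * m) by ring] at h3
  have hX1 : ∀ a : A, conv A (Polynomial.C (Polynomial.X - Polynomial.C a)) = X 1 - C a := by
    intro a
    rw [Polynomial.C_sub, map_sub, conv_CX, conv_CC]
  have hX2 : ∀ a : A, conv A (Polynomial.C (Polynomial.X - Polynomial.C (a + 1))) =
      X 1 - C a - 1 := by
    intro a
    rw [hX1, C_add, C_1, sub_sub]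
  have hPP : ∀ a : A, conv A (Polynomial.C (PL.PP a (p * m))) = G0 p m a := by
    intro a
    rw [PL.PP, Polynomial.C_mul, Polynomial.C_pow, map_mul, map_pow, hX1, hX2, G0]
  have hW : conv A (PL.W0 γ m p) = W0 r m γ := by
    rw [PL.W0, hdp, map_mul, map_pow, conv_X, map_prod, map_prod, W0, mul_comm]
    congr 1
    refine Finset.prod_congr rfl fun j _ => ?_
    rw [Polynomial.C_pow, map_pow, hX2]
  have hf : conv A (PL.f0 γ 1 T) = f0 γ T := by
    rw [PL.f0, Polynomial.C_1, one_mul, map_sub, map_prod, map_prod, map_mul, map_pow, conv_X,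
      conv_CC, f0]
    congr 1
    refine Finset.prod_congr rfl fun j _ => ?_
    rw [hX1]
  refine ⟨fun i => conv A (δG i), conv A δW, conv A δH, fun i => totalDegree_conv (h1 i),
    totalDegree_conv h2, totalDegree_conv h3, ?_⟩
  rw [h4, Polynomial.C_1, Polynomial.C_1, one_mul, map_sub, map_sub, map_sum, map_mul, map_mul,
    map_mul, map_pow, hW, map_mul (conv A) δH, hf, ← Polynomial.C_mul, conv_CC]
  congr 2
  · refine Finset.sum_congr rfl fun i _ => ?_
    rw [map_mul, map_prod]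
    congr 1
    exact Finset.prod_congr rfl fun j _ => hPP _
  · rw [C_mul, map_natCast C, mul_comm (C T)]

end Pool.Agent.PC
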