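import Pool.Agent.Helper10.PL.Eqn
import Pool.Agent.Helper17.FF.Deriv

/-!
# PL: derivations and the derivative of the equation; uniqueness of algebraic type
-/

universe u v

namespace Pool.Agent.PC

open MvPolynomial

section Dual

variable {L : Type u} [Field L]

/-- the homomorphism to the dual numbers given by a derivation -/
noncomputable def dualHom (D : Derivation ℤ L L) : L →+* DualNumber L where
  toFun x := TrivSqZeroExt.inl x + TrivSqZeroExt.inr (D x)
  map_one' := by
    rw [D.map_one_eq_zero, TrivSqZeroExt.inr_zero, add_zero, TrivSqZeroExt.inl_one]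
  map_mul' x y := by
    refine TrivSqZeroExt.ext ?_ ?_
    · simp
    · simp [mul_comm]
  map_zero' := by simp
  map_add' x y := by
    rw [map_add, TrivSqZeroExt.inl_add, TrivSqZeroExt.inr_add]
    abel

lemma dualHom_apply (D : Derivation ℤ L L) (x : L) :
    dualHom D x = TrivSqZeroExt.inl x + DualNumber.eps * TrivSqZeroExt.inl (D x) := by
  change TrivSqZeroExt.inl x + TrivSqZeroExt.inr (D x) = _
  congr 1
  refine TrivSqZeroExt.ext ?_ ?_
  · rw [TrivSqZeroExt.fst_inr, TrivSqZeroExt.fst_mul, DualNumber.fst_eps, zero_mul]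
  · rw [TrivSqZeroExt.snd_inr, TrivSqZeroExt.snd_mul, DualNumber.fst_eps, DualNumber.snd_eps,
      TrivSqZeroExt.fst_inl, TrivSqZeroExt.snd_inl]
    simp

theorem JJ_deriv {n k h d p : ℕ} {γ : Fin d → L} {T : L} {F : MvPolynomial (Fin 2) L}
    {z : Unk n k h → L} (hE : EE p γ T F z = 0) (D : Derivation ℤ L L) (hγ : ∀ i, D (γ i) = 0)
    (hT : D T = 0) (hF : ∀ s, D (coeff s F) = 0) : JJ p γ T F z (fun b => D (z b)) = 0 := by
  let ι : L →+* DualNumber L := TrivSqZeroExt.inlHom L L
  have hι : ∀ x : L, ι x = TrivSqZeroExt.inl x := fun _ => rfl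
  have hDx : ∀ x : L, D x = 0 → dualHom D x = ι x := by
    intro x hx
    rw [dualHom_apply, hx, TrivSqZeroExt.inl_zero, mul_zero, add_zero]
    rfl
  have h1 : map (dualHom D) (EE p γ T F z) = 0 := by rw [hE, map_zero]
  rw [map_EE] at h1
  have hF' : map (dualHom D) F = map ι F := by
    ext s : 1
    rw [coeff_map, coeff_map, hDx _ (hF s)]
  have hz : (fun b => dualHom D (z b)) =
      fun b => ι (z b) + DualNumber.eps * ι (D (z b)) := by
    funext b
    exact dualHom_apply D (z b)
  rw [hF', hz, hDx T hT, funext fun i => hDx (γ i) (hγ i)] at h1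
  obtain ⟨c, hc⟩ := EE_taylor p (fun i => ι (γ i)) (ι T) (map ι F) (fun b => ι (z b))
    (fun b => ι (D (z b))) DualNumber.eps
  rw [hc, ← map_EE, hE, map_zero, zero_add, ← C_pow, sq, DualNumber.eps_mul_eps, C_0, zero_mul,
    add_zero, ← map_JJ] at h1
  ext s
  have h2 := congrArg (coeff s) h1
  rw [coeff_C_mul, coeff_map, coeff_zero] at h2
  have h3 := congrArg TrivSqZeroExt.snd h2
  rw [hι, TrivSqZeroExt.snd_mul, DualNumber.fst_eps, DualNumber.snd_eps,
    TrivSqZeroExt.fst_inl, TrivSqZeroExt.snd_inl, TrivSqZeroExt.snd_zero] at h3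
  rw [coeff_zero]
  simpa using h3

end Dual

end Pool.Agent.PC
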