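import Pool.Agent.Helper10.PL.Lin

/-!
# PL: the equation `∏ G i = T W ^ p + H F` and its derivative
-/

universe u v

namespace Pool.Agent.PC

open MvPolynomial

/-- indices of the unknown coefficients of the `G^(l)`, of `W` and of `H` -/
abbrev Unk (n k h : ℕ) : Type := (Fin (n + 1) × Mon n) ⊕ (Mon k ⊕ Mon h)

section Alg

variable {P : Type u} [CommRing P]

lemma prod_taylor {ι : Type*} [DecidableEq ι] (s : Finset ι) (a b : ι → P) (e : P) :
    ∃ c : P, ∏ i ∈ s, (a i + e * b i) =
      ∏ i ∈ s, a i + e * ∑ i ∈ s, b i * ∏ j ∈ s.erase i, a j + e ^ 2 * c := by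
  induction s using Finset.induction_on with
  | empty => exact ⟨0, by simp⟩
  | insert x s hx ih =>
    obtain ⟨c, hc⟩ := ih
    have h1 : ∑ i ∈ s, b i * ∏ j ∈ (insert x s).erase i, a j =
        a x * ∑ i ∈ s, b i * ∏ j ∈ s.erase i, a j := by
      rw [Finset.mul_sum]
      refine Finset.sum_congr rfl fun i hi => ?_
      rw [Finset.erase_insert_of_ne fun h => hx (by rw [h]; exact hi), Finset.prod_insert
        fun h => hx (Finset.mem_of_mem_erase h)]
      ring
    refine ⟨b x * (∑ i ∈ s, b i * ∏ j ∈ s.erase i, a j) + (a x + e * b x) * c, ?_⟩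
    rw [Finset.prod_insert hx, Finset.prod_insert hx, Finset.sum_insert hx, h1, hc,
      Finset.erase_insert hx]
    ring

lemma pow_taylor (a b e : P) (p : ℕ) :
    ∃ c : P, (a + e * b) ^ p = a ^ p + e * (p * b * a ^ (p - 1)) + e ^ 2 * c := by
  obtain ⟨k, hk⟩ := Polynomial.powAddExpansion a (e * b) p
  exact ⟨k * b ^ 2, by rw [hk]; ring⟩

end Alg

section Sys

variable {R : Type u} [CommRing R] {n k h d : ℕ}

/-- the coefficients of `G i` -/
def GG (γ : Fin d → R) (z : Unk n k h → R) (i : Fin d) : Mon n → R :=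
  fun q => ∑ l : Fin (n + 1), γ i ^ (l : ℕ) * z (Sum.inl (l, q))

/-- the coefficients of `W` -/
def WW (z : Unk n k h → R) : Mon k → R := fun q => z (Sum.inr (Sum.inl q))

/-- the coefficients of `H` -/
def HH (z : Unk n k h → R) : Mon h → R := fun q => z (Sum.inr (Sum.inr q))

lemma GG_add (γ : Fin d → R) (z w : Unk n k h → R) (a : R) (i : Fin d) :
    pol (GG γ (fun b => z b + a * w b) i) = pol (GG γ z i) + C a * pol (GG γ w i) := by
  rw [← pol_smul, ← pol_add]
  congr 1
  funext q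
  simp only [GG, Pi.add_apply]
  rw [Finset.mul_sum, ← Finset.sum_add_distrib]
  exact Finset.sum_congr rfl fun l _ => by ring

lemma WW_add (z w : Unk n k h → R) (a : R) :
    pol (WW (fun b => z b + a * w b)) = pol (WW z) + C a * pol (WW w) := by
  rw [← pol_smul, ← pol_add]
  rfl

lemma HH_add (z w : Unk n k h → R) (a : R) :
    pol (HH (fun b => z b + a * w b)) = pol (HH z) + C a * pol (HH w) := by
  rw [← pol_smul, ← pol_add]
  rfl

/-- the equation -/
noncomputable def EE (p : ℕ) (γ : Fin d → R) (T : R) (F : MvPolynomial (Fin 2) R)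
    (z : Unk n k h → R) : MvPolynomial (Fin 2) R :=
  ∏ i, pol (GG γ z i) - C T * pol (WW z) ^ p - pol (HH z) * F

/-- the derivative of the equation -/
noncomputable def JJ (p : ℕ) (γ : Fin d → R) (T : R) (F : MvPolynomial (Fin 2) R)
    (z δ : Unk n k h → R) : MvPolynomial (Fin 2) R :=
  ∑ i, pol (GG γ δ i) * ∏ j ∈ Finset.univ.erase i, pol (GG γ z j) -
    (p : MvPolynomial (Fin 2) R) * C T * pol (WW δ) * pol (WW z) ^ (p - 1) - pol (HH δ) * F

lemma EE_taylor (p : ℕ) (γ : Fin d → R) (T : R) (F : MvPolynomial (Fin 2) R)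
    (z δ : Unk n k h → R) (η : R) : ∃ c : MvPolynomial (Fin 2) R,
    EE p γ T F (fun b => z b + η * δ b) = EE p γ T F z + C η * JJ p γ T F z δ + C η ^ 2 * c := by
  classical
  obtain ⟨c1, h1⟩ := prod_taylor Finset.univ (fun i => pol (GG γ z i)) (fun i => pol (GG γ δ i)) (C η)
  obtain ⟨c2, h2⟩ := pow_taylor (pol (WW z)) (pol (WW δ)) (C η) p
  refine ⟨c1 - C T * c2, ?_⟩
  simp only [EE, JJ, GG_add, WW_add, HH_add]
  rw [h1, h2]
  ring

lemma JJ_add (p : ℕ) (γ : Fin d → R) (T : R) (F : MvPolynomial (Fin 2) R)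
    (z δ δ' : Unk n k h → R) (a : R) :
    JJ p γ T F z (fun b => δ b + a * δ' b) = JJ p γ T F z δ + C a * JJ p γ T F z δ' := by
  simp only [JJ, GG_add, WW_add, HH_add]
  have : ∑ i, (pol (GG γ δ i) + C a * pol (GG γ δ' i)) * ∏ j ∈ Finset.univ.erase i, pol (GG γ z j) =
      ∑ i, pol (GG γ δ i) * ∏ j ∈ Finset.univ.erase i, pol (GG γ z j) +
      C a * ∑ i, pol (GG γ δ' i) * ∏ j ∈ Finset.univ.erase i, pol (GG γ z j) := by
    rw [Finset.mul_sum, ← Finset.sum_add_distrib]
    exact Finset.sum_congr rfl fun i _ => by ring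
  rw [this]
  ring

lemma JJ_zero (p : ℕ) (γ : Fin d → R) (T : R) (F : MvPolynomial (Fin 2) R)
    (z : Unk n k h → R) : JJ p γ T F z (fun _ => 0) = 0 := by
  have h1 := JJ_add p γ T F z (fun _ => 0) (fun _ => 0) 1
  simp only [mul_zero, add_zero, C_1, one_mul] at h1
  exact left_eq_add.mp h1

/-- the derivative as a linear map -/
noncomputable def JJl (p : ℕ) (γ : Fin d → R) (T : R) (F : MvPolynomial (Fin 2) R)
    (z : Unk n k h → R) : (Unk n k h → R) →ₗ[R] MvPolynomial (Fin 2) R where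
  toFun := JJ p γ T F z
  map_add' δ δ' := by
    have h1 := JJ_add p γ T F z δ δ' 1
    simp only [one_mul, C_1] at h1
    exact h1
  map_smul' a δ := by
    have h1 := JJ_add p γ T F z (fun _ => 0) δ a
    simp only [zero_add, JJ_zero] at h1
    rw [RingHom.id_apply, smul_eq_C_mul]
    exact h1

lemma JJ_eq_sum [DecidableEq (Unk n k h)] (p : ℕ) (γ : Fin d → R) (T : R)
    (F : MvPolynomial (Fin 2) R)
    (z δ : Unk n k h → R) : JJ p γ T F z δ =
      ∑ u, C (δ u) * JJ p γ T F z (fun b => if u = b then 1 else 0) := by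
  have h1 := (JJl p γ T F z).pi_apply_eq_sum_univ δ
  simp only [smul_eq_C_mul] at h1
  exact h1

lemma map_GG {S : Type v} [CommRing S] (φ : R →+* S) (γ : Fin d → R) (z : Unk n k h → R)
    (i : Fin d) : map φ (pol (GG γ z i)) = pol (GG (fun i => φ (γ i)) (fun b => φ (z b)) i) := by
  rw [map_pol]
  congr 1
  funext q
  simp only [GG]
  rw [map_sum]
  exact Finset.sum_congr rfl fun l _ => by rw [map_mul, map_pow]

lemma map_EE {S : Type v} [CommRing S] (φ : R →+* S) (p : ℕ) (γ : Fin d → R) (T : R)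
    (F : MvPolynomial (Fin 2) R) (z : Unk n k h → R) : map φ (EE p γ T F z) =
      EE p (fun i => φ (γ i)) (φ T) (map φ F) (fun b => φ (z b)) := by
  rw [EE, EE, map_sub, map_sub, map_prod, map_mul, map_pow, map_C, map_mul, map_pol, map_pol]
  simp only [map_GG]
  rfl

lemma map_JJ {S : Type v} [CommRing S] (φ : R →+* S) (p : ℕ) (γ : Fin d → R) (T : R)
    (F : MvPolynomial (Fin 2) R) (z δ : Unk n k h → R) : map φ (JJ p γ T F z δ) =
      JJ p (fun i => φ (γ i)) (φ T) (map φ F) (fun b => φ (z b)) (fun b => φ (δ b)) := by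
  rw [JJ, JJ, map_sub, map_sub, map_sum, map_mul, map_mul, map_mul, map_pow, map_C, map_mul,
    map_pol, map_pol, map_pol, map_natCast]
  simp only [map_mul, map_prod, map_GG]
  rfl

lemma totalDegree_prod_le {ι : Type*} (s : Finset ι) (f : ι → MvPolynomial (Fin 2) R) {e : ℕ}
    (hf : ∀ i ∈ s, (f i).totalDegree ≤ e) : (∏ i ∈ s, f i).totalDegree ≤ s.card * e := by
  refine (totalDegree_finsetProd _ _).trans ?_
  refine (Finset.sum_le_sum hf).trans ?_
  rw [Finset.sum_const, smul_eq_mul]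

lemma totalDegree_EE_le {N : ℕ} {p : ℕ} (γ : Fin d → R) (T : R) {F : MvPolynomial (Fin 2) R}
    (hF : F.totalDegree ≤ d) (hn : d * n ≤ N) (hk : p * k ≤ N) (hh : h + d ≤ N)
    (z : Unk n k h → R) : (EE p γ T F z).totalDegree ≤ N := by
  rw [EE]
  refine (totalDegree_sub _ _).trans (max_le ((totalDegree_sub _ _).trans (max_le ?_ ?_)) ?_)
  · refine (totalDegree_prod_le _ _ fun i _ => totalDegree_pol_le _).trans ?_
    rw [Finset.card_univ, Fintype.card_fin]
    exact hn
  · refine (totalDegree_mul _ _).trans ?_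
    rw [totalDegree_C, zero_add]
    refine (totalDegree_pow _ _).trans ?_
    exact (Nat.mul_le_mul_left p (totalDegree_pol_le _)).trans hk
  · refine (totalDegree_mul _ _).trans ?_
    have := totalDegree_pol_le (HH z)
    omega

end Sys

end Pool.Agent.PC
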