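import Pool.Agent.Helper10.RR.CurveW
import Pool.Agent.Helper37.PC.Defs
import Pool.Agent.Helper13.PL.S1

/-!
# Project PLANE: the general plane curve is smooth
-/

universe u v

namespace Pool.Agent.PL

open MvPolynomial Pool.Agent.PC

section linalg

variable {K : Type u} [Field K] {J I : Type} [Fintype J] [DecidableEq J] [Fintype I]

/-- a spanning family contains a basis -/
theorem exists_minor (v : I → J → K) (h : ∀ q : J, ∃ c : I → K, Pi.single q 1 = ∑ i, c i • v i) :
    ∃ s : J → I, (Matrix.of fun a b => v (s b) a).det ≠ 0 := by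
  classical
  have hspan : ⊤ ≤ Submodule.span K (Set.range v) := by
    rw [← (Pi.basisFun K J).span_eq, Submodule.span_le]
    rintro _ ⟨q, rfl⟩
    obtain ⟨c, hc⟩ := h q
    rw [Pi.basisFun_apply, SetLike.mem_coe, hc]
    exact Submodule.sum_mem _ fun i _ => Submodule.smul_mem _ _ (Submodule.subset_span ⟨i, rfl⟩)
  obtain ⟨κ, a, ha, hsp, hli⟩ := exists_linearIndependent' K v
  have hfin : Fintype κ := Fintype.ofInjective a ha
  let b : Module.Basis κ K (J → K) := Module.Basis.mk hli (by rw [hsp]; exact hspan)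
  have hcard : Fintype.card J = Fintype.card κ := by
    have h1 := Module.finrank_eq_card_basis b
    rw [Module.finrank_fintype_fun_eq_card] at h1
    exact h1
  let e : J ≃ κ := Fintype.equivOfCardEq hcard
  refine ⟨fun w => a (e w), ?_⟩
  have h2 : LinearIndependent K fun w : J => v (a (e w)) := hli.comp e e.injective
  have h3 : (Matrix.of fun x y => v (a (e y)) x).transpose = Matrix.of fun w => v (a (e w)) := by
    ext w q
    rfl
  rw [← Matrix.det_transpose, h3]
  have h4 : IsUnit (Matrix.of fun w => v (a (e w))) :=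
    Matrix.linearIndependent_rows_iff_isUnit.1 h2
  exact ((Matrix.isUnit_iff_isUnit_det _).1 h4).ne_zero

omit [Fintype I] in
/-- a nonzero minor gives all vectors -/
theorem coords_of_minor {v : I → J → K} {s : J → I} (hs : (Matrix.of fun a b => v (s b) a).det ≠ 0)
    (q : J) : ∃ c : J → K, Pi.single q 1 = ∑ b, c b • v (s b) := by
  classical
  set N : Matrix J J K := Matrix.of fun a b => v (s b) a with hN
  refine ⟨N⁻¹.mulVec (Pi.single q 1), ?_⟩
  have h1 : N.mulVec (N⁻¹.mulVec (Pi.single q 1)) = Pi.single q 1 := by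
    rw [Matrix.mulVec_mulVec, Matrix.mul_nonsing_inv _ (isUnit_iff_ne_zero.2 hs),
      Matrix.one_mulVec]
  rw [← h1]
  funext x
  rw [Finset.sum_apply]
  conv_lhs => rw [Matrix.mulVec, dotProduct]
  refine Finset.sum_congr rfl fun b _ => ?_
  rw [Pi.smul_apply, smul_eq_mul, mul_comm]
  rw [h1]
  rfl

end linalg

section form

variable {R : Type u} [CommRing R]

/-- the exponent of `X ^ i Y ^ j Z ^ (M - i - j)` -/
noncomputable def exp3 {M : ℕ} (q : Mon M) : Fin 3 →₀ ℕ :=
  Finsupp.equivFunOnFinite.symm ![(q.1.1 : ℕ), (q.1.2 : ℕ), M - q.1.1 - q.1.2]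

theorem exp3_zero {M : ℕ} (q : Mon M) : exp3 q 0 = q.1.1 := rfl
theorem exp3_one {M : ℕ} (q : Mon M) : exp3 q 1 = q.1.2 := rfl
theorem exp3_two {M : ℕ} (q : Mon M) : exp3 q 2 = M - q.1.1 - q.1.2 := rfl

theorem exp3_inj {M : ℕ} : Function.Injective (exp3 : Mon M → Fin 3 →₀ ℕ) := by
  intro q q' h
  have h0 := DFunLike.congr_fun h 0
  have h1 := DFunLike.congr_fun h 1
  rw [exp3_zero, exp3_zero] at h0
  rw [exp3_one, exp3_one] at h1
  exact Subtype.ext (Prod.ext (Fin.ext h0) (Fin.ext h1))

theorem degree_exp3 {M : ℕ} (q : Mon M) : (exp3 q).degree = M := by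
  rw [Finsupp.degree_eq_sum, Fin.sum_univ_three, exp3_zero, exp3_one, exp3_two]
  have := q.2
  omega

theorem exists_exp3 {M : ℕ} {s : Fin 3 →₀ ℕ} (hs : s.degree = M) : ∃ q : Mon M, exp3 q = s := by
  rw [Finsupp.degree_eq_sum, Fin.sum_univ_three] at hs
  refine ⟨⟨(⟨s 0, by omega⟩, ⟨s 1, by omega⟩), by simp only; omega⟩, ?_⟩
  ext i
  fin_cases i
  · rfl
  · rfl
  · change M - s 0 - s 1 = s 2
    omega

/-- the ternary form with the coefficients `c` -/
noncomputable def form {M : ℕ} (c : Mon M → R) : MvPolynomial (Fin 3) R :=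
  ∑ q : Mon M, C (c q) * (X 0 ^ (q.1.1 : ℕ) * X 1 ^ (q.1.2 : ℕ) * X 2 ^ (M - q.1.1 - q.1.2))

theorem mono3_eq {M : ℕ} (q : Mon M) :
    (X 0 ^ (q.1.1 : ℕ) * X 1 ^ (q.1.2 : ℕ) * X 2 ^ (M - q.1.1 - q.1.2) : MvPolynomial (Fin 3) R) =
      monomial (exp3 q) 1 := by
  rw [monomial_eq, C_1, one_mul, Finsupp.prod_fintype _ _ (fun i => pow_zero _),
    Fin.prod_univ_three, exp3_zero, exp3_one, exp3_two]

theorem form_eq {M : ℕ} (c : Mon M → R) : form c = ∑ q : Mon M, monomial (exp3 q) (c q) := by
  unfold form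
  refine Finset.sum_congr rfl fun q _ => ?_
  rw [mono3_eq, C_mul_monomial, mul_one]

theorem form_homog {M : ℕ} (c : Mon M → R) : (form c).IsHomogeneous M := by
  rw [form_eq]
  refine IsHomogeneous.sum _ _ _ fun q _ => ?_
  exact isHomogeneous_monomial _ (degree_exp3 q)

theorem map_form {R' : Type v} [CommRing R'] (φ : R →+* R') {M : ℕ} (c : Mon M → R) :
    map φ (form c) = form fun q => φ (c q) := by
  rw [form_eq, form_eq, map_sum]
  exact Finset.sum_congr rfl fun q _ => map_monomial _ _ _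

/-- a form is determined by its coefficients -/
theorem homog_eq {M : ℕ} {P : MvPolynomial (Fin 3) R} (hP : P.IsHomogeneous M) :
    P = ∑ q : Mon M, monomial (exp3 q) (P.coeff (exp3 q)) := by
  classical
  ext s
  rw [coeff_sum]
  simp only [coeff_monomial]
  by_cases hs : s.degree = M
  · obtain ⟨q, rfl⟩ := exists_exp3 hs
    rw [Finset.sum_eq_single q]
    · rw [if_pos rfl]
    · intro q' _ hq'
      rw [if_neg fun h => hq' (exp3_inj h)]
    · intro h
      exact absurd (Finset.mem_univ _) h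
  · rw [hP.coeff_eq_zero hs, Finset.sum_eq_zero]
    intro q _
    rw [if_neg]
    rintro rfl
    exact hs (degree_exp3 q)

/-- the columns -/
noncomputable def col3 {d : ℕ} (c : Mon d → R) (M : ℕ) (i : Fin 3 × Mon (M - (d - 1))) :
    MvPolynomial (Fin 3) R :=
  monomial (exp3 i.2) 1 * pderiv i.1 (form c)

theorem col3_homog {d M : ℕ} (hdM : d - 1 ≤ M) (c : Mon d → R) (i : Fin 3 × Mon (M - (d - 1))) :
    (col3 c M i).IsHomogeneous M := by
  have h1 := (isHomogeneous_monomial (1 : R) (degree_exp3 i.2)).mul ((form_homog c).pderiv (i := i.1))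
  rwa [Nat.sub_add_cancel hdM] at h1

theorem map_col3 {R' : Type v} [CommRing R'] (φ : R →+* R') {d : ℕ} (c : Mon d → R) (M : ℕ)
    (i : Fin 3 × Mon (M - (d - 1))) : map φ (col3 c M i) = col3 (fun q => φ (c q)) M i := by
  unfold col3
  rw [map_mul, map_monomial, map_one, ← pderiv_map, map_form]

/-- the vector of the coefficients -/
noncomputable def vec3 {d : ℕ} (c : Mon d → R) (M : ℕ) (i : Fin 3 × Mon (M - (d - 1))) (q : Mon M) :
    R := (col3 c M i).coeff (exp3 q)

/-- A plane curve is smooth: the partial derivatives have no common zero in the projective plane. -/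
def SmoothForm {k : Type u} [Field k] (F : MvPolynomial (Fin 3) k) : Prop :=
  ∀ (L : Type u) [Field L] [Algebra k L] (P : Fin 3 → L), P ≠ 0 → ∃ i, aeval P (pderiv i F) ≠ 0

/-- the monomials and the columns -/
theorem mono_of_vec {d M : ℕ} (hdM : d - 1 ≤ M) {c : Mon d → R} {ι : Type} [Fintype ι]
    {i : ι → Fin 3 × Mon (M - (d - 1))} {x : ι → R} {q : Mon M}
    (h : Pi.single q 1 = ∑ b, x b • vec3 c M (i b)) :
    monomial (exp3 q) 1 = ∑ b, C (x b) * col3 c M (i b) := by
  classical
  have h1 : (∑ b, C (x b) * col3 c M (i b)).IsHomogeneous M := by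
    refine IsHomogeneous.sum _ _ _ fun b _ => ?_
    have h2 := (isHomogeneous_C (Fin 3) (x b)).mul (col3_homog hdM c (i b))
    rwa [zero_add] at h2
  rw [homog_eq h1]
  have h2 : ∀ q', (∑ b, C (x b) * col3 c M (i b)).coeff (exp3 q') = (Pi.single q 1 : Mon M → R) q' := by
    intro q'
    rw [h, coeff_sum, Finset.sum_apply]
    refine Finset.sum_congr rfl fun b _ => ?_
    rw [coeff_C_mul]
    rfl
  simp only [h2]
  rw [Finset.sum_eq_single q]
  · rw [Pi.single_eq_same]
  · intro q' _ hq'
    rw [Pi.single_eq_of_ne hq', monomial_zero]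
  · intro h3
    exact absurd (Finset.mem_univ _) h3

theorem smooth_of_minor {k : Type u} [Field k] {d M : ℕ} (hdM : d - 1 ≤ M) (hM : 0 < M)
    {c : Mon d → k} {s : Mon M → Fin 3 × Mon (M - (d - 1))}
    (hs : (Matrix.of fun a b => vec3 c M (s b) a).det ≠ 0) : SmoothForm (form c) := by
  classical
  intro L _ _ P hP
  by_contra hcon
  push Not at hcon
  apply hP
  have h1 : ∀ q : Mon M, aeval P (monomial (exp3 q) (1 : k)) = 0 := by
    intro q
    obtain ⟨x, hx⟩ := coords_of_minor hs q
    rw [mono_of_vec hdM hx, map_sum]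
    refine Finset.sum_eq_zero fun b _ => ?_
    unfold col3
    rw [map_mul, map_mul, hcon, mul_zero, mul_zero]
  have h2 : ∀ q : Mon M, P 0 ^ (q.1.1 : ℕ) * P 1 ^ (q.1.2 : ℕ) * P 2 ^ (M - q.1.1 - q.1.2) = 0 := by
    intro q
    have h3 := h1 q
    rwa [← mono3_eq, map_mul, map_mul, map_pow, map_pow, map_pow, aeval_X, aeval_X, aeval_X] at h3
  funext i
  have hM' : M ≠ 0 := hM.ne'
  fin_cases i
  · have h3 := h2 ⟨(Fin.last M, 0), by simp⟩
    simp only [Fin.val_last, Fin.val_zero, pow_zero, mul_one, Nat.sub_self, Nat.sub_zero] at h3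
    exact (pow_eq_zero_iff hM').1 h3
  · have h3 := h2 ⟨(0, Fin.last M), by simp⟩
    simp only [Fin.val_last, Fin.val_zero, pow_zero, mul_one, one_mul, Nat.sub_self,
      Nat.sub_zero] at h3
    exact (pow_eq_zero_iff hM').1 h3
  · have h3 := h2 ⟨(0, 0), by simp⟩
    simp only [Fin.val_zero, pow_zero, mul_one, one_mul, Nat.sub_zero] at h3
    exact (pow_eq_zero_iff hM').1 h3

end form

section fermat

variable {k : Type u} [Field k]

/-- the monomial `X_l ^ M` -/
def corner (M : ℕ) : Fin 3 → Mon M :=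
  ![⟨(Fin.last M, 0), by simp⟩, ⟨(0, Fin.last M), by simp⟩, ⟨(0, 0), by simp⟩]

theorem exp3_corner (M : ℕ) (l : Fin 3) : exp3 (corner M l) = Finsupp.single l M := by
  ext i
  fin_cases l <;> fin_cases i <;> simp [corner, exp3]

/-- the coefficients of `w (X ^ d + Y ^ d + Z ^ d)` -/
noncomputable def fermat (d : ℕ) (w : k) : Mon d → k := fun q => by
  classical exact ∑ l, (Pi.single (corner d l) w : Mon d → k) q

theorem form_fermat (d : ℕ) (w : k) :
    form (fermat d w) = ∑ l : Fin 3, monomial (Finsupp.single l d) w := by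
  classical
  rw [form_eq]
  have h1 : ∀ q, monomial (exp3 q) (fermat d w q) =
      ∑ l : Fin 3, (monomial (exp3 q) ((Pi.single (corner d l) w : Mon d → k) q) :
        MvPolynomial (Fin 3) k) := by
    intro q
    unfold fermat
    rw [map_sum]
  rw [Finset.sum_congr rfl fun q _ => h1 q, Finset.sum_comm]
  refine Finset.sum_congr rfl fun l _ => ?_
  rw [Finset.sum_eq_single (corner d l)]
  · rw [Pi.single_eq_same, exp3_corner]
  · intro q _ hq
    rw [Pi.single_eq_of_ne hq, monomial_zero]
  · intro h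
    exact absurd (Finset.mem_univ _) h

theorem pderiv_fermat (d : ℕ) (w : k) (l : Fin 3) :
    pderiv l (form (fermat d w)) = monomial (Finsupp.single l (d - 1)) (w * d) := by
  classical
  rw [form_fermat, map_sum, Finset.sum_eq_single l]
  · rw [pderiv_monomial, Finsupp.single_eq_same, ← Finsupp.single_tsub]
  · intro l' _ hl
    rw [pderiv_monomial, Finsupp.single_eq_of_ne (Ne.symm hl), Nat.cast_zero, mul_zero,
      monomial_zero]
  · intro h
    exact absurd (Finset.mem_univ _) h

theorem fermat_span [CharZero k] {d : ℕ} (hd : 1 ≤ d) {w : k} (hw : w ≠ 0) (q : Mon (3 * d)) :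
    ∃ c : Fin 3 × Mon (3 * d - (d - 1)) → k,
      Pi.single q 1 = ∑ i, c i • vec3 (fermat d w) (3 * d) i := by
  classical
  have hd0 : w * (d : k) ≠ 0 := mul_ne_zero hw (Nat.cast_ne_zero.2 (by omega))
  obtain ⟨l, hl⟩ : ∃ l, d - 1 ≤ exp3 q l := by
    by_contra hcon
    push Not at hcon
    have h1 := degree_exp3 q
    rw [Finsupp.degree_eq_sum, Fin.sum_univ_three] at h1
    have h2 := hcon 0
    have h3 := hcon 1
    have h4 := hcon 2
    omega
  have hle : Finsupp.single l (d - 1) ≤ exp3 q := by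
    rw [Finsupp.single_le_iff]
    exact hl
  obtain ⟨q', hq'⟩ : ∃ q' : Mon (3 * d - (d - 1)), exp3 q' = exp3 q - Finsupp.single l (d - 1) := by
    apply exists_exp3
    have h1 : (exp3 q - Finsupp.single l (d - 1) + Finsupp.single l (d - 1)).degree = 3 * d := by
      rw [tsub_add_cancel_of_le hle, degree_exp3]
    rw [map_add, Finsupp.degree_single] at h1
    omega
  refine ⟨Pi.single (l, q') (w * d)⁻¹, ?_⟩
  rw [Finset.sum_eq_single (l, q')]
  · rw [Pi.single_eq_same]
    funext q''
    rw [Pi.smul_apply, smul_eq_mul]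
    unfold vec3 col3
    rw [pderiv_fermat, monomial_mul, hq', tsub_add_cancel_of_le hle, one_mul, coeff_monomial]
    by_cases h : q'' = q
    · rw [h, if_pos rfl, inv_mul_cancel₀ hd0, Pi.single_eq_same]
    · rw [if_neg fun h1 => h (exp3_inj h1).symm, mul_zero, Pi.single_eq_of_ne h]
  · intro i _ hi
    rw [Pi.single_eq_of_ne hi, zero_smul]
  · intro h
    exact absurd (Finset.mem_univ _) h

end fermat

/-- **The general plane curve is smooth.** -/
theorem thin_not_smooth {F k : Type u} [Field F] [CharZero F] [Field k] [Algebra F k] {d m : ℕ}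
    (hd : 1 ≤ d) {w : Fin (m + 1) → k} {o : Fin (m + 1)} (hw : w o ≠ 0) :
    UL.IsThin {a : Mon d × Fin (m + 1) → F | ¬ SmoothForm (form (sysW w a))} := by
  classical
  have hk0 : CharZero k := charZero_of_injective_algebraMap (algebraMap F k).injective
  obtain ⟨s, hs⟩ := exists_minor (vec3 (fermat d (w o)) (3 * d)) (fermat_span hd hw)
  let cU : Mon d → MvPolynomial (Mon d × Fin (m + 1)) k := fun q => ∑ e, X (q, e) * C (w e)
  have hcU : ∀ (a : Mon d × Fin (m + 1) → F) q, Pool.Agent.RRW.evk a (cU q) = sysW w a q := by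
    intro a q
    unfold Pool.Agent.RRW.evk
    simp only [cU, map_sum, map_mul, eval_X, eval_C]
    rfl
  let Ψ : MvPolynomial (Mon d × Fin (m + 1)) k :=
    (Matrix.of fun a b => vec3 cU (3 * d) (s b) a).det
  have hΨ : ∀ a : Mon d × Fin (m + 1) → F, Pool.Agent.RRW.evk a Ψ =
      (Matrix.of fun x y => vec3 (sysW w a) (3 * d) (s y) x).det := by
    intro a
    change Pool.Agent.RRW.evk a (Matrix.det _) = _
    rw [RingHom.map_det]
    congr 1
    ext x y
    change Pool.Agent.RRW.evk a (vec3 cU (3 * d) (s y) x) = vec3 (sysW w a) (3 * d) (s y) x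
    unfold vec3
    rw [← coeff_map, map_col3]
    simp only [hcU]
  -- the Fermat curve
  let a₀ : Mon d × Fin (m + 1) → F := fun q => if q.2 = o then
    ∑ l, (Pi.single (corner d l) 1 : Mon d → F) q.1 else 0
  have ha₀ : sysW w a₀ = fermat d (w o) := by
    funext q
    unfold sysW
    rw [Finset.sum_eq_single o]
    · simp only [a₀, if_true]
      unfold fermat
      rw [map_sum, Finset.sum_mul]
      refine Finset.sum_congr rfl fun l _ => ?_
      by_cases h : q = corner d l
      · rw [h, Pi.single_eq_same]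
        simp
      · rw [Pi.single_eq_of_ne h, map_zero, zero_mul]
        simp [h]
    · intro e _ he
      simp only [a₀, if_neg he, map_zero, zero_mul]
    · intro h
      exact absurd (Finset.mem_univ _) h
  have hΨ0 : Ψ ≠ 0 := by
    intro h0
    have h1 := hΨ a₀
    rw [h0, map_zero, ha₀] at h1
    exact hs h1.symm
  obtain ⟨G', hG', hG⟩ := RR.exists_eval_of_evk (F := F) hΨ0
  refine UL.IsThin.of_zeros (Ψ := G') hG' fun a ha => hG a ?_
  by_contra hne
  apply ha
  rw [hΨ] at hne
  exact smooth_of_minor (by omega) (by omega) hne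

end Pool.Agent.PL
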