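import Pool.Agent.Helper10.PL.LevE
import Pool.Agent.Helper10.PL.Smooth

/-!
# Project PLANE: the final theorem from the key statement
-/

universe u

namespace Pool.Agent.PL

open MvPolynomial Pool.Agent.PC Pool.Agent.Helper91.Sect

/-- the ternary form at `(x, y, 1)` -/
theorem aeval_form {k k' K : Type u} [Field k] [Field k'] [Field K] [Algebra k' K] (φ : k →+* k')
    {d : ℕ} (c : Mon d → k) (x y : K) :
    aeval ![x, y, 1] (map φ (form c)) = aeval ![x, y] (pol fun q => φ (c q)) := by
  rw [map_form]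
  unfold form pol mono
  rw [map_sum, map_sum]
  refine Finset.sum_congr rfl fun q _ => ?_
  rw [map_mul, map_mul, map_mul, map_mul, map_mul, map_pow, map_pow, map_pow, map_pow, map_pow,
    aeval_C, aeval_C, aeval_X, aeval_X, aeval_X, aeval_X, aeval_X]
  simp

/-- **The final theorem, from the key statement.** -/
theorem plane_of_key {F k : Type u} [Field F] [CharZero F] [Field k] [Algebra F k]
    (hF : ∃ S : Finset F, Subfield.closure (S : Set F) = ⊤)
    (hk : ∃ S : Finset k, Subfield.closure (S : Set k) = ⊤)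
    {m : ℕ} {w : Fin (m + 1) → k} {i j : Fin (m + 1)} (hw : Transcendental F (w i / w j))
    {d : ℕ} (hd : 3 ≤ d)
    (key : ∀ p : ℕ, p.Prime → p ∣ d → Key k (fun f : Mon d → k => HasSecE p f)) :
    UL.IsThin {a : Mon d × Fin (m + 1) → F |
      ¬ (SmoothForm (form (sysW w a)) ∧ ∀ p : ℕ, p.Prime → p ∣ d → ¬ HasSecE p (sysW w a))} := by
  classical
  have hj : w j ≠ 0 := by
    intro h0
    rw [h0, div_zero] at hw
    exact hw isAlgebraic_zero
  have h1 := thin_not_smooth (F := F) (k := k) (d := d) (by omega) hj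
  have h2 : ∀ p ∈ d.primeFactors, UL.IsThin {a : Mon d × Fin (m + 1) → F | HasSecE p (sysW w a)} := by
    intro p hp
    rw [Nat.mem_primeFactors] at hp
    exact thin_of_key (fun c f _ h => h.smul c) (key p hp.1 hp.2.1) hF hk hw
  refine (h1.union (UL.IsThin.biUnion _ h2)).mono ?_
  intro a ha
  by_contra hcon
  apply ha
  rw [Set.mem_union, not_or] at hcon
  refine ⟨not_not.1 hcon.1, fun p hp hpd hs => hcon.2 ?_⟩
  rw [Set.mem_iUnion₂]
  exact ⟨p, Nat.mem_primeFactors.2 ⟨hp, hpd, by omega⟩, hs⟩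

end Pool.Agent.PL
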