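import Mathlib

/-!
# PL: the implicit function theorem over power series, abstract form
-/

universe u v

namespace PL

open PowerSeries

variable {A : Type u} [Field A] {B V : Type v} [Fintype B] [Fintype V]

lemma eq_zero_of_dvd {s : A⟦X⟧} (h : ∀ k : ℕ, (X : A⟦X⟧) ^ (k + 1) ∣ s) : s = 0 := by
  ext n
  rw [map_zero]
  exact (X_pow_dvd_iff.mp (h n)) n (Nat.lt_succ_self n)

/-- data of a system of equations near an approximate solution -/
structure Sys (E : (B → A⟦X⟧) → V → A⟦X⟧) (J : (B → A⟦X⟧) → (B → A⟦X⟧) → V → A⟦X⟧)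
    (z0 : B → A) (M : V → B → A) (N : B → V → A) : Prop where
  zero : ∀ v, (X : A⟦X⟧) ∣ E (fun b => C (z0 b)) v
  taylor : ∀ z η δ, ∃ c : V → A⟦X⟧, ∀ v,
    E (fun b => z b + η * δ b) v = E z v + η * J z δ v + η ^ 2 * c v
  lin : ∀ z, (∀ b, X ∣ z b - C (z0 b)) → ∀ δ v, X ∣ J z δ v - ∑ b, C (M v b) * δ b
  mn : ∀ e : V → A⟦X⟧, ∀ v, ∑ b, C (M v b) * ∑ v', C (N b v') * e v' = e v
  nm : ∀ δ : B → A⟦X⟧, ∀ b, ∑ v, C (N b v) * ∑ b', C (M v b') * δ b' = δ b

variable {E : (B → A⟦X⟧) → V → A⟦X⟧} {J : (B → A⟦X⟧) → (B → A⟦X⟧) → V → A⟦X⟧}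
  {z0 : B → A} {M : V → B → A} {N : B → V → A}

/-- the Newton iteration -/
noncomputable def newton (E : (B → A⟦X⟧) → V → A⟦X⟧) (z0 : B → A) (N : B → V → A) :
    ℕ → B → A⟦X⟧
  | 0 => fun b => C (z0 b)
  | k + 1 => fun b => newton E z0 N k b - ∑ v, C (N b v) * E (newton E z0 N k) v

lemma Sys.newton_dvd (h : Sys E J z0 M N) (k : ℕ) :
    (∀ b, X ∣ newton E z0 N k b - C (z0 b)) ∧ ∀ v, (X : A⟦X⟧) ^ (k + 1) ∣ E (newton E z0 N k) v := by
  induction k with
  | zero =>
    refine ⟨fun b => ?_, fun v => ?_⟩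
    · rw [newton, sub_self]
      exact dvd_zero _
    · rw [zero_add, pow_one]
      exact h.zero v
  | succ k ih =>
    obtain ⟨h1, h2⟩ := ih
    choose e he using h2
    set z := newton E z0 N k with hz
    have hz' : newton E z0 N (k + 1) =
        fun b => z b + X ^ (k + 1) * -(∑ v, C (N b v) * e v) := by
      funext b
      have e2 : ∑ v, C (N b v) * E z v = X ^ (k + 1) * ∑ v, C (N b v) * e v := by
        rw [Finset.mul_sum]
        refine Finset.sum_congr rfl fun v _ => ?_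
        rw [he v]
        ring
      change z b - ∑ v, C (N b v) * E z v = _
      rw [e2]
      ring
    refine ⟨fun b => ?_, fun v => ?_⟩
    · rw [hz']
      have h3 : (X : A⟦X⟧) ∣ X ^ (k + 1) * -(∑ v, C (N b v) * e v) :=
        Dvd.dvd.mul_right (dvd_pow_self _ (by omega)) _
      have h4 : z b + X ^ (k + 1) * -(∑ v, C (N b v) * e v) - C (z0 b) =
          (z b - C (z0 b)) + X ^ (k + 1) * -(∑ v, C (N b v) * e v) := by ring
      rw [h4]
      exact dvd_add (h1 b) h3
    · obtain ⟨c, hc⟩ := h.taylor z (X ^ (k + 1)) fun b => -(∑ v, C (N b v) * e v)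
      rw [hz', hc v, he v]
      obtain ⟨a, ha⟩ := h.lin z h1 (fun b => -(∑ v, C (N b v) * e v)) v
      have h5 : ∑ b, C (M v b) * -(∑ v, C (N b v) * e v) = - e v := by
        rw [← h.mn e v, ← Finset.sum_neg_distrib]
        exact Finset.sum_congr rfl fun b _ => mul_neg _ _
      have h6 : J z (fun b => -(∑ v, C (N b v) * e v)) v = X * a - e v := by
        rw [← ha, h5]
        ring
      rw [h6]
      refine ⟨a + X ^ k * c v, ?_⟩
      ring

lemma Sys.newton_sub (h : Sys E J z0 M N) (k j : ℕ) (b : B) :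
    (X : A⟦X⟧) ^ (k + 1) ∣ newton E z0 N (k + j) b - newton E z0 N k b := by
  induction j with
  | zero => rw [add_zero, sub_self]; exact dvd_zero _
  | succ j ih =>
    have h1 : newton E z0 N (k + (j + 1)) b = newton E z0 N (k + j) b -
      ∑ v, C (N b v) * E (newton E z0 N (k + j)) v := rfl
    have h2 : (X : A⟦X⟧) ^ (k + 1) ∣ ∑ v, C (N b v) * E (newton E z0 N (k + j)) v :=
      Finset.dvd_sum fun v _ => Dvd.dvd.mul_left
        ((pow_dvd_pow _ (by omega)).trans ((h.newton_dvd (k + j)).2 v)) _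
    rw [h1, sub_right_comm]
    exact dvd_sub ih h2

theorem Sys.exists_solution (h : Sys E J z0 M N) :
    ∃ z : B → A⟦X⟧, (∀ b, X ∣ z b - C (z0 b)) ∧ ∀ v, E z v = 0 := by
  set z : B → A⟦X⟧ := fun b => PowerSeries.mk fun n => coeff n (newton E z0 N n b) with hz
  have hzk : ∀ k b, (X : A⟦X⟧) ^ (k + 1) ∣ z b - newton E z0 N k b := by
    intro k b
    rw [X_pow_dvd_iff]
    intro n hn
    rw [map_sub, hz, coeff_mk]
    obtain ⟨j, rfl⟩ : ∃ j, k = n + j := ⟨k - n, by omega⟩
    have h1 := (X_pow_dvd_iff.mp (h.newton_sub n j b)) n (Nat.lt_succ_self n)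
    rw [map_sub] at h1
    linear_combination -h1
  refine ⟨z, fun b => ?_, fun v => eq_zero_of_dvd fun k => ?_⟩
  · have := hzk 0 b
    rw [zero_add, pow_one] at this
    exact this
  · choose δ hδ using fun b => hzk k b
    obtain ⟨c, hc⟩ := h.taylor (newton E z0 N k) (X ^ (k + 1)) δ
    have hz' : z = fun b => newton E z0 N k b + X ^ (k + 1) * δ b := by
      funext b
      rw [← hδ b]
      ring
    rw [hz', hc v]
    refine dvd_add (dvd_add ((h.newton_dvd k).2 v) (dvd_mul_right _ _)) ?_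
    exact Dvd.dvd.mul_right (Dvd.intro (X ^ (k + 1)) (by ring)) _

theorem Sys.unique (h : Sys E J z0 M N) {z z' : B → A⟦X⟧} (hz : ∀ b, X ∣ z b - C (z0 b))
    (hE : ∀ v, E z v = 0) (hz' : ∀ b, X ∣ z' b - C (z0 b)) (hE' : ∀ v, E z' v = 0) : z' = z := by
  have key : ∀ k b, (X : A⟦X⟧) ^ (k + 1) ∣ z' b - z b := by
    intro k
    induction k with
    | zero =>
      intro b
      rw [zero_add, pow_one]
      have : z' b - z b = (z' b - C (z0 b)) - (z b - C (z0 b)) := by ring
      rw [this]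
      exact dvd_sub (hz' b) (hz b)
    | succ k ih =>
      choose δ hδ using ih
      obtain ⟨c, hc⟩ := h.taylor z (X ^ (k + 1)) δ
      have e1 : z' = fun b => z b + X ^ (k + 1) * δ b := by
        funext b
        rw [← hδ b]
        ring
      have h1 : ∀ v, J z δ v = - X ^ (k + 1) * c v := by
        intro v
        have h2 := hc v
        rw [← e1, hE' v, hE v] at h2
        have h3 : (X : A⟦X⟧) ^ (k + 1) * (J z δ v + X ^ (k + 1) * c v) = 0 := by
          linear_combination -h2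
        rcases mul_eq_zero.mp h3 with h4 | h4
        · exact absurd h4 (pow_ne_zero _ X_ne_zero)
        · linear_combination h4
      have h2 : ∀ v, X ∣ ∑ b, C (M v b) * δ b := by
        intro v
        have h3 := h.lin z hz δ v
        rw [h1 v] at h3
        have h4 : (X : A⟦X⟧) ∣ - X ^ (k + 1) * c v :=
          Dvd.dvd.mul_right ((dvd_pow_self _ (by omega)).neg_right) _
        have h5 := dvd_sub h4 h3
        rwa [sub_sub_cancel] at h5
      intro b
      have h3 : X ∣ δ b := by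
        rw [← h.nm δ b]
        exact Finset.dvd_sum fun v _ => Dvd.dvd.mul_left (h2 v) _
      rw [hδ b, pow_succ]
      exact mul_dvd_mul_left _ h3
  funext b
  exact sub_eq_zero.mp (eq_zero_of_dvd fun k => key k b)

end PL
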