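import Pool.Agent.Helper10.PL.TD

/-!
# PL: the linearised equation has a solution

`f0 = a ∏ (y - g i) - T x ^ d`, `G i = (y - g i) (y - (g i + 1)) ^ (p m)`,
`W = x ^ (d / p) ∏ (y - (g i + 1)) ^ m`: every polynomial of degree at most `N = d (1 + p m)` is
`a ∑ δG i ∏_{j ≠ i} G j - p T δW W ^ (p - 1) - δH f0`.
-/

namespace PL

open Polynomial

variable {A : Type*} [Field A]

lemma exists_reduce {d N : ℕ} (hd : 0 < d) (hN : d ≤ N) {T : A} (hT : T ≠ 0) {h : A[X]}
    (hh : h.natDegree ≤ d) (F : A[X][X]) (hF : TD N F) :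
    ∃ (Q : A[X][X]) (a : Fin d → A[X]), TD (N - d) Q ∧
      (∀ l : Fin d, a l = 0 ∨ (l : ℕ) + (a l).natDegree ≤ N) ∧
      F = Q * (C h - C (C T) * X ^ d) + ∑ l : Fin d, C (a l) * X ^ (l : ℕ) := by
  classical
  have hf0 : TD d (C h - C (C T) * X ^ d : A[X][X]) := by
    refine (TD.C hh).sub (TD.C_mul_X_pow ?_)
    right
    rw [natDegree_C, add_zero]
  have key : ∀ (M : ℕ) (F : A[X][X]), F.natDegree < M → TD N F →
      ∃ (Q : A[X][X]) (a : Fin d → A[X]), TD (N - d) Q ∧
      (∀ l : Fin d, a l = 0 ∨ (l : ℕ) + (a l).natDegree ≤ N) ∧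
      F = Q * (C h - C (C T) * X ^ d) + ∑ l : Fin d, C (a l) * X ^ (l : ℕ) := by
    intro M
    induction M with
    | zero => intro F h0; omega
    | succ M ih =>
      intro F hFM hF
      by_cases hFd : F.natDegree < d
      · refine ⟨0, fun l => F.coeff l, TD.zero, fun l => ?_, ?_⟩
        · by_cases h0 : F.coeff l = 0
          · exact Or.inl h0
          · exact Or.inr (hF.coeff_natDegree h0)
        · rw [zero_mul, zero_add, Fin.sum_univ_eq_sum_range (fun l => C (F.coeff l) * X ^ l) d]
          exact F.as_sum_range_C_mul_X_pow' hFd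
      · push Not at hFd
        have hF0 : F ≠ 0 := by
          rintro rfl
          rw [natDegree_zero] at hFd
          omega
        set e := F.natDegree with he
        have hlc : F.coeff e ≠ 0 := by
          rw [he]
          exact leadingCoeff_ne_zero.mpr hF0
        have hdeg := hF.coeff_natDegree hlc
        set c := F.coeff e with hc
        set q : A[X][X] := C (C T⁻¹ * c) * X ^ (e - d) with hq
        have hqT : TD (N - d) q := by
          refine TD.C_mul_X_pow (Or.inr ?_)
          have h1 : (C T⁻¹ * c).natDegree ≤ c.natDegree := natDegree_C_mul_le _ _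
          omega
        set F' := F + q * (C h - C (C T) * X ^ d) with hF'
        have hTD' : TD N F' := hF.add ((hqT.mul hf0).mono (by omega))
        have hcancel : q * (C (C T) * X ^ d) = C c * X ^ e := by
          rw [hq]
          have h1 : (C (C T⁻¹ * c) * X ^ (e - d) : A[X][X]) * (C (C T) * X ^ d) =
              C (C T⁻¹ * c * C T) * (X ^ (e - d) * X ^ d) := by
            rw [C_mul (a := C T⁻¹ * c)]
            ring
          rw [h1, ← pow_add, Nat.sub_add_cancel hFd]
          congr 2
          rw [mul_comm (C T⁻¹), mul_assoc, ← C_mul, inv_mul_cancel₀ hT, C_1, mul_one]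
        have hF'eq : F' = F.eraseLead + q * C h := by
          have h2 := F.eraseLead_add_C_mul_X_pow
          rw [← he] at h2
          have h3 : (C F.leadingCoeff * X ^ e : A[X][X]) = C c * X ^ e := by rw [hc, he]; rfl
          rw [h3] at h2
          rw [hF', mul_sub, hcancel]
          linear_combination -h2
        have hdeg' : F'.natDegree < e := by
          rw [hF'eq]
          have h1 : F.eraseLead.natDegree ≤ e - 1 := by
            have := F.eraseLead_natDegree_le
            rw [← he] at this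
            exact this
          have h2 : (q * C h).natDegree ≤ e - d := by
            rw [hq]
            calc (C (C T⁻¹ * c) * X ^ (e - d) * C h : A[X][X]).natDegree
                ≤ (C (C T⁻¹ * c) * X ^ (e - d) : A[X][X]).natDegree + (C h : A[X][X]).natDegree :=
                  natDegree_mul_le
              _ ≤ (e - d) + 0 := by
                  gcongr
                  · exact natDegree_C_mul_X_pow_le _ _
                  · rw [natDegree_C]
              _ = e - d := by omega
          have h3 := natDegree_add_le F.eraseLead (q * C h)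
          omega
        obtain ⟨Q, a, hQ, ha, hFQ⟩ := ih F' (by omega) hTD'
        refine ⟨Q - q, a, hQ.sub hqT, ha, ?_⟩
        rw [hF'] at hFQ
        linear_combination hFQ
  exact key (F.natDegree + 1) F (by omega) hF

/-- the polynomial `(y - g) (y - (g + 1)) ^ M` -/
noncomputable def PP (g : A) (M : ℕ) : A[X] := (X - C g) * (X - C (g + 1)) ^ M

lemma monic_PP (g : A) (M : ℕ) : (PP g M).Monic :=
  (monic_X_sub_C g).mul ((monic_X_sub_C (g + 1)).pow M)

lemma natDegree_PP (g : A) (M : ℕ) : (PP g M).natDegree = 1 + M := by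
  rw [PP, (monic_X_sub_C g).natDegree_mul ((monic_X_sub_C (g + 1)).pow M),
    (monic_X_sub_C (g + 1)).natDegree_pow, natDegree_X_sub_C, natDegree_X_sub_C, mul_one]

lemma PP_add (g : A) (M M' : ℕ) : PP g (M + M') = PP g M * (X - C (g + 1)) ^ M' := by
  rw [PP, PP, pow_add, mul_assoc]

lemma isCoprime_PP {g g' : A} (h1 : g ≠ g') (h2 : g + 1 ≠ g') (h3 : g' + 1 ≠ g) (M : ℕ) :
    IsCoprime (PP g M) (PP g' M) := by
  have hX : ∀ {a b : A}, a ≠ b → IsCoprime (X - C a : A[X]) (X - C b) := fun {a b} h =>
    isCoprime_X_sub_C_of_isUnit_sub (sub_ne_zero.mpr h).isUnit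
  unfold PP
  refine IsCoprime.mul_left (IsCoprime.mul_right (hX h1) (IsCoprime.pow_right (hX h3.symm)))
    (IsCoprime.mul_right (IsCoprime.pow_left (hX h2)) (IsCoprime.pow (hX fun h => h1 ?_)))
  exact add_right_cancel h

lemma exists_pf {d m p l : ℕ} {g : Fin d → A} (hg : Function.Injective g)
    (hc : ∀ i j, g i + 1 ≠ g j) (hp : 1 ≤ p) (hl : l ≤ m) (a : A[X])
    (ha : l + a.natDegree ≤ d * (1 + p * m)) :
    ∃ (c : A) (r : Fin d → A[X]) (Q : A[X]), (l = 0 ∨ c = 0) ∧
      (∀ i, r i = 0 ∨ l + (r i).natDegree ≤ 1 + p * m) ∧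
      (Q = 0 ∨ l + Q.natDegree ≤ d * m) ∧
      a = C c * ∏ i, PP (g i) (p * m) + ∑ i, r i * ∏ j ∈ Finset.univ.erase i, PP (g j) (p * m) +
        (∏ i, PP (g i) ((p - 1) * m)) * Q := by
  classical
  set n := 1 + p * m with hn
  have hpm : p * m = (p - 1) * m + m := by
    obtain ⟨q, rfl⟩ : ∃ q, p = q + 1 := ⟨p - 1, by omega⟩
    rw [Nat.add_sub_cancel]
    ring
  have hmon : ∀ i, (PP (g i) (p * m)).Monic := fun i => monic_PP _ _
  have hdegG : ∀ i, (PP (g i) (p * m)).natDegree = n := fun i => natDegree_PP _ _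
  have hprodmon : ∀ s : Finset (Fin d), (∏ i ∈ s, PP (g i) (p * m)).Monic := fun s =>
    monic_prod_of_monic _ _ fun i _ => hmon i
  have hproddeg : ∀ s : Finset (Fin d), (∏ i ∈ s, PP (g i) (p * m)).natDegree = s.card * n := by
    intro s
    rw [natDegree_prod_of_monic _ _ fun i _ => hmon i, Finset.sum_congr rfl fun i _ => hdegG i,
      Finset.sum_const, smul_eq_mul]
  have hP : (∏ i, PP (g i) (p * m)).natDegree = d * n := by
    rw [hproddeg, Finset.card_univ, Fintype.card_fin]
  have hPe : ∀ i : Fin d, (∏ j ∈ Finset.univ.erase i, PP (g j) (p * m)).natDegree = (d - 1) * n := by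
    intro i
    rw [hproddeg, Finset.card_erase_of_mem (Finset.mem_univ i), Finset.card_univ, Fintype.card_fin]
  obtain ⟨q, r₀, hr₀, haq⟩ := eq_quo_mul_prod_add_sum_rem_mul_prod (s := Finset.univ) a
    (g := fun i => PP (g i) (p * m)) (fun i _ => hmon i)
    (fun i _ j _ hij => isCoprime_PP (fun h => hij (hg h)) (hc i j) (hc j i) _)
  -- degrees
  have hr₀' : ∀ i, (r₀ i).natDegree ≤ n - 1 := by
    intro i
    by_cases h0 : r₀ i = 0
    · rw [h0, natDegree_zero]; exact Nat.zero_le _
    · have h1 := hr₀ i (Finset.mem_univ i)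
      rw [degree_eq_natDegree h0, degree_eq_natDegree (hmon i).ne_zero, hdegG] at h1
      have h2 : (r₀ i).natDegree < n := by exact_mod_cast h1
      omega
  by_cases hd0 : d = 0
  · subst hd0
    refine ⟨a.coeff 0, fun i => i.elim0, 0, ?_, fun i => i.elim0, Or.inl rfl, ?_⟩
    · left
      omega
    · have : a.natDegree = 0 := by omega
      rw [eq_C_of_natDegree_eq_zero this]
      simp
  have hdn : (d - 1) * n + n = d * n := by
    obtain ⟨e, rfl⟩ : ∃ e, d = e + 1 := ⟨d - 1, by omega⟩
    rw [Nat.add_sub_cancel]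
    ring
  have hsum : (∑ i, r₀ i * ∏ j ∈ Finset.univ.erase i, PP (g j) (p * m)).natDegree ≤ d * n - 1 := by
    refine natDegree_sum_le_of_forall_le _ _ fun i _ => ?_
    refine natDegree_mul_le.trans ?_
    rw [hPe i]
    have := hr₀' i
    omega
  have hq0 : q.natDegree = 0 ∧ (l = 0 ∨ q = 0) := by
    by_cases h0 : q = 0
    · exact ⟨by rw [h0, natDegree_zero], Or.inr h0⟩
    · have h1 : (q * ∏ i, PP (g i) (p * m)).natDegree = q.natDegree + d * n := by
        rw [mul_comm q, (hprodmon Finset.univ).natDegree_mul' h0, hP, add_comm]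
      have h2 : q * ∏ i, PP (g i) (p * m) =
          a - ∑ i, r₀ i * ∏ j ∈ Finset.univ.erase i, PP (g j) (p * m) := by
        rw [eq_sub_iff_add_eq]
        exact haq.symm
      have h3 := natDegree_sub_le a (∑ i, r₀ i * ∏ j ∈ Finset.univ.erase i, PP (g j) (p * m))
      rw [← h2, h1] at h3
      have hn1 : 1 ≤ n := by omega
      have hdn1 : 1 ≤ d * n := Nat.one_le_iff_ne_zero.mpr (Nat.mul_ne_zero hd0 (by omega))
      omega
  set E := fun i : Fin d => PP (g i) ((p - 1) * m) with hE
  have hEmon : ∀ i, (E i).Monic := fun i => monic_PP _ _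
  have hEdeg : ∀ i, (E i).natDegree = 1 + (p - 1) * m := fun i => natDegree_PP _ _
  have hGE : ∀ i, PP (g i) (p * m) = E i * (X - C (g i + 1)) ^ m := fun i => by
    rw [hpm, PP_add]
  set r := fun i => r₀ i %ₘ E i with hr
  set v := fun i => r₀ i /ₘ E i with hv
  set Q : A[X] := ∑ i, v i * ∏ j ∈ Finset.univ.erase i, (X - C (g j + 1)) ^ m with hQ
  have hrdeg : ∀ i, (r i).natDegree ≤ (p - 1) * m := by
    intro i
    by_cases h0 : r i = 0
    · rw [h0, natDegree_zero]; exact Nat.zero_le _
    · have h1 : (r i).degree < (E i).degree := degree_modByMonic_lt _ (hEmon i)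
      rw [degree_eq_natDegree h0, degree_eq_natDegree (hEmon i).ne_zero, hEdeg] at h1
      have h2 : (r i).natDegree < 1 + (p - 1) * m := by exact_mod_cast h1
      omega
  have hEQ : (∏ i, E i) * Q =
      ∑ i, v i * E i * ∏ j ∈ Finset.univ.erase i, PP (g j) (p * m) := by
    rw [hQ, Finset.mul_sum]
    refine Finset.sum_congr rfl fun i _ => ?_
    rw [← Finset.mul_prod_erase Finset.univ E (Finset.mem_univ i),
      Finset.prod_congr rfl fun j _ => hGE j, Finset.prod_mul_distrib]
    ring
  have hrv : ∀ i, r₀ i = r i + v i * E i := fun i => by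
    rw [hr, hv]
    have := modByMonic_add_div (r₀ i) (E i)
    linear_combination -this
  have hqC : q = C (q.coeff 0) := eq_C_of_natDegree_eq_zero hq0.1
  have haeq : a = C (q.coeff 0) * ∏ i, PP (g i) (p * m) +
      ∑ i, r i * ∏ j ∈ Finset.univ.erase i, PP (g j) (p * m) + (∏ i, E i) * Q := by
    rw [hEQ, ← hqC, add_assoc, ← Finset.sum_add_distrib]
    refine haq.trans ?_
    congr 1
    refine Finset.sum_congr rfl fun i _ => ?_
    rw [hrv i]
    ring
  refine ⟨q.coeff 0, r, Q, ?_, ?_, ?_, haeq⟩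
  · rcases hq0.2 with h | h
    · exact Or.inl h
    · right
      rw [h, coeff_zero]
  · intro i
    right
    have := hrdeg i
    omega
  · by_cases hQ0 : Q = 0
    · exact Or.inl hQ0
    right
    have hprodE : (∏ i, E i).Monic := monic_prod_of_monic _ _ fun i _ => hEmon i
    have hprodEdeg : (∏ i, E i).natDegree = d * (1 + (p - 1) * m) := by
      rw [natDegree_prod_of_monic _ _ fun i _ => hEmon i, Finset.sum_congr rfl fun i _ => hEdeg i,
        Finset.sum_const, smul_eq_mul, Finset.card_univ, Fintype.card_fin]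
    have h1 : ((∏ i, E i) * Q).natDegree = d * (1 + (p - 1) * m) + Q.natDegree := by
      rw [hprodE.natDegree_mul' hQ0, hprodEdeg]
    have h2 : ((∏ i, E i) * Q).natDegree ≤ d * n - l := by
      have e1 : (∏ i, E i) * Q = a - C (q.coeff 0) * ∏ i, PP (g i) (p * m) -
          ∑ i, r i * ∏ j ∈ Finset.univ.erase i, PP (g j) (p * m) := by
        linear_combination -haeq
      rw [e1]
      refine (natDegree_sub_le _ _).trans (max_le ((natDegree_sub_le _ _).trans (max_le ?_ ?_)) ?_)
      · omega
      · rcases hq0.2 with h | h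
        · refine (natDegree_C_mul_le _ _).trans ?_
          rw [hP]
          omega
        · rw [h]
          simp
      · refine natDegree_sum_le_of_forall_le _ _ fun i _ => ?_
        refine natDegree_mul_le.trans ?_
        rw [hPe i]
        have := hrdeg i
        omega
    have h3 : d * (1 + (p - 1) * m) + d * m = d * n := by
      rw [hn, hpm]
      ring
    omega

/-- `W = x ^ (d / p) ∏ (y - (g i + 1)) ^ m` -/
noncomputable def W0 {d : ℕ} (g : Fin d → A) (m p : ℕ) : A[X][X] :=
  C (∏ i, (X - C (g i + 1)) ^ m) * X ^ (d / p)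

/-- `f0 = a ∏ (y - g i) - T x ^ d` -/
noncomputable def f0 {d : ℕ} (g : Fin d → A) (a T : A) : A[X][X] :=
  C (C a * ∏ i, (X - C (g i))) - C (C T) * X ^ d

theorem linearised {d m p : ℕ} (hd : 0 < d) (hm : d ≤ m + 1) (hp : 1 ≤ p) (hpd : p ∣ d)
    {g : Fin d → A} (hg : Function.Injective g) (hc : ∀ i j, g i + 1 ≠ g j) {a T : A}
    (ha : a ≠ 0) (hT : T ≠ 0) (hpA : (p : A) ≠ 0) (F : A[X][X]) (hF : TD (d * (1 + p * m)) F) :
    ∃ (δG : Fin d → A[X][X]) (δW δH : A[X][X]), (∀ i, TD (1 + p * m) (δG i)) ∧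
      TD (d / p * (1 + p * m)) δW ∧ TD (p * (d * m)) δH ∧
      F = C (C a) * ∑ i, δG i * ∏ j ∈ Finset.univ.erase i, C (PP (g j) (p * m)) -
        C (C (T * p)) * δW * W0 g m p ^ (p - 1) - δH * f0 g a T := by
  classical
  obtain ⟨e, he⟩ := hpd
  have hdp : d / p = e := by rw [he]; exact Nat.mul_div_cancel_left _ (by omega)
  -- solutions are closed under sums
  let Sol : A[X][X] → Prop := fun F => ∃ (δG : Fin d → A[X][X]) (δW δH : A[X][X]),
    (∀ i, TD (1 + p * m) (δG i)) ∧
      TD (d / p * (1 + p * m)) δW ∧ TD (p * (d * m)) δH ∧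
      F = C (C a) * ∑ i, δG i * ∏ j ∈ Finset.univ.erase i, C (PP (g j) (p * m)) -
        C (C (T * p)) * δW * W0 g m p ^ (p - 1) - δH * f0 g a T
  have hadd : ∀ F F', Sol F → Sol F' → Sol (F + F') := by
    rintro F F' ⟨G, W, H, h1, h2, h3, h4⟩ ⟨G', W', H', h1', h2', h3', h4'⟩
    refine ⟨fun i => G i + G' i, W + W', H + H', fun i => (h1 i).add (h1' i), h2.add h2',
      h3.add h3', ?_⟩
    rw [h4, h4', Finset.sum_congr rfl fun i _ => add_mul (G i) (G' i) _, Finset.sum_add_distrib]
    ring
  have hzero : Sol 0 := ⟨0, 0, 0, fun i => TD.zero, TD.zero, TD.zero, by simp⟩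
  have hsum : ∀ (s : Finset (Fin d)) (f : Fin d → A[X][X]), (∀ i ∈ s, Sol (f i)) →
      Sol (∑ i ∈ s, f i) := by
    intro s f
    induction s using Finset.induction_on with
    | empty => intro _; rw [Finset.sum_empty]; exact hzero
    | insert b s hb ih =>
      intro h
      rw [Finset.sum_insert hb]
      exact hadd _ _ (h b (Finset.mem_insert_self b s))
        (ih fun i hi => h i (Finset.mem_insert_of_mem hi))
  have hhdeg : (C a * ∏ i, (X - C (g i)) : A[X]).natDegree ≤ d := by
    refine (natDegree_C_mul_le _ _).trans ?_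
    rw [natDegree_prod_of_monic _ _ fun i _ => monic_X_sub_C (g i)]
    simp
  have hdN : d ≤ d * (1 + p * m) := Nat.le_mul_of_pos_right d (by omega)
  obtain ⟨Q, al, hQ, hal, hFeq⟩ := exists_reduce hd hdN hT hhdeg F hF
  change Sol F
  rw [hFeq]
  refine hadd _ _ ?_ (hsum _ _ fun l _ => ?_)
  · refine ⟨0, 0, -Q, fun i => TD.zero, TD.zero, ?_, ?_⟩
    · refine hQ.neg.mono ?_
      have : d * (1 + p * m) = d + p * (d * m) := by ring
      omega
    · rw [f0]
      simp only [Pi.zero_apply, zero_mul, Finset.sum_const_zero, mul_zero, sub_zero]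
      ring
  · rcases hal l with h0 | hl
    · rw [h0, C_0, zero_mul]
      exact hzero
    obtain ⟨c, r, q, hlc, hr, hq, haeq⟩ := exists_pf (l := (l : ℕ)) hg hc hp
      (by have := l.2; omega) (al l) hl
    let i0 : Fin d := ⟨0, hd⟩
    refine ⟨fun i => C (C a⁻¹) * (C (r i) * X ^ (l : ℕ) +
        if i = i0 then C (C c) * C (PP (g i) (p * m)) * X ^ (l : ℕ) else 0),
      C (C (-(p * a)⁻¹)) * (C q * X ^ ((l : ℕ) + d / p)),
      C (C (-a⁻¹)) * (C (q * ∏ i, (X - C (g i + 1)) ^ ((p - 1) * m)) * X ^ (l : ℕ)), ?_, ?_, ?_, ?_⟩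
    · intro i
      refine ((TD.C (N := 0) (by rw [natDegree_C])).mul ?_).mono (by omega : 0 + (1 + p * m) ≤ _)
      refine (TD.C_mul_X_pow (hr i)).add ?_
      split_ifs with hi
      · rcases hlc with h | h
        · rw [h, pow_zero, mul_one, ← C_mul]
          refine TD.C ((natDegree_C_mul_le _ _).trans ?_)
          rw [natDegree_PP]
        · rw [h, C_0, C_0, zero_mul, zero_mul]
          exact TD.zero
      · exact TD.zero
    · refine ((TD.C (N := 0) (by rw [natDegree_C])).mul (N := d / p * (1 + p * m)) ?_).mono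
        (by omega)
      refine TD.C_mul_X_pow ?_
      rcases hq with h | h
      · exact Or.inl h
      · right
        have h1 : d / p * (1 + p * m) = d / p + d * m := by
          rw [hdp, he]
          ring
        omega
    · refine ((TD.C (N := 0) (by rw [natDegree_C])).mul (N := p * (d * m)) ?_).mono
        (by omega)
      refine TD.C_mul_X_pow ?_
      rcases hq with h | h
      · exact Or.inl (by rw [h, zero_mul])
      · right
        have h1 : (q * ∏ i, (X - C (g i + 1)) ^ ((p - 1) * m)).natDegree ≤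
            q.natDegree + d * ((p - 1) * m) := by
          refine natDegree_mul_le.trans ?_
          gcongr
          rw [natDegree_prod_of_monic _ _ fun i _ => (monic_X_sub_C _).pow _,
            Finset.sum_congr rfl fun i _ => (monic_X_sub_C (g i + 1)).natDegree_pow _,
            Finset.sum_congr rfl fun i _ => by rw [natDegree_X_sub_C, mul_one],
            Finset.sum_const, smul_eq_mul, Finset.card_univ, Fintype.card_fin]
        have h2 : d * m + d * ((p - 1) * m) = p * (d * m) := by
          obtain ⟨p', rfl⟩ : ∃ p', p = p' + 1 := ⟨p - 1, by omega⟩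
          rw [Nat.add_sub_cancel]
          ring
        omega
    · -- the identity
      set P : A[X][X] := ∏ i, C (PP (g i) (p * m)) with hP
      have hCprod : ∀ (s : Finset (Fin d)) (f : Fin d → A[X]), C (∏ i ∈ s, f i) = ∏ i ∈ s, C (f i) :=
        fun s f => map_prod C f s
      have hsum1 : (∑ i, C (C a⁻¹) * (C (r i) * X ^ (l : ℕ) +
          if i = i0 then C (C c) * C (PP (g i) (p * m)) * X ^ (l : ℕ) else 0) *
          ∏ j ∈ Finset.univ.erase i, C (PP (g j) (p * m)) : A[X][X]) =
          C (C a⁻¹) * ((∑ i, C (r i) * ∏ j ∈ Finset.univ.erase i, C (PP (g j) (p * m))) + C (C c) * P)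
            * X ^ (l : ℕ) := by
        have e1 : ∀ i : Fin d, (C (C a⁻¹) * (C (r i) * X ^ (l : ℕ) +
          if i = i0 then C (C c) * C (PP (g i) (p * m)) * X ^ (l : ℕ) else 0) *
          ∏ j ∈ Finset.univ.erase i, C (PP (g j) (p * m)) : A[X][X]) =
            C (C a⁻¹) * (C (r i) * ∏ j ∈ Finset.univ.erase i, C (PP (g j) (p * m))) * X ^ (l : ℕ) +
            if i = i0 then C (C a⁻¹) * (C (C c) * P) * X ^ (l : ℕ) else 0 := by
          intro i
          by_cases hi : i = i0
          · rw [if_pos hi, if_pos hi, hP, ← Finset.mul_prod_erase Finset.univ _ (Finset.mem_univ i)]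
            ring
          · rw [if_neg hi, if_neg hi]
            ring
        rw [Finset.sum_congr rfl fun i _ => e1 i, Finset.sum_add_distrib, Finset.sum_ite_eq' Finset.univ i0,
          if_pos (Finset.mem_univ _), ← Finset.sum_mul, ← Finset.mul_sum]
        ring
      have hmain : (C (al l) : A[X][X]) = C (C c) * P +
          (∑ i, C (r i) * ∏ j ∈ Finset.univ.erase i, C (PP (g j) (p * m))) +
          C (∏ i, PP (g i) ((p - 1) * m)) * C q := by
        have e2 : (C (∑ i, r i * ∏ j ∈ Finset.univ.erase i, PP (g j) (p * m)) : A[X][X]) =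
            ∑ i, C (r i) * ∏ j ∈ Finset.univ.erase i, C (PP (g j) (p * m)) := by
          rw [map_sum]
          refine Finset.sum_congr rfl fun i _ => ?_
          rw [C_mul, hCprod]
        rw [haeq, C_add, C_add, C_mul, C_mul, hCprod, e2]
      have ha1 : (C (C a) : A[X][X]) * C (C a⁻¹) = 1 := by
        rw [← C_mul, ← C_mul, mul_inv_cancel₀ ha, C_1, C_1]
      have hW : (W0 g m p ^ (p - 1) : A[X][X]) =
          C (∏ i, (X - C (g i + 1)) ^ ((p - 1) * m)) * X ^ (d / p * (p - 1)) := by
        have e2 : (∏ i, (X - C (g i + 1)) ^ m : A[X]) ^ (p - 1) =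
            ∏ i, (X - C (g i + 1)) ^ ((p - 1) * m) := by
          rw [← Finset.prod_pow]
          refine Finset.prod_congr rfl fun i _ => ?_
          rw [← pow_mul, mul_comm]
        rw [W0, mul_pow, ← C_pow, e2, ← pow_mul]
      have hPE : (∏ i, PP (g i) ((p - 1) * m) : A[X]) =
          (∏ i, (X - C (g i))) * ∏ i, (X - C (g i + 1)) ^ ((p - 1) * m) := by
        rw [← Finset.prod_mul_distrib]
        rfl
      have hTp : (C (C (T * p)) : A[X][X]) * C (C (-(p * a)⁻¹)) = - (C (C T) * C (C a⁻¹)) := by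
        rw [← C_mul, ← C_mul, ← C_mul, ← C_mul, ← C_neg, ← C_neg]
        congr 2
        field_simp
      have hdd : (l : ℕ) + d / p + d / p * (p - 1) = l + d := by
        have h1 : e + e * (p - 1) = d := by
          rw [he]
          obtain ⟨p', hp'⟩ : ∃ p', p = p' + 1 := ⟨p - 1, by omega⟩
          rw [hp', Nat.add_sub_cancel]
          ring
        rw [hdp]
        omega
      have hneg : (C (C (-a⁻¹)) : A[X][X]) = - C (C a⁻¹) := by rw [C_neg, C_neg]
      rw [hsum1, hW, f0, hmain, hPE]
      have e3 : C (C (T * p)) * (C (C (-(p * a)⁻¹)) * (C q * X ^ ((l : ℕ) + d / p))) *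
          (C (∏ i, (X - C (g i + 1)) ^ ((p - 1) * m)) * X ^ (d / p * (p - 1))) =
          - (C (C T) * C (C a⁻¹)) * C q * C (∏ i, (X - C (g i + 1)) ^ ((p - 1) * m)) *
            X ^ ((l : ℕ) + d) := by
        rw [← hdd, pow_add _ ((l : ℕ) + d / p), ← hTp]
        ring
      rw [e3, hneg, C_mul (a := q), C_mul (a := C a), C_mul (a := ∏ i, (X - C (g i))), pow_add]
      linear_combination (X ^ (l : ℕ) * (-((∑ i, C (r i) * ∏ j ∈ Finset.univ.erase i,
        C (PP (g j) (p * m))) + C (C c) * P) - C (∏ i, (X - C (g i))) *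
        C (∏ i, (X - C (g i + 1)) ^ ((p - 1) * m)) * C q)) * ha1

end PL
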