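import Pool.Agent.Helper10.PL.OE6
import Pool.Agent.Helper13.PL.Lev

/-!
# Project PLANE: curves with a section over an extension of degree prime to `p`
-/

universe u

namespace Pool.Agent.PL

open Pool.Agent.PC Pool.Agent.Helper91.Sect

/-- Over some finite extension of degree prime to `p` there is a curve over the plane curve `f` with a Galois
section. -/
def HasSecE {k : Type u} [Field k] (p : ℕ) {d : ℕ} (f : Mon d → k) : Prop :=
  ∃ (k' : Type u) (_ : Field k') (_ : Algebra k k'), FiniteDimensional k k' ∧
    ¬ p ∣ Module.finrank k k' ∧ HasSec (fun q => algebraMap k k' (f q))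

/-- **The constants attached to a Galois section over an extension of degree prime to `p`.** -/
theorem hasLev_of_hasSecE {k₁ k : Type u} [Field k₁] [CharZero k₁] [Field k] [Algebra k₁ k]
    (hF₁ : ∃ S : Finset k₁, Subfield.closure (S : Set k₁) = ⊤)
    (t : k) (hfin : FiniteDimensional (IntermediateField.adjoin k₁ {t}) k)
    {p d r : ℕ} (hp : p.Prime) (hd : d = p * r) {f : Mon d → k} (hs : HasSecE p f)
    (C : Type u) [Field C] [Algebra k C] [IsAlgClosure k C] : HasLev k₁ C p r f := by
  intro n M hnM G W nH H T hT hprod hcop M₂ M₃ D D' c hc0 hnrm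
  obtain ⟨k', _, _, hk', hdeg, K, _, _, x, y, hx, hxy, ⟨s⟩⟩ := hs
  obtain ⟨z, h1, h2, h3, h4, h5, h6⟩ := exists_lev_plane_ext hF₁ t hfin hp hd hnM hdeg hx hxy s hT
    hprod hcop hc0 hnrm
  exact ⟨z, ⟨h1, h2, h3, h4, h5⟩, @h6⟩

/-- the property does not change if the equation is multiplied by a constant -/
theorem HasSec.smul {k : Type u} [Field k] {d : ℕ} {f : Mon d → k} (h : HasSec f) (c : k) :
    HasSec (fun q => c * f q) := by
  obtain ⟨K, i1, i2, x, y, hx, hxy, s⟩ := h
  refine ⟨K, i1, i2, x, y, hx, ?_, s⟩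
  have h1 : pol (fun q => c * f q) = MvPolynomial.C c * pol f := by
    unfold pol
    rw [Finset.mul_sum]
    exact Finset.sum_congr rfl fun q _ => by rw [MvPolynomial.C_mul, mul_assoc]
  rw [h1, map_mul, hxy, mul_zero]

/-- the property does not change if the equation is multiplied by a constant -/
theorem HasSecE.smul {k : Type u} [Field k] {p d : ℕ} {f : Mon d → k} (h : HasSecE p f) (c : k) :
    HasSecE p (fun q => c * f q) := by
  obtain ⟨k', i1, i2, h1, h2, h3⟩ := h
  refine ⟨k', i1, i2, h1, h2, ?_⟩
  have h4 := h3.smul (algebraMap k k' c)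
  simp only [← map_mul] at h4
  exact h4

end Pool.Agent.PL
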