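import Pool.Agent.Helper13.PL.L1

/-!
# Project PLANE, sections over extensions: the equivariant family of constants

For a section `s` of `K / k` and all pairs `(A, B)` of polynomials in `x, y` with constant coefficients such that
the `p`-th root of `A / B` is unramified, there are constants `z A B` with
`s(σ) (A / B) ^ (1 / p) * z (σ A) (σ B) = σ (z A B) * (σ A / σ B) ^ (1 / p)`.
-/

universe u

namespace Pool.Agent.PL

open MvPolynomial Pool.Agent.PC Pool.Agent.Helper91.Sect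

section

variable {k K : Type u} [Field k] [Field K] [Algebra k K]

/-- the `p`-th root of `A / B` is defined and unramified -/
def GoodP (x y : K) {n : ℕ} (u : (Mon n → kbar k K) → AlgebraicClosure K)
    (P : (Mon n → kbar k K) × (Mon n → kbar k K)) : Prop :=
  evP x y (pol P.1) ≠ 0 ∧ evP x y (pol P.2) ≠ 0 ∧ u P.1 / u P.2 ∈ Kur k K

/-- the equivariant family of constants -/
def IsZE (s : GaloisSection k K) (x y : K) {n : ℕ} (u : (Mon n → kbar k K) → AlgebraicClosure K)
    (z : (Mon n → kbar k K) × (Mon n → kbar k K) → kbar k K) : Prop :=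
  ∀ P, GoodP x y u P → z P ≠ 0 ∧ ∀ (σ : Gk k K)
    (ρ : AlgebraicClosure K ≃ₐ[K] AlgebraicClosure K), (∀ w : Kur k K, ρ w = s.toHom σ w) →
      ρ (u P.1 / u P.2) * (z (σ • P) : AlgebraicClosure K) =
        ((σ (z P) : kbar k K) : AlgebraicClosure K) * (u (σ • P).1 / u (σ • P).2)

variable (s : GaloisSection k K) {x y : K} {n p : ℕ}
  {u : (Mon n → kbar k K) → AlgebraicClosure K}

theorem ext_act {σ : Gk k K} {ρ : AlgebraicClosure K ≃ₐ[K] AlgebraicClosure K}
    (hρ : ∀ w : Kur k K, ρ w = s.toHom σ w) (g : Mon n → kbar k K) :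
    ρ (evP x y (pol g)) = evP x y (pol (σ • g)) := by
  rw [ext_pol s hρ]
  rfl

theorem u_ne (hp : p ≠ 0) (hu : ∀ A, u A ^ p = evP x y (pol A)) {A : Mon n → kbar k K}
    (hA : evP x y (pol A) ≠ 0) : u A ≠ 0 := by
  intro h0
  apply hA
  rw [← hu, h0, zero_pow hp]

theorem ratio_pow_act (hu : ∀ A, u A ^ p = evP x y (pol A))
    {σ : Gk k K} {ρ : AlgebraicClosure K ≃ₐ[K] AlgebraicClosure K}
    (hρ : ∀ w : Kur k K, ρ w = s.toHom σ w) (A B : Mon n → kbar k K) :
    (ρ (u A / u B)) ^ p = (u (σ • A) / u (σ • B)) ^ p := by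
  rw [← map_pow, div_pow, hu, hu, map_div₀, ext_act s hρ, ext_act s hρ, div_pow, hu, hu]

include s in
/-- the image of the root under `s(σ)` is a root of the image, up to a root of unity -/
theorem exists_zeta (hp : p ≠ 0) (hu : ∀ A, u A ^ p = evP x y (pol A)) {σ : Gk k K}
    {ρ : AlgebraicClosure K ≃ₐ[K] AlgebraicClosure K}
    (hρ : ∀ w : Kur k K, ρ w = s.toHom σ w) {A B : Mon n → kbar k K}
    (hA : evP x y (pol A) ≠ 0) (hB : evP x y (pol B) ≠ 0) :
    ∃ ζ : kbar k K, ζ ^ p = 1 ∧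
      ρ (u A / u B) = (ζ : AlgebraicClosure K) * (u (σ • A) / u (σ • B)) := by
  have hA' : evP x y (pol (σ • A)) ≠ 0 := by
    rw [← ext_act s hρ]
    exact (_root_.map_ne_zero ρ).2 hA
  have hB' : evP x y (pol (σ • B)) ≠ 0 := by
    rw [← ext_act s hρ]
    exact (_root_.map_ne_zero ρ).2 hB
  have hr : u (σ • A) / u (σ • B) ≠ 0 := div_ne_zero (u_ne hp hu hA') (u_ne hp hu hB')
  have h1 : (ρ (u A / u B) / (u (σ • A) / u (σ • B))) ^ p = 1 := by
    rw [div_pow, ratio_pow_act s hu hρ]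
    exact div_self (pow_ne_zero p hr)
  obtain ⟨ζ, hζ, hζe⟩ := exists_mu (k := k) hp h1
  exact ⟨ζ, hζ, by rw [hζe, div_mul_cancel₀ _ hr]⟩

theorem zeta_ne (hp : p ≠ 0) {ζ : kbar k K} (h : ζ ^ p = 1) : ζ ≠ 0 := by
  rintro rfl
  rw [zero_pow hp] at h
  exact zero_ne_one h

include s in
theorem goodP_act (hp : p ≠ 0) (hu : ∀ A, u A ^ p = evP x y (pol A)) (σ : Gk k K)
    {P : (Mon n → kbar k K) × (Mon n → kbar k K)} (h : GoodP x y u P) : GoodP x y u (σ • P) := by
  obtain ⟨hA, hB, hK⟩ := h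
  obtain ⟨ρ, hρ⟩ := exists_ext s σ
  refine ⟨?_, ?_, ?_⟩
  · change evP x y (pol (σ • P.1)) ≠ 0
    rw [← ext_act s hρ]
    exact (_root_.map_ne_zero ρ).2 hA
  · change evP x y (pol (σ • P.2)) ≠ 0
    rw [← ext_act s hρ]
    exact (_root_.map_ne_zero ρ).2 hB
  · obtain ⟨ζ, hζ, he⟩ := exists_zeta s hp hu hρ hA hB
    change u (σ • P.1) / u (σ • P.2) ∈ Kur k K
    have h1 : u (σ • P.1) / u (σ • P.2) = (ζ : AlgebraicClosure K)⁻¹ * ρ (u P.1 / u P.2) := by
      rw [he, ← mul_assoc, inv_mul_cancel₀, one_mul]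
      exact fun h0 => zeta_ne hp hζ (Subtype.ext h0)
    rw [h1]
    refine (Kur k K).mul_mem ((Kur k K).inv_mem (kbar_mem_Kur ζ)) ?_
    have h2 := hρ ⟨_, hK⟩
    change ρ (u P.1 / u P.2) = _ at h2
    rw [h2]
    exact (s.toHom σ ⟨_, hK⟩).2

/-- **The equivariant family of constants.** -/
theorem exists_zE [CharZero k] (hp : p ≠ 0) (hu : ∀ A, u A ^ p = evP x y (pol A)) :
    ∃ z : (Mon n → kbar k K) × (Mon n → kbar k K) → kbar k K, IsZE s x y u z := by
  classical
  -- invariant multiples of the roots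
  have key : ∀ P : (Mon n → kbar k K) × (Mon n → kbar k K), ∃ (c : kbar k K) (F : Kur k K),
      GoodP x y u P → c ≠ 0 ∧
        (F : AlgebraicClosure K) = (c : AlgebraicClosure K) * (u P.1 / u P.2) ∧
        ∀ σ : Gk k K, σ • P = P → s.toHom σ F = F := by
    intro P
    by_cases hP : GoodP x y u P
    swap
    · exact ⟨0, 0, fun h => absurd h hP⟩
    obtain ⟨hA, hB, hK⟩ := id hP
    set A : Set (kbar k K) := Set.range P.1 ∪ Set.range P.2 with hAdef
    have hAf : A.Finite := (Set.finite_range _).union (Set.finite_range _)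
    have hfd : FiniteDimensional k (IntermediateField.adjoin k A) := by
      have : Finite A := hAf
      exact IntermediateField.finiteDimensional_adjoin fun z _ => Algebra.IsIntegral.isIntegral z
    set g : Kur k K := ⟨u P.1 / u P.2, hK⟩ with hg
    have hg0 : g ≠ 0 := by
      intro h0
      exact div_ne_zero (u_ne hp hu hA) (u_ne hp hu hB) (congrArg Subtype.val h0)
    obtain ⟨e, he0, he⟩ := exists_fixed_mul s (IntermediateField.adjoin k A) g hg0 (by
      intro σ hσ
      rw [IntermediateField.mem_fixingSubgroup_iff] at hσ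
      have h1 : σ • P.1 = P.1 := funext fun q =>
        hσ _ (IntermediateField.subset_adjoin k A (Or.inl ⟨q, rfl⟩))
      have h2 : σ • P.2 = P.2 := funext fun q =>
        hσ _ (IntermediateField.subset_adjoin k A (Or.inr ⟨q, rfl⟩))
      obtain ⟨ρ, hρ⟩ := exists_ext s σ
      obtain ⟨ζ, -, hζ⟩ := exists_zeta s hp hu hρ hA hB
      rw [h1, h2] at hζ
      refine ⟨ζ, ?_⟩
      apply Subtype.ext
      rw [← hρ g]
      exact hζ)
    refine ⟨e, toKur k K e * g, fun _ => ⟨he0, rfl, fun σ hσ => he σ ?_⟩⟩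
    apply fix_adjoin
    rintro a (⟨q, rfl⟩ | ⟨q, rfl⟩)
    · exact congrFun (congrArg Prod.fst hσ) q
    · exact congrFun (congrArg Prod.snd hσ) q
  choose c F hF using key
  -- representatives
  let rep : (Mon n → kbar k K) × (Mon n → kbar k K) → (Mon n → kbar k K) × (Mon n → kbar k K) :=
    fun P => (Quotient.mk (MulAction.orbitRel (Gk k K) _) P).out
  have hrep : ∀ P, ∃ σ : Gk k K, σ • rep P = P := by
    intro P
    have h1 : MulAction.orbitRel (Gk k K) _ (rep P) P :=
      Quotient.exact (Quotient.out_eq (Quotient.mk (MulAction.orbitRel (Gk k K) _) P))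
    obtain ⟨σ, hσ⟩ := h1
    change σ • P = rep P at hσ
    exact ⟨σ⁻¹, by rw [← hσ, inv_smul_smul]⟩
  have hrepσ : ∀ (σ : Gk k K) P, rep (σ • P) = rep P := by
    intro σ P
    have h1 : Quotient.mk (MulAction.orbitRel (Gk k K) _) (σ • P) =
        Quotient.mk (MulAction.orbitRel (Gk k K) _) P := by
      apply Quotient.sound
      exact ⟨σ, rfl⟩
    change (Quotient.mk _ (σ • P)).out = _
    rw [h1]
  choose hh hhh using hrep
  let E : (Mon n → kbar k K) × (Mon n → kbar k K) → Kur k K := fun P => s.toHom (hh P) (F (rep P))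
  have hgrep : ∀ P, GoodP x y u P → GoodP x y u (rep P) := by
    intro P hP
    have h1 := goodP_act s hp hu (hh P)⁻¹ hP
    have h2 : (hh P)⁻¹ • P = rep P := by
      rw [inv_smul_eq_iff]
      exact (hhh P).symm
    rwa [h2] at h1
  have hE : ∀ P, GoodP x y u P → ∀ σ : Gk k K, s.toHom σ (E P) = E (σ • P) := by
    intro P hP σ
    obtain ⟨-, -, h3⟩ := hF (rep P) (hgrep P hP)
    change s.toHom σ (s.toHom (hh P) (F (rep P))) = s.toHom (hh (σ • P)) (F (rep (σ • P)))
    rw [hrepσ]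
    set τ : Gk k K := (hh (σ • P))⁻¹ * (σ * hh P) with hτ
    have h4 : τ • rep P = rep P := by
      rw [hτ, mul_smul, mul_smul, hhh, inv_smul_eq_iff]
      have h5 := hhh (σ • P)
      rw [hrepσ] at h5
      exact h5.symm
    have h5 : s.toHom (hh (σ • P)) (s.toHom τ (F (rep P))) = s.toHom σ (s.toHom (hh P) (F (rep P))) := by
      rw [hτ, map_mul, map_mul, map_inv]
      change ((s.toHom (hh (σ • P))) * (s.toHom (hh (σ • P)))⁻¹) _ = _
      rw [mul_inv_cancel]
      rfl
    rw [← h5, h3 τ h4]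
  have hz : ∀ P, ∃ z : kbar k K, GoodP x y u P → z ≠ 0 ∧
      (z : AlgebraicClosure K) * (E P : AlgebraicClosure K) = u P.1 / u P.2 := by
    intro P
    by_cases hP : GoodP x y u P
    swap
    · exact ⟨0, fun h => absurd h hP⟩
    obtain ⟨h1, h2, -⟩ := hF (rep P) (hgrep P hP)
    obtain ⟨ρ, hρ⟩ := exists_ext s (hh P)
    obtain ⟨ζ, hζ, he⟩ := exists_zeta s hp hu hρ (hgrep P hP).1 (hgrep P hP).2.1
    have h3 : (hh P) • (rep P).1 = P.1 := congrArg Prod.fst (hhh P)
    have h4 : (hh P) • (rep P).2 = P.2 := congrArg Prod.snd (hhh P)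
    rw [h3, h4] at he
    have h5 : (E P : AlgebraicClosure K) = ((hh P (c (rep P)) * ζ : kbar k K) : AlgebraicClosure K) *
        (u P.1 / u P.2) := by
      change ((s.toHom (hh P) (F (rep P)) : Kur k K) : AlgebraicClosure K) = _
      rw [← hρ, h2, map_mul, ext_const s hρ, he, ← mul_assoc]
      rfl
    have h6 : hh P (c (rep P)) * ζ ≠ 0 := mul_ne_zero ((_root_.map_ne_zero _).2 h1) (zeta_ne hp hζ)
    refine ⟨(hh P (c (rep P)) * ζ)⁻¹, fun _ => ⟨inv_ne_zero h6, ?_⟩⟩
    rw [h5, ← mul_assoc]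
    change ((((hh P (c (rep P)) * ζ)⁻¹ * (hh P (c (rep P)) * ζ) : kbar k K)) : AlgebraicClosure K) *
      _ = _
    rw [inv_mul_cancel₀ h6]
    exact one_mul _
  choose z hz using hz
  refine ⟨z, fun P hP => ⟨(hz P hP).1, fun σ ρ hρ => ?_⟩⟩
  have h1 := (hz P hP).2
  have h2 := (hz (σ • P) (goodP_act s hp hu σ hP)).2
  rw [← h1, ← h2, map_mul, ext_const s hρ, hρ, hE P hP]
  ring

end

end Pool.Agent.PL
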