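import Pool.Agent.Helper10.PL.OE1

/-!
# Project PLANE, sections over extensions: the roots of unity of the equivariant family
-/

universe u

namespace Pool.Agent.PL

open MvPolynomial Pool.Agent.PC Pool.Agent.Helper91.Sect

section

variable {k K : Type u} [Field k] [Field K] [Algebra k K]

/-- the root of unity `σ (z P) / z (σ P)` -/
noncomputable def zt {n : ℕ} (z : (Mon n → kbar k K) × (Mon n → kbar k K) → kbar k K) (σ : Gk k K)
    (P : (Mon n → kbar k K) × (Mon n → kbar k K)) : kbar k K := σ (z P) / z (σ • P)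

variable {s : GaloisSection k K} {x y : K} {n p : ℕ}
  {u : (Mon n → kbar k K) → AlgebraicClosure K}
  {z : (Mon n → kbar k K) × (Mon n → kbar k K) → kbar k K}

theorem zt_coe (hp : p ≠ 0) (hu : ∀ A, u A ^ p = evP x y (pol A)) (hz : IsZE s x y u z)
    {P : (Mon n → kbar k K) × (Mon n → kbar k K)} (hP : GoodP x y u P) {σ : Gk k K}
    {ρ : AlgebraicClosure K ≃ₐ[K] AlgebraicClosure K} (hρ : ∀ w : Kur k K, ρ w = s.toHom σ w) :
    (zt z σ P : AlgebraicClosure K) = ρ (u P.1 / u P.2) / (u (σ • P).1 / u (σ • P).2) := by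
  have hσP := goodP_act s hp hu σ hP
  have h1 := (hz P hP).2 σ ρ hρ
  have h2 : (z (σ • P) : AlgebraicClosure K) ≠ 0 := fun h => (hz _ hσP).1 (Subtype.ext h)
  have h3 : u (σ • P).1 / u (σ • P).2 ≠ 0 := div_ne_zero (u_ne hp hu hσP.1) (u_ne hp hu hσP.2.1)
  change ((σ (z P) : kbar k K) : AlgebraicClosure K) / (z (σ • P) : AlgebraicClosure K) = _
  rw [div_eq_div_iff h2 h3, h1]

theorem zt_pow (hp : p ≠ 0) (hu : ∀ A, u A ^ p = evP x y (pol A)) (hz : IsZE s x y u z)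
    {P : (Mon n → kbar k K) × (Mon n → kbar k K)} (hP : GoodP x y u P) (σ : Gk k K) :
    zt z σ P ^ p = 1 := by
  obtain ⟨ρ, hρ⟩ := exists_ext s σ
  have hσP := goodP_act s hp hu σ hP
  have h3 : u (σ • P.1) / u (σ • P.2) ≠ 0 := div_ne_zero (u_ne hp hu hσP.1) (u_ne hp hu hσP.2.1)
  apply Subtype.ext
  change (zt z σ P : AlgebraicClosure K) ^ p = 1
  rw [zt_coe hp hu hz hP hρ, div_pow, ratio_pow_act s hu hρ]
  exact div_self (pow_ne_zero p h3)

theorem zt_mul (hp : p ≠ 0) (hu : ∀ A, u A ^ p = evP x y (pol A)) (hz : IsZE s x y u z)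
    {A B D : Mon n → kbar k K} (hAB : GoodP x y u (A, B)) (hBD : GoodP x y u (B, D))
    (hAD : GoodP x y u (A, D)) (σ : Gk k K) :
    zt z σ (A, B) * zt z σ (B, D) = zt z σ (A, D) := by
  obtain ⟨ρ, hρ⟩ := exists_ext s σ
  apply Subtype.ext
  change (zt z σ (A, B) : AlgebraicClosure K) * (zt z σ (B, D) : AlgebraicClosure K) =
    (zt z σ (A, D) : AlgebraicClosure K)
  rw [zt_coe hp hu hz hAB hρ, zt_coe hp hu hz hBD hρ, zt_coe hp hu hz hAD hρ]
  have h1 := goodP_act s hp hu σ hAB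
  have h2 := goodP_act s hp hu σ hBD
  have a1 : u A ≠ 0 := u_ne hp hu hAB.1
  have a2 : u B ≠ 0 := u_ne hp hu hAB.2.1
  have a3 : u D ≠ 0 := u_ne hp hu hBD.2.1
  have b1 : u (σ • A) ≠ 0 := u_ne hp hu h1.1
  have b2 : u (σ • B) ≠ 0 := u_ne hp hu h1.2.1
  have b3 : u (σ • D) ≠ 0 := u_ne hp hu h2.2.1
  have c1 : ρ (u A) ≠ 0 := (_root_.map_ne_zero ρ).2 a1
  have c2 : ρ (u B) ≠ 0 := (_root_.map_ne_zero ρ).2 a2
  have c3 : ρ (u D) ≠ 0 := (_root_.map_ne_zero ρ).2 a3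
  change ρ (u A / u B) / (u (σ • A) / u (σ • B)) * (ρ (u B / u D) / (u (σ • B) / u (σ • D))) =
    ρ (u A / u D) / (u (σ • A) / u (σ • D))
  rw [map_div₀, map_div₀, map_div₀]
  field_simp

theorem prod_ratio {L : Type u} [Field L] {d : ℕ} (v : Fin d → L) {i : Fin d} (hv : v i ≠ 0) :
    ∏ j ∈ Finset.univ.erase i, v j / v i = (∏ j, v j) / v i ^ d := by
  rw [Finset.prod_div_distrib, Finset.prod_const, Finset.card_erase_of_mem (Finset.mem_univ i),
    Finset.card_univ, Fintype.card_fin, ← Finset.mul_prod_erase Finset.univ v (Finset.mem_univ i)]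
  have hd0 : 0 < d := lt_of_le_of_lt (Nat.zero_le _) i.2
  obtain ⟨e, rfl⟩ : ∃ e, d = e + 1 := ⟨d - 1, by omega⟩
  rw [Nat.add_sub_cancel, pow_succ]
  field_simp

/-- the product of the roots of unity of a tuple -/
theorem zt_prod {d r : ℕ} (hp : p ≠ 0) (hd : d = p * r) (hu : ∀ A, u A ^ p = evP x y (pol A))
    (hz : IsZE s x y u z) {G : Fin d → Mon n → kbar k K}
    (hG0 : ∀ i, evP x y (pol (G i)) ≠ 0)
    (hG : ∀ i j, i ≠ j → GoodP x y u (G i, G j)) {σ : Gk k K}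
    {ρ : AlgebraicClosure K ≃ₐ[K] AlgebraicClosure K} (hρ : ∀ w : Kur k K, ρ w = s.toHom σ w)
    (i : Fin d) :
    ((∏ j ∈ Finset.univ.erase i, zt z σ (G j, G i) : kbar k K) : AlgebraicClosure K) =
      ρ (∏ j, u (G j)) / ∏ j, u (σ • G j) := by
  classical
  have a0 : ∀ j, u (G j) ≠ 0 := fun j => u_ne hp hu (hG0 j)
  have b0 : ∀ j, u (σ • G j) ≠ 0 := fun j => by
    apply u_ne hp hu
    rw [← ext_act s hρ]
    exact (_root_.map_ne_zero ρ).2 (hG0 j)
  have h1 : ((∏ j ∈ Finset.univ.erase i, zt z σ (G j, G i) : kbar k K) : AlgebraicClosure K) =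
      ∏ j ∈ Finset.univ.erase i, (ρ (u (G j)) / ρ (u (G i))) / (u (σ • G j) / u (σ • G i)) := by
    refine (map_prod (algebraMap (kbar k K) (AlgebraicClosure K)) _ _).trans ?_
    refine Finset.prod_congr rfl fun j hj => ?_
    have h2 := zt_coe hp hu hz (hG j i (Finset.mem_erase.1 hj).1) hρ
    rw [map_div₀] at h2
    exact h2
  rw [h1, Finset.prod_div_distrib, prod_ratio (fun j => ρ (u (G j))) ((_root_.map_ne_zero ρ).2 (a0 i)),
    prod_ratio (fun j => u (σ • G j)) (b0 i), map_prod]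
  have h3 : ρ (u (G i)) ^ d = u (σ • G i) ^ d := by
    rw [hd, pow_mul, pow_mul, ← map_pow, hu, hu, ext_act s hρ]
  rw [h3, div_div_div_cancel_right₀ (pow_ne_zero d (b0 i))]

/-- the root of unity of a tuple with a product relation -/
theorem exists_xi {d nW nH : ℕ} (hp : p ≠ 0) (hu : ∀ A, u A ^ p = evP x y (pol A))
    {G : Fin d → Mon n → kbar k K} (hG0 : ∀ i, evP x y (pol (G i)) ≠ 0) {f : Mon d → kbar k K}
    (hf : evP x y (pol f) = 0) {W : Mon nW → kbar k K} {H : Mon nH → kbar k K} {T α : kbar k K}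
    (hprod : ∏ i, pol (G i) = C T * pol W ^ p + pol H * pol f) (hα : α ^ p = T) :
    ∃ ξ : kbar k K, ξ ^ p = 1 ∧
      ∏ j, u (G j) = ((ξ * α : kbar k K) : AlgebraicClosure K) * evP x y (pol W) := by
  classical
  have hsum := congrArg (evP x y) hprod
  rw [map_prod, map_add, map_mul, map_mul, hf, mul_zero, add_zero, map_pow] at hsum
  have hcT : evP x y (C T) = ((T : kbar k K) : AlgebraicClosure K) := by
    unfold evP
    rw [aeval_C]
    rfl
  set w := evP x y (pol W) with hw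
  have hP0 : ∏ j, u (G j) ≠ 0 := Finset.prod_ne_zero_iff.2 fun j _ => u_ne hp hu (hG0 j)
  have hPp : (∏ j, u (G j)) ^ p = ((α : kbar k K) * w : AlgebraicClosure K) ^ p := by
    rw [← Finset.prod_pow, Finset.prod_congr rfl fun j _ => hu (G j), hsum, hcT, mul_pow, ← hα]
    rfl
  have hαw0 : (α : AlgebraicClosure K) * w ≠ 0 := by
    intro h0
    rw [h0, zero_pow hp] at hPp
    exact pow_ne_zero p hP0 hPp
  have h5 : ((∏ j, u (G j)) / ((α : AlgebraicClosure K) * w)) ^ p = 1 := by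
    rw [div_pow, hPp]
    exact div_self (pow_ne_zero _ hαw0)
  obtain ⟨ζ, hζ, hζe⟩ := exists_mu (k := k) hp h5
  refine ⟨ζ, hζ, ?_⟩
  change _ = (ζ : AlgebraicClosure K) * (α : AlgebraicClosure K) * w
  rw [hζe, mul_assoc, div_mul_cancel₀ _ hαw0]

/-- the product relation -/
theorem zt_prod_eq {d r nW : ℕ} (hp : p ≠ 0) (hd : d = p * r)
    (hu : ∀ A, u A ^ p = evP x y (pol A)) (hz : IsZE s x y u z) {G : Fin d → Mon n → kbar k K}
    (hG0 : ∀ i, evP x y (pol (G i)) ≠ 0)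
    (hG : ∀ i j, i ≠ j → GoodP x y u (G i, G j)) {W : Mon nW → kbar k K} {β β' : kbar k K}
    (h1 : ∏ j, u (G j) = (β : AlgebraicClosure K) * evP x y (pol W)) {σ : Gk k K}
    (h2 : ∏ j, u (σ • G j) = (β' : AlgebraicClosure K) * evP x y (pol (σ • W))) (i : Fin d) :
    (∏ j ∈ Finset.univ.erase i, zt z σ (G j, G i)) * β' = σ β := by
  obtain ⟨ρ, hρ⟩ := exists_ext s σ
  have h3 := zt_prod hp hd hu hz hG0 hG hρ i
  have b0 : ∏ j, u (σ • G j) ≠ 0 := Finset.prod_ne_zero_iff.2 fun j _ => by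
    apply u_ne hp hu
    rw [← ext_act s hρ]
    exact (_root_.map_ne_zero ρ).2 (hG0 j)
  rw [eq_div_iff b0, h1, h2, map_mul, ext_const s hρ, ext_act s hρ, ← mul_assoc] at h3
  have hw0 : evP x y (pol (σ • W)) ≠ 0 := by
    intro h0
    rw [h0, mul_zero] at h2
    exact b0 h2
  exact Subtype.ext (mul_right_cancel₀ hw0 h3)

end

end Pool.Agent.PL
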