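import Pool.Agent.Helper10.PL.OE3
import Pool.Agent.Helper13.PL.L4

/-!
# Project PLANE, sections over extensions: inertia
-/

universe u

set_option linter.unusedSectionVars false

namespace Pool.Agent.PL

open MvPolynomial Pool.Agent.PC Pool.Agent.Helper91.Sect OE Pool.Agent.LT Pool.Agent.SC Pool.Agent.GC

section

variable {k k' K : Type u} [Field k] [Field k'] [Field K] [Algebra k k'] [Algebra k' K]
  [Algebra k (kbar k' K)] [IsScalarTower k k' (kbar k' K)] [FiniteDimensional k k']
  [Algebra.IsAlgebraic k (kbar k' K)]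
  {n p : ℕ} {z : (Mon n → kbar k' K) × (Mon n → kbar k' K) → kbar k' K}
  {s : GaloisSection k' K} {x y : K} {u : (Mon n → kbar k' K) → AlgebraicClosure K}

/-- the powers of an automorphism -/
theorem pow_act (hp : p ≠ 0) (hu : ∀ A, u A ^ p = evP x y (pol A)) (hz : IsZE s x y u z)
    {A B : Mon n → kbar k' K} (h : GoodW k x y u A B) {σ : kbar k' K ≃ₐ[k] kbar k' K}
    (hA : ∀ q, σ (A q) = A q) (hB : ∀ q, σ (B q) = B q)
    (hμ : ∀ ξ : kbar k' K, ξ ^ p = 1 → σ ξ = ξ) (ω : k' →ₐ[k] kbar k' K) (m : ℕ) :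
    (σ ^ m) (zf z A B ω) = (∏ l ∈ Finset.range m, zr z σ A B ((permOf k' σ ^ l) ω)) *
      zf z A B ((permOf k' σ ^ m) ω) := by
  have hAf : (fun q => σ (A q)) = A := funext hA
  have hBf : (fun q => σ (B q)) = B := funext hB
  induction m with
  | zero => simp
  | succ m ih =>
    have h1 : (σ ^ (m + 1)) (zf z A B ω) = σ ((σ ^ m) (zf z A B ω)) := by
      rw [pow_succ']
      rfl
    rw [h1, ih, map_mul, map_prod, Finset.prod_range_succ]
    have h2 : ∀ l ∈ Finset.range m, σ (zr z σ A B ((permOf k' σ ^ l) ω)) =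
        zr z σ A B ((permOf k' σ ^ l) ω) := fun l _ => hμ _ (zr_pow hp hu hz h σ _)
    rw [Finset.prod_congr rfl h2]
    have h3 := zf_act (z := z) (σ := σ) (A := A) (B := B) (ω := (permOf k' σ ^ m) ω)
      (hz _ (goodW_act (s := s) hp hu h _)).1
    rw [hAf, hBf] at h3
    rw [h3, mul_assoc]
    congr 2
    rw [pow_succ']
    rfl

/-- **Inertia fixes the product.** -/
theorem zz_inert (hp : p ≠ 0) (hu : ∀ A, u A ^ p = evP x y (pol A)) (hz : IsZE s x y u z)
    {A B : Mon n → kbar k' K} (h : GoodW k x y u A B) {V : ValuationSubring (kbar k' K)}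
    (hI : ∀ (ω : k' →ₐ[k] kbar k' K) (τ : Gk k' K), (∀ q, τ (mv ω A q) = mv ω A q) →
      (∀ q, τ (mv ω B q) = mv ω B q) →
      InInert (V.comap ((lft ω : kbar k' K ≃+* kbar k' K) : kbar k' K →+* kbar k' K)) τ →
      τ (z (mv ω A, mv ω B)) = z (mv ω A, mv ω B))
    {σ : kbar k' K ≃ₐ[k] kbar k' K} (hA : ∀ q, σ (A q) = A q) (hB : ∀ q, σ (B q) = B q)
    (hμ : ∀ ξ : kbar k' K, ξ ^ p = 1 → σ ξ = ξ)
    (hσ1 : ∀ w, σ w ∈ V ↔ w ∈ V) (hσ2 : ∀ w ∈ V, V.valuation (σ w - w) < 1) :
    σ (zz k z A B) = zz k z A B := by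
  classical
  have hAf : (fun q => σ (A q)) = A := funext hA
  have hBf : (fun q => σ (B q)) = B := funext hB
  have h1 := zz_act' hp hu hz h σ
  rw [hAf, hBf] at h1
  have h2 : zu z σ A B = 1 := by
    refine prod_eq_one_of_orbit (permOf k' σ) (zr z σ A B) (fun ω => ?_) fun ω m hm hω => ?_
    · intro h0
      have h3 := zr_pow hp hu hz h σ ω
      rw [h0, zero_pow hp] at h3
      exact zero_ne_one h3
    have h3 := pow_act hp hu hz h hA hB hμ ω m
    rw [hω] at h3
    -- the power
    have hpow1 : ∀ w, (σ ^ m) w ∈ V ↔ w ∈ V := by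
      intro w
      clear h3 hω hm
      induction m with
      | zero => exact Iff.rfl
      | succ m ih =>
        have h4 : (σ ^ (m + 1)) w = σ ((σ ^ m) w) := by rw [pow_succ']; rfl
        rw [h4, hσ1, ih]
    have hpow2 : ∀ w ∈ V, V.valuation ((σ ^ m) w - w) < 1 := by
      clear h3 hω hm hpow1
      intro w hw
      have hpow1 : ∀ m, (σ ^ m) w ∈ V := by
        intro m
        induction m with
        | zero => exact hw
        | succ m ih =>
          have h4 : (σ ^ (m + 1)) w = σ ((σ ^ m) w) := by rw [pow_succ']; rfl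
          rw [h4, hσ1]
          exact ih
      induction m with
      | zero =>
        have h4 : (σ ^ 0) w - w = 0 := by rw [pow_zero]; exact sub_self _
        rw [h4, map_zero]
        exact zero_lt_one
      | succ m ih =>
        have h4 : (σ ^ (m + 1)) w - w = (σ ((σ ^ m) w) - (σ ^ m) w) + ((σ ^ m) w - w) := by
          have h5 : (σ ^ (m + 1)) w = σ ((σ ^ m) w) := by rw [pow_succ']; rfl
          rw [h5]
          ring
        rw [h4]
        exact V.valuation.map_add_lt (hσ2 _ (hpow1 m)) ih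
    have hpA : ∀ q, (σ ^ m) (A q) = A q := by
      intro q
      clear h3 hω hm hpow1 hpow2
      induction m with
      | zero => rfl
      | succ m ih =>
        have h4 : (σ ^ (m + 1)) (A q) = σ ((σ ^ m) (A q)) := by rw [pow_succ']; rfl
        rw [h4, ih, hA]
    have hpB : ∀ q, (σ ^ m) (B q) = B q := by
      intro q
      clear h3 hω hm hpow1 hpow2 hpA
      induction m with
      | zero => rfl
      | succ m ih =>
        have h4 : (σ ^ (m + 1)) (B q) = σ ((σ ^ m) (B q)) := by rw [pow_succ']; rfl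
        rw [h4, ih, hB]
    have hperm : permOf k' (σ ^ m) ω = ω := by
      rw [map_pow]
      exact hω
    have hEm : ∀ w, lft ω (hE (σ ^ m) ω w) = (σ ^ m) (lft ω w) := by
      intro w
      have h4 := hE_apply (σ ^ m) ω w
      rwa [hperm] at h4
    have hEm' : ∀ w, hE (σ ^ m) ω w = (lft ω).symm ((σ ^ m) (lft ω w)) := by
      intro w
      rw [← hEm, AlgEquiv.symm_apply_apply]
    have hcomap : ∀ w : kbar k' K,
        (V.comap ((lft ω : kbar k' K ≃+* kbar k' K) : kbar k' K →+* kbar k' K)).valuation w < 1 ↔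
          V.valuation (lft ω w) < 1 := fun w =>
      comap_val_lt' ((lft ω : kbar k' K ≃ₐ[k] kbar k' K) : kbar k' K ≃+* kbar k' K) V w
    have h5 := hI ω (hE (σ ^ m) ω) (fun q => by
        rw [hEm']
        unfold mv
        rw [AlgEquiv.apply_symm_apply, hpA]) (fun q => by
        rw [hEm']
        unfold mv
        rw [AlgEquiv.apply_symm_apply, hpB]) ⟨fun w => by
        rw [ValuationSubring.mem_comap, ValuationSubring.mem_comap]
        change lft ω (hE (σ ^ m) ω w) ∈ V ↔ lft ω w ∈ V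
        rw [hEm, hpow1], fun w hw => by
        rw [ValuationSubring.mem_nonunits_iff, hcomap, map_sub, hEm]
        exact hpow2 _ hw⟩
    have h6 : (σ ^ m) (zf z A B ω) = zf z A B ω := by
      unfold zf
      rw [← hEm, h5]
    rw [h6] at h3
    have h7 : zf z A B ω ≠ 0 := by
      unfold zf
      exact (_root_.map_ne_zero _).2 (hz _ (h ω)).1
    exact mul_right_cancel₀ h7 (h3.symm.trans (one_mul _).symm)
  rw [h1, h2, one_mul]

/-- inertia fixes the roots of unity -/
theorem mu_fixed {C : Type u} [Field C] {V : ValuationSubring C} (hp : p ≠ 0)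
    (hpinv : (p : C)⁻¹ ∈ V) (hp0 : (p : C) ≠ 0) {σ : C ≃+* C}
    (hσ2 : ∀ w ∈ V, V.valuation (σ w - w) < 1) {ξ : C} (hξ : ξ ^ p = 1) : σ ξ = ξ := by
  have hξ0 : ξ ≠ 0 := by
    rintro rfl
    rw [zero_pow hp] at hξ
    exact zero_ne_one hξ
  have hξv : V.valuation ξ = 1 := by
    have h2 := congrArg V.valuation hξ
    rw [map_pow, map_one] at h2
    exact (pow_eq_one_iff_of_nonneg zero_le hp).1 h2
  have h2 : (σ ξ / ξ) ^ p = 1 := by
    rw [div_pow, ← map_pow, hξ, map_one, div_one]
  have h3 : V.valuation (σ ξ / ξ - 1) < 1 := by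
    have h4 : σ ξ / ξ - 1 = (σ ξ - ξ) / ξ := by field_simp
    rw [h4, map_div₀, hξv, div_one]
    exact hσ2 ξ ((V.valuation_le_one_iff _).1 hξv.le)
  have h4 := mu_eq_one hpinv hp0 h2 h3
  rwa [div_eq_one_iff_eq hξ0] at h4

end

end Pool.Agent.PL
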