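import Pool.Agent.Helper10.PL.OE4
import Pool.Agent.Helper13.PL.L5

/-!
# Project PLANE, sections over extensions: the constants, over `kbar`
-/

universe u

set_option linter.unusedSectionVars false

namespace Pool.Agent.PL

open MvPolynomial Pool.Agent.PC Pool.Agent.Helper91.Sect OE Pool.Agent.LT Pool.Agent.SC
  Pool.Agent.GC

/-- an element which is fixed by all automorphisms fixing `A` is in `k(A)` -/
theorem mem_adjoin_fixed {k C : Type u} [Field k] [Field C] [Algebra k C] [IsGalois k C] {A : Set C}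
    {w : C} (h : ∀ σ : C ≃ₐ[k] C, (∀ a ∈ A, σ a = a) → σ w = w) :
    w ∈ IntermediateField.adjoin k A := by
  have h1 := InfiniteGalois.fixedField_fixingSubgroup (K := C) (IntermediateField.adjoin k A)
  rw [← h1, IntermediateField.mem_fixedField_iff]
  intro σ hσ
  rw [IntermediateField.mem_fixingSubgroup_iff] at hσ
  exact h σ fun a ha => hσ a (IntermediateField.subset_adjoin k A ha)

section

variable {k₁ k k' K : Type u} [Field k₁] [CharZero k₁] [Field k] [Field k'] [Field K]
  [Algebra k₁ k] [Algebra k k'] [Algebra k₁ k'] [IsScalarTower k₁ k k'] [Algebra k' K]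
  [Algebra k₁ K] [IsScalarTower k₁ k' K]
  [Algebra k (kbar k' K)] [IsScalarTower k k' (kbar k' K)] [FiniteDimensional k k']
  [Algebra.IsAlgebraic k (kbar k' K)]

/-- the moved coprimality certificate -/
theorem mv_cop {n d M : ℕ} {A B : Mon n → kbar k' K} {f : Mon d → k}
    (h : Cop A B (fun q => algebraMap k (kbar k' K) (f q)) M) (ω : k' →ₐ[k] kbar k' K) :
    Cop (mv ω A) (mv ω B) (fun q => algebraMap k (kbar k' K) (f q)) M := by
  intro q
  obtain ⟨A', B', D, h⟩ := h q
  refine ⟨mv ω A', mv ω B', mv ω D, ?_⟩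
  have h1 := congrArg (MvPolynomial.map ((lft ω).symm : kbar k' K →+* kbar k' K)) h
  rw [map_add, map_add, map_mul, map_mul, map_mul, map_mono] at h1
  simp only [map_pol] at h1
  have h2 : ∀ c : k, ((lft ω).symm : kbar k' K →+* kbar k' K) (algebraMap k (kbar k' K) c) =
      algebraMap k (kbar k' K) c := fun c => (lft ω).symm.commutes c
  simp only [h2] at h1
  exact h1

/-- the moved norm certificate -/
theorem mv_nrm {n d M₂ M₃ : ℕ} {A : Mon n → kbar k' K} {D D' : Mon M₂ → kbar k' K} {f : Mon d → k}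
    {c : Fin (M₃ + 1) → kbar k' K}
    (h : pol D * pol A + pol D' * pol (fun q => algebraMap k (kbar k' K) (f q)) = polX c)
    (ω : k' →ₐ[k] kbar k' K) :
    pol (mv ω D) * pol (mv ω A) + pol (mv ω D') *
      pol (fun q => algebraMap k (kbar k' K) (f q)) = polX fun l => (lft ω).symm (c l) := by
  have h1 := congrArg (MvPolynomial.map ((lft ω).symm : kbar k' K →+* kbar k' K)) h
  rw [map_add, map_mul, map_mul] at h1
  simp only [map_pol] at h1
  have h2 : ∀ c : k, ((lft ω).symm : kbar k' K →+* kbar k' K) (algebraMap k (kbar k' K) c) =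
      algebraMap k (kbar k' K) c := fun c => (lft ω).symm.commutes c
  simp only [h2] at h1
  refine h1.trans ?_
  unfold polX
  rw [map_sum]
  refine Finset.sum_congr rfl fun j _ => ?_
  rw [map_mul, map_pow, MvPolynomial.map_C, MvPolynomial.map_X]
  rfl

theorem evP_polX_ne {x y : K} (hx : Transcendental k' x) {M : ℕ} {c : Fin (M + 1) → kbar k' K}
    (hc : c ≠ 0) : evP x y (polX c) ≠ 0 := by
  intro h1
  have h2 : evP x y (Polynomial.aeval (MvPolynomial.X 0 : MvPolynomial (Fin 2) (kbar k' K))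
      (polU c)) = Polynomial.aeval (algebraMap K (AlgebraicClosure K) x) (polU c) := by
    rw [← Polynomial.aeval_algHom_apply]
    unfold evP
    rw [MvPolynomial.aeval_X]
    rfl
  rw [polX_eq, h2] at h1
  have h3 : Transcendental (kbar k' K) (algebraMap K (AlgebraicClosure K) x) := by
    intro h
    have h4 : IsAlgebraic k' (algebraMap K (AlgebraicClosure K) x) := h.restrictScalars k'
    exact hx ((isAlgebraic_algebraMap_iff (algebraMap K (AlgebraicClosure K)).injective).1 h4)
  have h4 := (transcendental_iff.1 h3) (polU c) h1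
  apply hc
  funext l
  have h5 := congrArg (fun q => Polynomial.coeff q l) h4
  simp only [polU_coeff, Polynomial.coeff_zero] at h5
  exact h5

/-- **The constants attached to a Galois section over an extension of degree prime to `p`.** -/
theorem lev_plane_kbar (hF₁ : ∃ S : Finset k₁, Subfield.closure (S : Set k₁) = ⊤)
    (t : k') (hfin : FiniteDimensional (IntermediateField.adjoin k₁ {t}) k')
    {p d r n M : ℕ} (hp : p.Prime) (hdeg : ¬ p ∣ Module.finrank k k') (hd : d = p * r) (hnM : n ≤ M)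
    {x y : K} (hx : Transcendental k' x) (hgen : IntermediateField.adjoin k' {x, y} = ⊤)
    {f : Mon d → k} (hxy : aeval ![x, y] (pol fun q => algebraMap k k' (f q)) = 0)
    (s : GaloisSection k' K)
    {G : Fin d → Mon n → kbar k' K} {W : Mon (r * n) → kbar k' K} {nH : ℕ}
    {H : Mon nH → kbar k' K} {T : k} (hT : T ≠ 0)
    (hprod : ∏ i, pol (G i) = C (algebraMap k (kbar k' K) T) * pol W ^ p +
      pol H * pol (fun q => algebraMap k (kbar k' K) (f q)))
    (hcop : ∀ i j, i ≠ j → Cop (G i) (G j) (fun q => algebraMap k (kbar k' K) (f q)) M)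
    {M₂ M₃ : ℕ} {D D' : Fin d → Mon M₂ → kbar k' K} {c : Fin d → Fin (M₃ + 1) → kbar k' K}
    (hc0 : ∀ i, c i ≠ 0)
    (hnrm : ∀ i, pol (D i) * pol (G i) + pol (D' i) *
      pol (fun q => algebraMap k (kbar k' K) (f q)) = polX (c i)) :
    ∃ z : Fin d → Fin d → kbar k' K,
      (∀ i j, i ≠ j → z i j ≠ 0) ∧
      (∀ i j, i ≠ j → z i j ^ p ∈ IntermediateField.adjoin k
        (mu (kbar k' K) p ∪ (Set.range (G i) ∪ Set.range (G j)))) ∧
      (∀ (σ : kbar k' K ≃ₐ[k] kbar k' K) (i j i' j' : Fin d), i ≠ j → i' ≠ j' →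
        (∀ q, σ (G i q) = G i' q) → (∀ q, σ (G j q) = G j' q) →
        σ (z i j) / z i' j' ∈ IntermediateField.adjoin k
          (mu (kbar k' K) p ∪ (Set.range (G i') ∪ Set.range (G j')))) ∧
      (∀ i j l, i ≠ j → j ≠ l → i ≠ l → z i j * z j l / z i l ∈ IntermediateField.adjoin k
        (mu (kbar k' K) p ∪ (Set.range (G i) ∪ Set.range (G j) ∪ Set.range (G l)))) ∧
      (∀ α : kbar k' K, α ^ p = algebraMap k (kbar k' K) T → ∀ i,
        α / ∏ j ∈ Finset.univ.erase i, z j i ∈
        IntermediateField.adjoin k (mu (kbar k' K) p ∪ ((⋃ j, Set.range (G j)) ∪ Set.range W))) ∧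
      ∀ {M₁ e N : ℕ} {A B : Mon M₁ → k} {R U U' : Fin (N + 1) → k}, f (topY d) ≠ 0 → 1 ≤ N →
        R (Fin.last N) ≠ 0 → polX U * polX R + polX U' * pderiv 0 (polX R) = 1 →
        pol A * pol f + pol B * pderiv 1 (pol f) = polX R ^ e →
        ∀ V : ValuationSubring (kbar k' K), V ≠ ⊤ →
        (∀ a : k₁, algebraMap k (kbar k' K) (algebraMap k₁ k a) ∈ V) →
        (∀ q, algebraMap k (kbar k' K) (f q) ∈ V) →
        (algebraMap k (kbar k' K) (f (topY d)))⁻¹ ∈ V →
        (∀ q, algebraMap k (kbar k' K) (B q) ∈ V) →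
        (∀ i, algebraMap k (kbar k' K) (R i) ∈ V) →
        (algebraMap k (kbar k' K) (R (Fin.last N)))⁻¹ ∈ V →
        (∀ i, algebraMap k (kbar k' K) (U i) ∈ V) →
        (∀ i, algebraMap k (kbar k' K) (U' i) ∈ V) →
        ∀ i j, i ≠ j → (∀ q, G i q ∈ V) → (∀ q, G j q ∈ V) → (∀ q, D i q ∈ V) →
        (∀ q, D j q ∈ V) → (∃ l, c i l ≠ 0 ∧ (c i l)⁻¹ ∈ V) → (∃ l, c j l ≠ 0 ∧ (c j l)⁻¹ ∈ V) →
        ∀ σ : kbar k' K ≃ₐ[k] kbar k' K, (∀ w, σ w ∈ V ↔ w ∈ V) →
          (∀ w ∈ V, V.valuation (σ w - w) < 1) → (∀ q, σ (G i q) = G i q) →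
          (∀ q, σ (G j q) = G j q) → σ (z i j) = z i j := by
  classical
  have hp' : p ≠ 0 := hp.ne_zero
  have hk0 : CharZero k := charZero_of_injective_algebraMap (algebraMap k₁ k).injective
  have hk0' : CharZero k' := charZero_of_injective_algebraMap (algebraMap k k').injective
  have hkb0 : CharZero (kbar k' K) :=
    charZero_of_injective_algebraMap (algebraMap k' (kbar k' K)).injective
  have hIC : IsAlgClosure k (kbar k' K) := ⟨inferInstance, inferInstance⟩
  have hGal : IsGalois k (kbar k' K) := IsAlgClosure.isGalois k (kbar k' K)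
  -- the roots
  have hexu : ∀ A : Mon n → kbar k' K, ∃ u : AlgebraicClosure K, u ^ p = evP x y (pol A) :=
    fun A => IsAlgClosed.exists_pow_nat_eq _ hp.pos
  choose u hu using hexu
  have hmap : ∀ c : k, algebraMap k' (kbar k' K) (algebraMap k k' c) = algebraMap k (kbar k' K) c :=
    fun c => (IsScalarTower.algebraMap_apply k k' (kbar k' K) c).symm
  have hfev : evP x y (pol fun q => algebraMap k (kbar k' K) (f q)) = 0 := by
    unfold evP
    rw [aeval_pol]
    have h1 := congrArg (algebraMap K (AlgebraicClosure K)) hxy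
    rw [aeval_pol, map_sum, map_zero] at h1
    rw [← h1]
    refine Finset.sum_congr rfl fun q _ => ?_
    rw [map_mul, map_mul, map_pow, map_pow, ← IsScalarTower.algebraMap_apply k' K, ← hmap]
    rfl
  have hG0 : ∀ (ω : k' →ₐ[k] kbar k' K) i, evP x y (pol (mv ω (G i))) ≠ 0 := by
    intro ω i h0
    have h1 := congrArg (evP x y) (mv_nrm (hnrm i) ω)
    rw [map_add, map_mul, map_mul, h0, hfev, mul_zero, mul_zero, add_zero] at h1
    refine evP_polX_ne hx ?_ h1.symm
    intro h2
    apply hc0 i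
    funext l
    exact (map_eq_zero (lft ω).symm).1 (congrFun h2 l)
  have hTC : algebraMap k (kbar k' K) T ≠ 0 := (_root_.map_ne_zero _).2 hT
  have hKur : ∀ (ω : k' →ₐ[k] kbar k' K) i j, i ≠ j → u (mv ω (G i)) / u (mv ω (G j)) ∈ Kur k' K := by
    intro ω i j hij
    refine root_mem_Kur hp.pos hd hnM hfev hTC (mv_prod hprod ω)
      (fun i j hij => mv_cop (hcop i j hij) ω) (hG0 ω) hij ?_
    change (u (mv ω (G i)) / u (mv ω (G j))) ^ p * evP x y (pol (mv ω (G j))) =
      evP x y (pol (mv ω (G i)))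
    rw [div_pow, hu, hu, div_mul_cancel₀ _ (hG0 ω j)]
  have hGW : ∀ i j, i ≠ j → GoodW k x y u (G i) (G j) := fun i j hij ω =>
    ⟨hG0 ω i, hG0 ω j, hKur ω i j hij⟩
  obtain ⟨z, hz⟩ := exists_zE (n := n) s hp' hu
  -- the exponent
  set cd := Fintype.card (k' →ₐ[k] kbar k' K) with hcd
  have hcd' : cd = Module.finrank k k' := AlgHom.card k k' (kbar k' K)
  obtain ⟨r', l', hr'⟩ : ∃ r' l' : ℕ, cd * r' = 1 + p * l' := by
    have h1 : Nat.Coprime cd p := by
      rw [hcd']
      exact ((Nat.Prime.coprime_iff_not_dvd hp).2 hdeg).symm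
    obtain ⟨m, hm⟩ := Nat.exists_mul_mod_eq_one_of_coprime h1 hp.one_lt
    refine ⟨m, cd * m / p, ?_⟩
    have h2 := Nat.mod_add_div (cd * m) p
    rw [hm.2] at h2
    exact h2.symm
  set Z : Fin d → Fin d → kbar k' K := fun i j => zz k z (G i) (G j) ^ r' with hZ
  have hzz0 : ∀ i j, i ≠ j → zz k z (G i) (G j) ≠ 0 := fun i j hij => zz_ne hz (hGW i j hij)
  have hact : ∀ (σ : kbar k' K ≃ₐ[k] kbar k' K) (i j i' j' : Fin d), i ≠ j →
      (∀ q, σ (G i q) = G i' q) → (∀ q, σ (G j q) = G j' q) →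
      σ (zz k z (G i) (G j)) = zu z σ (G i) (G j) * zz k z (G i') (G j') := by
    intro σ i j i' j' hij hi hj
    have h1 := zz_act' hp' hu hz (hGW i j hij) σ
    have h2 : (fun q => σ (G i q)) = G i' := funext hi
    have h3 : (fun q => σ (G j q)) = G j' := funext hj
    rwa [h2, h3] at h1
  refine ⟨Z, fun i j hij => pow_ne_zero _ (hzz0 i j hij), ?_, ?_, ?_, ?_, ?_⟩
  · intro i j hij
    apply mem_adjoin_fixed
    intro σ hσ
    have h1 := hact σ i j i j hij (fun q => hσ _ (Or.inr (Or.inl ⟨q, rfl⟩)))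
      (fun q => hσ _ (Or.inr (Or.inr ⟨q, rfl⟩)))
    change σ ((zz k z (G i) (G j) ^ r') ^ p) = (zz k z (G i) (G j) ^ r') ^ p
    rw [map_pow, map_pow, h1, mul_pow, mul_pow, ← pow_mul, ← pow_mul, mul_comm r' p, pow_mul, pow_mul,
      zu_pow hp' hu hz (hGW i j hij), one_pow, one_mul]
  · intro σ i j i' j' hij hij' hi hj
    have h1 := hact σ i j i' j' hij hi hj
    have h2 : σ (Z i j) / Z i' j' = zu z σ (G i) (G j) ^ r' := by
      change σ (zz k z (G i) (G j) ^ r') / zz k z (G i') (G j') ^ r' = _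
      rw [map_pow, h1, mul_pow, mul_div_assoc, div_self (pow_ne_zero _ (hzz0 i' j' hij')), mul_one]
    rw [h2]
    have h3 : zu z σ (G i) (G j) ∈ mu (kbar k' K) p := zu_pow hp' hu hz (hGW i j hij) σ
    have h4 : zu z σ (G i) (G j) ∈ IntermediateField.adjoin k
        (mu (kbar k' K) p ∪ (Set.range (G i') ∪ Set.range (G j'))) :=
      IntermediateField.subset_adjoin k _ (Or.inl h3)
    exact pow_mem h4 _
  · intro i j l hij hjl hil
    apply mem_adjoin_fixed
    intro σ hσ
    have hi : ∀ q, σ (G i q) = G i q := fun q => hσ _ (Or.inr (Or.inl (Or.inl ⟨q, rfl⟩)))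
    have hj : ∀ q, σ (G j q) = G j q := fun q => hσ _ (Or.inr (Or.inl (Or.inr ⟨q, rfl⟩)))
    have hl : ∀ q, σ (G l q) = G l q := fun q => hσ _ (Or.inr (Or.inr ⟨q, rfl⟩))
    have h1 := hact σ i j i j hij hi hj
    have h2 := hact σ j l j l hjl hj hl
    have h3 := hact σ i l i l hil hi hl
    have h4 := zu_mul hp' hu hz (hGW i j hij) (hGW j l hjl) (hGW i l hil) σ
    have h5 : zu z σ (G i) (G l) ≠ 0 := by
      intro h0
      have h6 := zu_pow hp' hu hz (hGW i l hil) σ
      rw [h0, zero_pow hp'] at h6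
      exact zero_ne_one h6
    have h6 := hzz0 i l hil
    change σ (zz k z (G i) (G j) ^ r' * zz k z (G j) (G l) ^ r' / zz k z (G i) (G l) ^ r') = _
    rw [← mul_pow, ← div_pow, map_pow, map_div₀, map_mul, h1, h2, h3, ← h4]
    congr 1
    rw [← h4] at h5
    have h7 := left_ne_zero_of_mul h5
    have h8 := right_ne_zero_of_mul h5
    field_simp
  · intro α hα i
    obtain ⟨ξ, hξ, hξσ⟩ := zz_prod hp' hd hu hz hfev hprod hG0 hGW hα
    set S : Set (kbar k' K) := mu (kbar k' K) p ∪ ((⋃ j, Set.range (G j)) ∪ Set.range W) with hS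
    have hP0 : ∏ j ∈ Finset.univ.erase i, zz k z (G j) (G i) ≠ 0 :=
      Finset.prod_ne_zero_iff.2 fun j hj => hzz0 j i (Finset.mem_erase.1 hj).1
    have hv : (ξ * α ^ cd) / ∏ j ∈ Finset.univ.erase i, zz k z (G j) (G i) ∈
        IntermediateField.adjoin k S := by
      apply mem_adjoin_fixed
      intro σ hσ
      have hG' : ∀ j q, σ (G j q) = G j q := fun j q =>
        hσ _ (Or.inr (Or.inl (Set.mem_iUnion.2 ⟨j, q, rfl⟩)))
      have hW' : ∀ q, σ (W q) = W q := fun q => hσ _ (Or.inr (Or.inr ⟨q, rfl⟩))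
      have h1 := hξσ σ hG' hW' i
      have h2 : σ (∏ j ∈ Finset.univ.erase i, zz k z (G j) (G i)) =
          (∏ j ∈ Finset.univ.erase i, zu z σ (G j) (G i)) *
            ∏ j ∈ Finset.univ.erase i, zz k z (G j) (G i) := by
        rw [map_prod, ← Finset.prod_mul_distrib]
        exact Finset.prod_congr rfl fun j hj =>
          hact σ j i j i (Finset.mem_erase.1 hj).1 (hG' j) (hG' i)
      have h3 : ∏ j ∈ Finset.univ.erase i, zu z σ (G j) (G i) ≠ 0 := by
        intro h0
        rw [h0, zero_mul] at h2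
        exact hP0 ((map_eq_zero σ).1 h2)
      rw [map_div₀, ← h1, h2, mul_div_mul_left _ _ h3]
    have hξ0 : ξ ≠ 0 := by
      rintro rfl
      rw [zero_pow hp'] at hξ
      exact zero_ne_one hξ
    have hαc : α ^ (cd * r') = α * algebraMap k (kbar k' K) T ^ l' := by
      rw [hr', pow_add, pow_one, pow_mul, hα]
    have h4 : α / ∏ j ∈ Finset.univ.erase i, Z j i =
        ((ξ * α ^ cd) / ∏ j ∈ Finset.univ.erase i, zz k z (G j) (G i)) ^ r' *
          (ξ⁻¹ ^ r' * (algebraMap k (kbar k' K) T)⁻¹ ^ l') := by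
      have h5 : ∏ j ∈ Finset.univ.erase i, Z j i =
          (∏ j ∈ Finset.univ.erase i, zz k z (G j) (G i)) ^ r' := by
        rw [← Finset.prod_pow]
      rw [h5, div_pow, mul_pow, ← pow_mul, hαc, inv_pow, inv_pow]
      have h6 := pow_ne_zero r' hξ0
      have h7 := pow_ne_zero l' hTC
      field_simp
    rw [h4]
    refine mul_mem (pow_mem hv _) (mul_mem (pow_mem (inv_mem ?_) _) (pow_mem (inv_mem ?_) _))
    · exact IntermediateField.subset_adjoin k _ (Or.inl hξ)
    · exact IntermediateField.algebraMap_mem _ _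
  · intro M₁ e₀ N A B R U U' hlead hN hR0 hsep heq V hV hk₁V hfV hleadV hBV hRV hRlV hUV hU'V i j hij
      hGi hGj hDi hDj hci hcj σ hσ1 hσ2 hσi hσj
    have hpinv : (p : kbar k' K)⁻¹ ∈ V := by
      have h1 := hk₁V ((p : k₁)⁻¹)
      rwa [map_inv₀, map_inv₀, map_natCast, map_natCast] at h1
    have hp0 : (p : kbar k' K) ≠ 0 := Nat.cast_ne_zero.2 hp'
    have hμ : ∀ ξ : kbar k' K, ξ ^ p = 1 → σ ξ = ξ := fun ξ hξ =>
      mu_fixed hp' hpinv hp0 (σ := (σ : kbar k' K ≃+* kbar k' K)) hσ2 hξ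
    have hcert := (discCert_of_vec (A := A) (B := B) hlead hN hR0 hsep heq).map (algebraMap k k')
    change σ (zz k z (G i) (G j) ^ r') = zz k z (G i) (G j) ^ r'
    rw [map_pow]
    congr 1
    refine zz_inert hp' hu hz (hGW i j hij) (V := V) ?_ hσi hσj hμ hσ1 hσ2
    intro ω τ hτi hτj hτ
    set V' : ValuationSubring (kbar k' K) :=
      V.comap ((lft ω : kbar k' K ≃+* kbar k' K) : kbar k' K →+* kbar k' K) with hV'
    have hmem : ∀ w : kbar k' K, w ∈ V' ↔ lft ω w ∈ V := fun w => Iff.rfl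
    have hVtop : V' ≠ ⊤ := by
      intro h
      apply hV
      rw [eq_top_iff]
      intro w _
      have h1 : (lft ω).symm w ∈ V' := by rw [h]; trivial
      rwa [hmem, AlgEquiv.apply_symm_apply] at h1
    have hcom : ∀ a : k, algebraMap k (kbar k' K) a ∈ V' ↔ algebraMap k (kbar k' K) a ∈ V := by
      intro a
      rw [hmem, (lft ω).commutes]
    have hcomi : ∀ a : k, (algebraMap k (kbar k' K) a)⁻¹ ∈ V' ↔
        (algebraMap k (kbar k' K) a)⁻¹ ∈ V := by
      intro a
      rw [hmem, map_inv₀, (lft ω).commutes]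
    have hgood : DiscGood V' (fun q => algebraMap k k' (f q)) (MvPolynomial.map (algebraMap k k') (pol B))
        ((polU R).map (algebraMap k k')) ((polU U).map (algebraMap k k'))
        ((polU U').map (algebraMap k k')) := by
      have hg : DiscGood V' f (pol B) (polU R) (polU U) (polU U') :=
        discGood_of_vec hR0 (fun q => (hcom _).2 (hfV q)) ((hcomi _).2 hleadV)
          (fun q => (hcom _).2 (hBV q)) (fun i => (hcom _).2 (hRV i)) ((hcomi _).2 hRlV)
          (fun i => (hcom _).2 (hUV i)) (fun i => (hcom _).2 (hU'V i))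
      refine ⟨fun q => ?_, ?_, fun s => ?_, fun i => ?_, ?_, fun i => ?_, fun i => ?_⟩
      · rw [hmap]; exact hg.f_mem q
      · rw [hmap]; exact hg.lead
      · rw [MvPolynomial.coeff_map, hmap]; exact hg.B_mem s
      · rw [Polynomial.coeff_map, hmap]; exact hg.R_mem i
      · rw [Polynomial.leadingCoeff_map, hmap]; exact hg.R_lead
      · rw [Polynomial.coeff_map, hmap]; exact hg.U_mem i
      · rw [Polynomial.coeff_map, hmap]; exact hg.U'_mem i
    have hug : ∀ i, (∀ q, G i q ∈ V) → (∀ q, D i q ∈ V) → (∃ l, c i l ≠ 0 ∧ (c i l)⁻¹ ∈ V) →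
        UnitGood V' (mv ω (G i)) (pol (mv ω (D i))) (polU fun l => (lft ω).symm (c i l)) := by
      intro i h1 h2 h3
      refine unitGood_of_vec (fun q => ?_) (fun q => ?_) ?_
      · rw [hmem]
        change lft ω ((lft ω).symm (G i q)) ∈ V
        rw [AlgEquiv.apply_symm_apply]; exact h1 q
      · rw [hmem]
        change lft ω ((lft ω).symm (D i q)) ∈ V
        rw [AlgEquiv.apply_symm_apply]; exact h2 q
      · obtain ⟨l, h4, h5⟩ := h3
        refine ⟨l, ?_, ?_⟩
        · intro h6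
          exact h4 ((map_eq_zero (lft ω).symm).1 h6)
        · rw [hmem, map_inv₀, AlgEquiv.apply_symm_apply]
          exact h5
    have hk₁V' : ∀ a : k₁, algebraMap k₁ (kbar k' K) a ∈ V' := by
      intro a
      have h1 : algebraMap k₁ (kbar k' K) a = algebraMap k (kbar k' K) (algebraMap k₁ k a) := by
        rw [← hmap, ← IsScalarTower.algebraMap_apply k₁ k k']
        exact IsScalarTower.algebraMap_apply k₁ k' (kbar k' K) a
      rw [h1, hcom]
      exact hk₁V a
    have hf' : (fun q => algebraMap k' (kbar k' K) (algebraMap k k' (f q))) =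
        fun q => algebraMap k (kbar k' K) (f q) := funext fun q => hmap (f q)
    have hnrm' : ∀ i, pol (mv ω (D i)) * pol (mv ω (G i)) + pol (mv ω (D' i)) *
        pol (fun q => algebraMap k' (kbar k' K) (algebraMap k k' (f q))) =
        Polynomial.aeval (MvPolynomial.X 0) (polU fun l => (lft ω).symm (c i l)) := by
      intro i
      rw [hf', mv_nrm (hnrm i) ω, polX_eq]
    obtain ⟨ρ, hρ⟩ := exists_ext s τ
    have hgp := hGW i j hij ω
    have h1 := root_inert hF₁ t hfin hx hgen hxy hcert s hp' hVtop hk₁V' hgood (hnrm' i) (hnrm' j)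
      (hug i hGi hDi hci) (hug j hGj hDj hcj) hgp.2.2 (by
        rw [div_pow, hu, hu, div_mul_cancel₀ _ hgp.2.1]) hτ hτi hτj hρ
    -- the constant
    have hfix : τ • ((mv ω (G i), mv ω (G j)) : (Mon n → kbar k' K) × (Mon n → kbar k' K)) =
        (mv ω (G i), mv ω (G j)) := Prod.ext (funext hτi) (funext hτj)
    obtain ⟨h2, h3⟩ := hz _ hgp
    have h4 := h3 τ ρ hρ
    rw [hfix] at h4
    change ρ (u (mv ω (G i)) / u (mv ω (G j))) * _ = _ at h4
    rw [h1, mul_comm] at h4
    have h5 : u (mv ω (G i)) / u (mv ω (G j)) ≠ 0 :=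
      div_ne_zero (u_ne hp' hu hgp.1) (u_ne hp' hu hgp.2.1)
    exact Subtype.ext (mul_right_cancel₀ h5 h4).symm

end

end Pool.Agent.PL
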