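import Pool.Agent.Helper10.PL.OE5

/-!
# Project PLANE, sections over extensions: the constants, final form
-/

universe u

set_option linter.unusedSectionVars false

namespace Pool.Agent.PL

open MvPolynomial Pool.Agent.PC Pool.Agent.Helper91.Sect OE Pool.Agent.LT Pool.Agent.SC
  Pool.Agent.GC Pool.Agent.Helper37.UL

theorem fin_ext {k₁ k k' : Type u} [Field k₁] [Field k] [Field k'] [Algebra k₁ k] [Algebra k k']
    [Algebra k₁ k'] [IsScalarTower k₁ k k'] [FiniteDimensional k k'] {t : k}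
    (hfin : FiniteDimensional (IntermediateField.adjoin k₁ {t}) k) :
    FiniteDimensional (IntermediateField.adjoin k₁ {algebraMap k k' t}) k' := by
  set E := IntermediateField.adjoin k₁ {t} with hE
  set E' := IntermediateField.adjoin k₁ {algebraMap k k' t} with hE'
  have h1 : ∀ e : E, algebraMap k k' e ∈ E' := by
    intro e
    have h2 : E.map (IsScalarTower.toAlgHom k₁ k k') = E' := by
      rw [hE, hE', IntermediateField.adjoin_map, Set.image_singleton]
      rfl
    rw [← h2]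
    exact ⟨e, e.2, rfl⟩
  let φ : E →+* E' := ((algebraMap k k').comp (algebraMap E k)).codRestrict E'.toSubfield.toSubring
    (fun e => h1 e)
  let _ : Algebra E E' := φ.toAlgebra
  have s1 : IsScalarTower E E' k' := by
    refine ⟨fun a b c => ?_⟩
    change (algebraMap k k' a * (b : k')) * c = (a : k) • ((b : k') * c)
    rw [Algebra.smul_def, mul_assoc]
  have h3 : FiniteDimensional E k' := FiniteDimensional.trans E k k'
  exact Module.Finite.of_restrictScalars_finite E E' k'

/-- **The constants attached to a Galois section of a plane curve over an extension `k'` of `k` of degree prime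
to `p`.**  The conclusion is the one of `exists_lev_plane`. -/
theorem exists_lev_plane_ext {k₁ k : Type u} [Field k₁] [CharZero k₁] [Field k] [Algebra k₁ k]
    (hF₁ : ∃ S : Finset k₁, Subfield.closure (S : Set k₁) = ⊤)
    (t : k) (hfin : FiniteDimensional (IntermediateField.adjoin k₁ {t}) k)
    {p d r n M : ℕ} (hp : p.Prime) (hd : d = p * r) (hnM : n ≤ M)
    {k' : Type u} [Field k'] [Algebra k k'] [FiniteDimensional k k']
    (hdeg : ¬ p ∣ Module.finrank k k')
    {K : Type u} [Field K] [Algebra k' K] {x y : K} (hx : Transcendental k' x)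
    {f : Mon d → k} (hxy : MvPolynomial.aeval ![x, y] (pol fun q => algebraMap k k' (f q)) = 0)
    (s : GaloisSection k' K)
    {C : Type u} [Field C] [Algebra k C] [IsAlgClosure k C]
    {G : Fin d → Mon n → C} {W : Mon (r * n) → C} {nH : ℕ} {H : Mon nH → C} {T : k} (hT : T ≠ 0)
    (hprod : ∏ i, pol (G i) = MvPolynomial.C (algebraMap k C T) * pol W ^ p +
      pol H * pol (fun q => algebraMap k C (f q)))
    (hcop : ∀ i j, i ≠ j → Cop (G i) (G j) (fun q => algebraMap k C (f q)) M)
    {M₂ M₃ : ℕ} {D D' : Fin d → Mon M₂ → C} {c : Fin d → Fin (M₃ + 1) → C} (hc0 : ∀ i, c i ≠ 0)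
    (hnrm : ∀ i, pol (D i) * pol (G i) + pol (D' i) * pol (fun q => algebraMap k C (f q)) =
      polX (c i)) :
    ∃ z : Fin d → Fin d → C,
      (∀ i j, i ≠ j → z i j ≠ 0) ∧
      (∀ i j, i ≠ j → z i j ^ p ∈ IntermediateField.adjoin k
        (mu C p ∪ (Set.range (G i) ∪ Set.range (G j)))) ∧
      (∀ (σ : C ≃ₐ[k] C) (i j i' j' : Fin d), i ≠ j → i' ≠ j' → (∀ q, σ (G i q) = G i' q) →
        (∀ q, σ (G j q) = G j' q) → σ (z i j) / z i' j' ∈ IntermediateField.adjoin k
          (mu C p ∪ (Set.range (G i') ∪ Set.range (G j')))) ∧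
      (∀ i j l, i ≠ j → j ≠ l → i ≠ l → z i j * z j l / z i l ∈ IntermediateField.adjoin k
        (mu C p ∪ (Set.range (G i) ∪ Set.range (G j) ∪ Set.range (G l)))) ∧
      (∀ α : C, α ^ p = algebraMap k C T → ∀ i, α / ∏ j ∈ Finset.univ.erase i, z j i ∈
        IntermediateField.adjoin k (mu C p ∪ ((⋃ j, Set.range (G j)) ∪ Set.range W))) ∧
      ∀ {M₁ e N : ℕ} {A B : Mon M₁ → k} {R U U' : Fin (N + 1) → k}, f (topY d) ≠ 0 → 1 ≤ N →
        R (Fin.last N) ≠ 0 → polX U * polX R + polX U' * MvPolynomial.pderiv 0 (polX R) = 1 →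
        pol A * pol f + pol B * MvPolynomial.pderiv 1 (pol f) = polX R ^ e →
        ∀ V : ValuationSubring C, V ≠ ⊤ → (∀ a : k₁, algebraMap k C (algebraMap k₁ k a) ∈ V) →
        (∀ q, algebraMap k C (f q) ∈ V) → (algebraMap k C (f (topY d)))⁻¹ ∈ V →
        (∀ q, algebraMap k C (B q) ∈ V) → (∀ i, algebraMap k C (R i) ∈ V) →
        (algebraMap k C (R (Fin.last N)))⁻¹ ∈ V → (∀ i, algebraMap k C (U i) ∈ V) →
        (∀ i, algebraMap k C (U' i) ∈ V) →
        ∀ i j, i ≠ j → (∀ q, G i q ∈ V) → (∀ q, G j q ∈ V) → (∀ q, D i q ∈ V) → (∀ q, D j q ∈ V) →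
        (∃ l, c i l ≠ 0 ∧ (c i l)⁻¹ ∈ V) → (∃ l, c j l ≠ 0 ∧ (c j l)⁻¹ ∈ V) →
        ∀ σ : C ≃+* C, Inert (algebraMap k C).fieldRange V σ → (∀ q, σ (G i q) = G i q) →
          (∀ q, σ (G j q) = G j q) → σ (z i j) = z i j := by
  classical
  have hk0 : CharZero k := charZero_of_injective_algebraMap (algebraMap k₁ k).injective
  -- reduction to `K = k'(x, y)`
  let K' : IntermediateField k' K := IntermediateField.adjoin k' {x, y}
  let x' : K' := ⟨x, IntermediateField.subset_adjoin k' _ (Or.inl rfl)⟩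
  let y' : K' := ⟨y, IntermediateField.subset_adjoin k' _ (Or.inr rfl)⟩
  obtain ⟨s'⟩ : Nonempty (GaloisSection k' K') := by
    have hk0' : CharZero k' := charZero_of_injective_algebraMap (algebraMap k k').injective
    exact Pool.Agent.TW.push (K₁ := K') s
  have hx' : Transcendental k' x' := by
    intro h
    exact hx (IsAlgebraic.algebraMap (A := K) h)
  have hxy' : MvPolynomial.aeval ![x', y'] (pol fun q => algebraMap k k' (f q)) = 0 := by
    apply Subtype.ext
    have h1 : ((MvPolynomial.aeval ![x', y'] (pol fun q => algebraMap k k' (f q)) : K') : K) =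
        MvPolynomial.aeval ![x, y] (pol fun q => algebraMap k k' (f q)) := by
      rw [aeval_pol, aeval_pol]
      change K'.val _ = _
      rw [map_sum]
      rfl
    rw [h1, hxy]
    rfl
  have hgen : IntermediateField.adjoin k' {x', y'} = ⊤ := by
    apply IntermediateField.map_injective K'.val
    rw [IntermediateField.adjoin_map, Set.image_pair, ← AlgHom.fieldRange_eq_map,
      IntermediateField.fieldRange_val]
    rfl
  let i0 : Algebra k₁ k' := ((algebraMap k k').comp (algebraMap k₁ k)).toAlgebra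
  have i0' : IsScalarTower k₁ k k' := IsScalarTower.of_algebraMap_eq fun _ => rfl
  let i1 : Algebra k₁ K' := ((algebraMap k' K').comp (algebraMap k₁ k')).toAlgebra
  have i2 : IsScalarTower k₁ k' K' := IsScalarTower.of_algebraMap_eq fun _ => rfl
  let i3 : Algebra k (kbar k' K') :=
    ((algebraMap k' (kbar k' K')).comp (algebraMap k k')).toAlgebra
  have i4 : IsScalarTower k k' (kbar k' K') := IsScalarTower.of_algebraMap_eq fun _ => rfl
  have i5 : Algebra.IsAlgebraic k (kbar k' K') := Algebra.IsAlgebraic.trans k k' (kbar k' K')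
  -- the transport
  have hC1 : IsAlgClosed C := IsAlgClosure.isAlgClosed k
  have hC3 : CharZero C := charZero_of_injective_algebraMap (algebraMap k C).injective
  have hK1 : IsAlgClosure k (kbar k' K') := ⟨inferInstance, inferInstance⟩
  let e : kbar k' K' ≃ₐ[k] C := IsAlgClosure.equiv k (kbar k' K') C
  let e' : C ≃ₐ[k] kbar k' K' := e.symm
  have hee' : ∀ w, e (e' w) = w := fun w => e.apply_symm_apply w
  have he'e : ∀ w, e' (e w) = w := fun w => e.symm_apply_apply w
  let G' : Fin d → Mon n → kbar k' K' := fun i q => e' (G i q)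
  let W' : Mon (r * n) → kbar k' K' := fun q => e' (W q)
  let H' : Mon nH → kbar k' K' := fun q => e' (H q)
  let D1 : Fin d → Mon M₂ → kbar k' K' := fun i q => e' (D i q)
  let D1' : Fin d → Mon M₂ → kbar k' K' := fun i q => e' (D' i q)
  let c' : Fin d → Fin (M₃ + 1) → kbar k' K' := fun i q => e' (c i q)
  let f' : Mon d → kbar k' K' := fun q => algebraMap k (kbar k' K') (f q)
  have hf' : (fun q => e' (algebraMap k C (f q))) = f' := by
    funext q
    exact e'.commutes (f q)
  let φ : C →+* kbar k' K' := (e' : C →+* kbar k' K')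
  have hφ : ∀ w, φ w = e' w := fun _ => rfl
  have hprod' : ∏ i, pol (G' i) = MvPolynomial.C (algebraMap k (kbar k' K') T) * pol W' ^ p +
      pol H' * pol f' := by
    have h1 := congrArg (MvPolynomial.map φ) hprod
    rw [map_prod, map_add, map_mul, map_mul, map_pow, MvPolynomial.map_C, map_pol, map_pol,
      map_pol] at h1
    simp only [map_pol, hφ] at h1
    rw [e'.commutes, hf'] at h1
    exact h1
  have hcop' : ∀ i j, i ≠ j → Cop (G' i) (G' j) f' M := by
    intro i j hij q
    obtain ⟨A, B, D, h⟩ := hcop i j hij q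
    refine ⟨fun q => e' (A q), fun q => e' (B q), fun q => e' (D q), ?_⟩
    have h1 := congrArg (MvPolynomial.map φ) h
    rw [map_add, map_add, map_mul, map_mul, map_mul, map_mono] at h1
    simp only [map_pol, hφ] at h1
    rw [hf'] at h1
    exact h1
  have hnrm' : ∀ i, pol (D1 i) * pol (G' i) + pol (D1' i) * pol f' = polX (c' i) := by
    intro i
    have h1 := congrArg (MvPolynomial.map φ) (hnrm i)
    rw [map_add, map_mul, map_mul] at h1
    simp only [map_pol, hφ] at h1
    rw [hf'] at h1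
    rw [h1]
    unfold polX
    rw [map_sum]
    refine Finset.sum_congr rfl fun j _ => ?_
    rw [map_mul, map_pow, MvPolynomial.map_C, MvPolynomial.map_X]
    rfl
  have hc0' : ∀ i, c' i ≠ 0 := by
    intro i h0
    apply hc0 i
    funext l
    exact (map_eq_zero e').1 (congrFun h0 l)
  obtain ⟨z, z0, z1, z2, z3, z4, z5⟩ := lev_plane_kbar (k₁ := k₁) hF₁ (algebraMap k k' t)
    (fin_ext hfin) hp hdeg hd hnM hx' hgen hxy' s' hT hprod' hcop' hc0' hnrm'
  -- images of the generators
  have himG : ∀ i q, e (G' i q) = G i q := fun i q => hee' _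
  have himμ : ∀ ξ ∈ mu (kbar k' K') p, e ξ ∈ mu C p := by
    intro ξ hξ
    change e ξ ^ p = 1
    rw [← map_pow, hξ, map_one]
  -- automorphisms
  have haut : ∀ σ : C ≃ₐ[k] C, ∃ τ : kbar k' K' ≃ₐ[k] kbar k' K', ∀ w, e (τ w) = σ (e w) := by
    intro σ
    refine ⟨(e.trans σ).trans e.symm, fun w => ?_⟩
    change e (e.symm (σ (e w))) = _
    rw [AlgEquiv.apply_symm_apply]
  refine ⟨fun i j => e (z i j), ?_, ?_, ?_, ?_, ?_, ?_⟩
  · intro i j hij h0
    exact z0 i j hij ((map_eq_zero e).1 h0)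
  · intro i j hij
    change e (z i j) ^ p ∈ _
    rw [← map_pow]
    refine map_mem_adjoin (e : kbar k' K' →ₐ[k] C) ?_ (z1 i j hij)
    rintro a (ha | ⟨q, rfl⟩ | ⟨q, rfl⟩)
    · exact Or.inl (himμ a ha)
    · exact Or.inr (Or.inl ⟨q, (himG i q).symm⟩)
    · exact Or.inr (Or.inr ⟨q, (himG j q).symm⟩)
  · intro σ i j i' j' hij hij' hi hj
    obtain ⟨τ, hτ⟩ := haut σ
    change σ (e (z i j)) / e (z i' j') ∈ _
    rw [← hτ, ← map_div₀]
    refine map_mem_adjoin (e : kbar k' K' →ₐ[k] C) ?_ (z2 τ i j i' j' hij hij' ?_ ?_)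
    · rintro a (ha | ⟨q, rfl⟩ | ⟨q, rfl⟩)
      · exact Or.inl (himμ a ha)
      · exact Or.inr (Or.inl ⟨q, (himG i' q).symm⟩)
      · exact Or.inr (Or.inr ⟨q, (himG j' q).symm⟩)
    · intro q
      apply e.injective
      rw [hτ, himG, himG, hi]
    · intro q
      apply e.injective
      rw [hτ, himG, himG, hj]
  · intro i j l hij hjl hil
    change e (z i j) * e (z j l) / e (z i l) ∈ _
    rw [← map_mul, ← map_div₀]
    refine map_mem_adjoin (e : kbar k' K' →ₐ[k] C) ?_ (z3 i j l hij hjl hil)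
    rintro a (ha | (⟨q, rfl⟩ | ⟨q, rfl⟩) | ⟨q, rfl⟩)
    · exact Or.inl (himμ a ha)
    · exact Or.inr (Or.inl (Or.inl ⟨q, (himG i q).symm⟩))
    · exact Or.inr (Or.inl (Or.inr ⟨q, (himG j q).symm⟩))
    · exact Or.inr (Or.inr ⟨q, (himG l q).symm⟩)
  · intro α hα i
    have h1 : e' α ^ p = algebraMap k (kbar k' K') T := by
      rw [← map_pow, hα]
      exact e'.commutes T
    have h2 := z4 (e' α) h1 i
    have h3 : α / ∏ j ∈ Finset.univ.erase i, e (z j i) =
        (e : kbar k' K' →ₐ[k] C) (e' α / ∏ j ∈ Finset.univ.erase i, z j i) := by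
      change _ = e (e' α / ∏ j ∈ Finset.univ.erase i, z j i)
      rw [map_div₀, map_prod, hee']
    change α / ∏ j ∈ Finset.univ.erase i, e (z j i) ∈ _
    rw [h3]
    refine map_mem_adjoin (e : kbar k' K' →ₐ[k] C) ?_ h2
    rintro a (ha | ha | ⟨q, rfl⟩)
    · exact Or.inl (himμ a ha)
    · obtain ⟨j, q, rfl⟩ := Set.mem_iUnion.1 ha
      exact Or.inr (Or.inl (Set.mem_iUnion.2 ⟨j, q, (himG j q).symm⟩))
    · exact Or.inr (Or.inr ⟨q, (hee' _).symm⟩)
  · intro M₁ e₀ N A B R U U' hlead hN hR0 hsep heq V hV hk₁V hfV hleadV hBV hRV hRlV hUV hU'V i j hij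
      hGi hGj hDi hDj hci hcj σ hσ hσi hσj
    let σ' : C ≃ₐ[k] C := AlgEquiv.ofRingEquiv (f := σ) (fun a => hσ.fix _ ⟨a, rfl⟩)
    obtain ⟨τ, hτ⟩ := haut σ'
    replace hτ : ∀ w, e (τ w) = σ (e w) := hτ
    set V' : ValuationSubring (kbar k' K') := V.comap ((e : kbar k' K' ≃+* C) : kbar k' K' →+* C)
      with hV'
    have hmem : ∀ w : kbar k' K', w ∈ V' ↔ e w ∈ V := fun w => Iff.rfl
    have hlt : ∀ w : kbar k' K', V'.valuation w < 1 ↔ V.valuation (e w) < 1 := fun w =>
      comap_val_lt' (e : kbar k' K' ≃+* C) V w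
    have hVtop : V' ≠ ⊤ := by
      intro h
      apply hV
      rw [eq_top_iff]
      intro w _
      have h1 : e' w ∈ V' := by rw [h]; trivial
      rwa [hmem, hee'] at h1
    have hcom : ∀ a : k, algebraMap k (kbar k' K') a ∈ V' ↔ algebraMap k C a ∈ V := by
      intro a
      rw [hmem, e.commutes]
    have hcomi : ∀ a : k, (algebraMap k (kbar k' K') a)⁻¹ ∈ V' ↔ (algebraMap k C a)⁻¹ ∈ V := by
      intro a
      rw [hmem, map_inv₀, e.commutes]
    have hG'V : ∀ i, (∀ q, G i q ∈ V) → ∀ q, G' i q ∈ V' := fun i h q => by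
      rw [hmem, himG]; exact h q
    have hD'V : ∀ i, (∀ q, D i q ∈ V) → ∀ q, D1 i q ∈ V' := fun i h q => by
      change e' (D i q) ∈ V'
      rw [hmem, hee']; exact h q
    have hc'V : ∀ i, (∃ l, c i l ≠ 0 ∧ (c i l)⁻¹ ∈ V) → ∃ l, c' i l ≠ 0 ∧ (c' i l)⁻¹ ∈ V' := by
      rintro i ⟨l, h4, h5⟩
      refine ⟨l, ?_, ?_⟩
      · intro h6
        exact h4 ((map_eq_zero e').1 h6)
      · change (e' (c i l))⁻¹ ∈ V'
        rw [hmem, map_inv₀, hee']
        exact h5
    have h1 := z5 hlead hN hR0 hsep heq V' hVtop (fun a => (hcom _).2 (hk₁V a))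
      (fun q => (hcom _).2 (hfV q)) ((hcomi _).2 hleadV) (fun q => (hcom _).2 (hBV q))
      (fun i => (hcom _).2 (hRV i)) ((hcomi _).2 hRlV) (fun i => (hcom _).2 (hUV i))
      (fun i => (hcom _).2 (hU'V i)) i j hij (hG'V i hGi) (hG'V j hGj) (hD'V i hDi) (hD'V j hDj)
      (hc'V i hci) (hc'V j hcj) τ (fun w => by rw [hmem, hmem, hτ, hσ.dec]) (fun w hw => by
        rw [hlt, map_sub, hτ]
        exact hσ.res _ hw) (fun q => by
        apply e.injective
        rw [hτ, himG, hσi]) (fun q => by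
        apply e.injective
        rw [hτ, himG, hσj])
    change σ (e (z i j)) = e (z i j)
    rw [← hτ, h1]

end Pool.Agent.PL
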