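import Pool.Agent.Helper10.PL.Eqn

/-!
# PL: the special solution and the surjectivity of the derivative
-/

universe u v

namespace Pool.Agent.PC

open MvPolynomial

section Int

/-- `(y - Γ) (y - Γ - 1) ^ M`, the inner variable is `y`, the outer variable is `Γ` -/
noncomputable def GZ (M : ℕ) : Polynomial (Polynomial ℤ) :=
  (Polynomial.C Polynomial.X - Polynomial.X) * (Polynomial.C Polynomial.X - Polynomial.X - 1) ^ M

lemma TD_GZ (M : ℕ) : PL.TD (1 + M) (GZ M) := by
  have h1 : PL.TD 1 (Polynomial.C Polynomial.X - Polynomial.X : Polynomial (Polynomial ℤ)) := by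
    refine (PL.TD.C ?_).sub ?_
    · rw [Polynomial.natDegree_X]
    · have := PL.TD.X_pow (R := ℤ) 1
      rwa [pow_one] at this
  have h2 := h1.sub ((PL.TD.one (R := ℤ)).mono (Nat.zero_le 1))
  have h3 := h1.mul (h2.pow M)
  rw [mul_one] at h3
  exact h3

variable {A : Type u} [CommRing A]

/-- evaluation of `y` at `X 1` and of `Γ` at `γ` -/
noncomputable def evZ (γ : A) : Polynomial (Polynomial ℤ) →+* MvPolynomial (Fin 2) A :=
  Polynomial.eval₂RingHom (Polynomial.eval₂RingHom (C.comp (Int.castRingHom A)) (X 1)) (C γ)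

lemma evZ_GZ (γ : A) (p m : ℕ) : evZ γ (GZ (p * m)) = G0 p m γ := by
  simp [evZ, GZ, G0, Polynomial.eval₂_pow]

lemma cf_evZ (γ : A) {n : ℕ} {P : Polynomial (Polynomial ℤ)} (hP : PL.TD n P) (q : Mon n) :
    cf n (evZ γ P) q = ∑ l : Fin (n + 1), γ ^ (l : ℕ) *
      (if (q.1.1 : ℕ) = 0 then ((P.coeff l).coeff (q.1.2 : ℕ) : A) else 0) := by
  classical
  have hdeg : P.natDegree < n + 1 := by
    by_contra h
    push Not at h
    have h0 : P ≠ 0 := by
      rintro rfl
      rw [Polynomial.natDegree_zero] at h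
      omega
    have h1 := hP.coeff_natDegree (l := P.natDegree) (Polynomial.leadingCoeff_ne_zero.mpr h0)
    omega
  have h1 : evZ γ P = ∑ l : Fin (n + 1), C (γ ^ (l : ℕ)) *
      Polynomial.eval₂ (C.comp (Int.castRingHom A)) (X 1) (P.coeff l) := by
    conv_lhs => rw [P.as_sum_range_C_mul_X_pow' hdeg]
    rw [map_sum, ← Fin.sum_univ_eq_sum_range (fun l => evZ γ (Polynomial.C (P.coeff l) *
      Polynomial.X ^ l))]
    refine Finset.sum_congr rfl fun l _ => ?_
    rw [map_mul, map_pow, C_pow, mul_comm]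
    simp [evZ]
  rw [h1, cf_sum]
  refine Finset.sum_congr rfl fun l _ => ?_
  rw [cf_C_mul]
  congr 1
  set Q := P.coeff l with hQ
  have h2 : Polynomial.eval₂ (C.comp (Int.castRingHom A)) (X 1 : MvPolynomial (Fin 2) A) Q =
      Q.sum fun j a => monomial (Finsupp.single 1 j) ((a : ℤ) : A) := by
    rw [Polynomial.eval₂_eq_sum]
    refine Finset.sum_congr rfl fun j _ => ?_
    change (C.comp (Int.castRingHom A)) (Q.coeff j) * X 1 ^ j = _
    rw [X_pow_eq_monomial, RingHom.comp_apply, C_mul_monomial, mul_one]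
    rfl
  rw [cf, h2, Polynomial.sum, coeff_sum]
  simp only [coeff_monomial]
  have h3 : ∀ j : ℕ, Finsupp.single (1 : Fin 2) j = expo q ↔ (q.1.1 : ℕ) = 0 ∧ j = (q.1.2 : ℕ) := by
    intro j
    constructor
    · intro h
      have h0 := congrArg (fun s => s 0) h
      have h1 := congrArg (fun s => s 1) h
      simp only [expo_zero, expo_one, Finsupp.single_eq_same] at h0 h1
      refine ⟨?_, h1⟩
      rw [← h0]
      simp
    · rintro ⟨h0, rfl⟩
      rw [expo, h0]
      simp
  by_cases hi : (q.1.1 : ℕ) = 0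
  · rw [if_pos hi]
    by_cases hj : (q.1.2 : ℕ) ∈ Q.support
    · rw [Finset.sum_eq_single (q.1.2 : ℕ), if_pos ((h3 _).2 ⟨hi, rfl⟩)]
      · intro j _ hj'
        rw [if_neg fun h => hj' ((h3 j).1 h).2]
      · intro h
        exact absurd hj h
    · rw [Polynomial.notMem_support_iff.mp hj]
      rw [Finset.sum_eq_zero]
      · simp
      · intro j hj'
        rw [if_neg]
        intro h
        exact hj (((h3 j).1 h).2 ▸ hj')
  · rw [if_neg hi]
    refine Finset.sum_eq_zero fun j _ => ?_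
    rw [if_neg fun h => hi ((h3 j).1 h).1]

end Int

section Spec

variable {A : Type u} [CommRing A] [Nontrivial A] {d p r m : ℕ}

omit [Nontrivial A] in
/-- `∏ (y - γ j - 1) ^ (p m)` -/
noncomputable def H0 (p m : ℕ) {d : ℕ} (γ : Fin d → A) : MvPolynomial (Fin 2) A :=
  ∏ j, (X 1 - C (γ j) - 1) ^ (p * m)

omit [Nontrivial A] in
/-- the special solution -/
noncomputable def z0 (p r m : ℕ) {d : ℕ} (γ : Fin d → A) :
    Unk (1 + p * m) (r * (1 + p * m)) (d * (p * m)) → A
  | Sum.inl (l, q) => if (q.1.1 : ℕ) = 0 then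
      (((GZ (p * m)).coeff l).coeff (q.1.2 : ℕ) : A) else 0
  | Sum.inr (Sum.inl q) => cf _ (W0 r m γ) q
  | Sum.inr (Sum.inr q) => cf _ (H0 p m γ) q

lemma totalDegree_lin (a : A) : (X 1 - C a : MvPolynomial (Fin 2) A).totalDegree ≤ 1 := by
  refine (totalDegree_sub _ _).trans (max_le ?_ ?_)
  · rw [totalDegree_X]
  · rw [totalDegree_C]
    exact Nat.zero_le _

lemma totalDegree_lin' (a : A) : (X 1 - C a - 1 : MvPolynomial (Fin 2) A).totalDegree ≤ 1 := by
  have : (X 1 - C a - 1 : MvPolynomial (Fin 2) A) = X 1 - C (a + 1) := by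
    rw [C_add, C_1]
    ring
  rw [this]
  exact totalDegree_lin _

lemma totalDegree_pow_le' {P : MvPolynomial (Fin 2) A} (h : P.totalDegree ≤ 1) (M : ℕ) :
    (P ^ M).totalDegree ≤ M := by
  refine (totalDegree_pow _ _).trans ?_
  calc M * P.totalDegree ≤ M * 1 := Nat.mul_le_mul_left M h
    _ = M := mul_one M

lemma totalDegree_G0 (γ : A) : (G0 p m γ).totalDegree ≤ 1 + p * m :=
  (totalDegree_mul _ _).trans (Nat.add_le_add (totalDegree_lin _)
    (totalDegree_pow_le' (totalDegree_lin' _) _))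

lemma totalDegree_W0 (hd : d = p * r) (γ : Fin d → A) : (W0 r m γ).totalDegree ≤ r * (1 + p * m) := by
  refine (totalDegree_mul _ _).trans ?_
  have h1 : (X 0 ^ r : MvPolynomial (Fin 2) A).totalDegree ≤ r := by
    rw [totalDegree_X_pow]
  have h2 := totalDegree_prod_le Finset.univ (fun j => (X 1 - C (γ j) - 1 : MvPolynomial (Fin 2) A) ^ m)
    (e := m) fun j _ => totalDegree_pow_le' (totalDegree_lin' _) _
  rw [Finset.card_univ, Fintype.card_fin] at h2
  have h3 : r * (1 + p * m) = r + d * m := by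
    rw [hd]
    ring
  omega

lemma totalDegree_H0 (γ : Fin d → A) : (H0 p m γ).totalDegree ≤ d * (p * m) := by
  have h2 := totalDegree_prod_le Finset.univ
    (fun j => (X 1 - C (γ j) - 1 : MvPolynomial (Fin 2) A) ^ (p * m))
    (e := p * m) fun j _ => totalDegree_pow_le' (totalDegree_lin' _) _
  rw [Finset.card_univ, Fintype.card_fin] at h2
  exact h2

lemma totalDegree_f0 (hd0 : 0 < d) (γ : Fin d → A) (T : A) : (f0 γ T).totalDegree ≤ d := by
  refine (totalDegree_sub _ _).trans (max_le ?_ ?_)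
  · have h2 := totalDegree_prod_le Finset.univ (fun j => (X 1 - C (γ j) : MvPolynomial (Fin 2) A))
      (e := 1) fun j _ => totalDegree_lin _
    rw [Finset.card_univ, Fintype.card_fin, mul_one] at h2
    exact h2
  · refine (totalDegree_mul _ _).trans ?_
    rw [totalDegree_C, zero_add, totalDegree_X_pow]

lemma pol_GG_z0 (γ : Fin d → A) (i : Fin d) : pol (GG γ (z0 p r m γ) i) = G0 p m (γ i) := by
  rw [← pol_cf (totalDegree_G0 (γ i))]
  congr 1
  funext q
  rw [← evZ_GZ, cf_evZ (γ i) (TD_GZ (p * m)) q]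
  rfl

lemma pol_WW_z0 (hd : d = p * r) (γ : Fin d → A) : pol (WW (z0 p r m γ)) = W0 r m γ :=
  pol_cf (totalDegree_W0 hd γ)

lemma pol_HH_z0 (γ : Fin d → A) : pol (HH (z0 p r m γ)) = H0 p m γ :=
  pol_cf (totalDegree_H0 γ)

lemma EE_z0 (hd : d = p * r) (γ : Fin d → A) (T : A) :
    EE p γ T (f0 γ T) (z0 p r m γ) = 0 := by
  rw [EE, pol_WW_z0 hd, pol_HH_z0]
  simp only [pol_GG_z0]
  have h1 : ∏ i, G0 p m (γ i) = (∏ i, (X 1 - C (γ i))) * H0 p m γ := by
    rw [H0, ← Finset.prod_mul_distrib]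
    rfl
  have h2 : (W0 r m γ) ^ p = X 0 ^ d * H0 p m γ := by
    have e1 : r * p = d := by rw [hd, mul_comm]
    rw [W0, mul_pow, ← pow_mul, H0, ← Finset.prod_pow, e1]
    congr 1
    refine Finset.prod_congr rfl fun j _ => ?_
    rw [← pow_mul, mul_comm m p]
  rw [h1, h2, f0]
  ring

end Spec

section Surj

variable {A : Type u} [Field A] [CharZero A] {d p r m : ℕ}

omit [CharZero A] in
lemma exists_GG {n : ℕ} (hdn : d ≤ n + 1) {γ : Fin d → A} (hγ : Function.Injective γ)
    (g : Fin d → MvPolynomial (Fin 2) A) (hg : ∀ i, (g i).totalDegree ≤ n) :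
    ∃ δ : Fin (n + 1) × Mon n → A, ∀ i,
      pol (fun q => ∑ l : Fin (n + 1), γ i ^ (l : ℕ) * δ (l, q)) = g i := by
  classical
  refine ⟨fun lq => (Lagrange.interpolate Finset.univ γ fun i => cf n (g i) lq.2).coeff lq.1,
    fun i => ?_⟩
  rw [← pol_cf (hg i)]
  congr 1
  funext q
  have h1 := Lagrange.eval_interpolate_at_node (s := Finset.univ) (v := γ)
    (fun i => cf n (g i) q) (hγ.injOn) (Finset.mem_univ i)
  rw [← h1]
  have h2 : (Lagrange.interpolate Finset.univ γ fun i => cf n (g i) q).natDegree < n + 1 := by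
    have h3 := Lagrange.degree_interpolate_lt (s := Finset.univ) (v := γ)
      (fun i => cf n (g i) q) (hγ.injOn)
    rw [Finset.card_univ, Fintype.card_fin] at h3
    by_cases h0 : (Lagrange.interpolate Finset.univ γ fun i => cf n (g i) q) = 0
    · rw [h0, Polynomial.natDegree_zero]
      omega
    · rw [Polynomial.degree_eq_natDegree h0] at h3
      have h4 : (Lagrange.interpolate Finset.univ γ fun i => cf n (g i) q).natDegree < d := by
        exact_mod_cast h3
      omega
  rw [Polynomial.eval_eq_sum_range' h2, ← Fin.sum_univ_eq_sum_range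
    (fun l => (Lagrange.interpolate Finset.univ γ fun i => cf n (g i) q).coeff l * γ i ^ l)]
  exact Finset.sum_congr rfl fun l _ => mul_comm _ _

theorem JJ_surj (hp : p.Prime) (hd : d = p * r) (hd0 : 0 < d) (hm : d ≤ m) {T : A} (hT : T ≠ 0)
    {γ : Fin d → A} (hγ : Function.Injective γ) (hγ1 : ∀ i j, γ i ≠ γ j + 1)
    (F : MvPolynomial (Fin 2) A) (hF : F.totalDegree ≤ d * (1 + p * m)) :
    ∃ δ, JJ p γ T (f0 γ T) (z0 p r m γ) δ = F := by
  obtain ⟨g, u, h, hg, hu, hh, heq⟩ := surj_lin hp hd hd0 hm hT hγ hγ1 F hF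
  obtain ⟨δ, hδ⟩ := exists_GG (n := 1 + p * m) (by nlinarith [hp.two_le]) hγ g hg
  refine ⟨Sum.elim δ (Sum.elim (cf _ u) (cf _ h)), ?_⟩
  rw [heq, JJ, pol_WW_z0 hd]
  simp only [pol_GG_z0]
  have h1 : ∀ i, pol (GG γ (Sum.elim δ (Sum.elim (cf (r * (1 + p * m)) u) (cf (d * (p * m)) h))) i) =
      g i := fun i => hδ i
  have h2 : pol (WW (Sum.elim δ (Sum.elim (cf (r * (1 + p * m)) u) (cf (d * (p * m)) h)))) = u :=
    pol_cf hu
  have h3 : pol (HH (Sum.elim δ (Sum.elim (cf (r * (1 + p * m)) u) (cf (d * (p * m)) h)))) = h :=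
    pol_cf hh
  rw [h2, h3, Finset.sum_congr rfl fun i _ => by rw [h1 i]]

end Surj

end Pool.Agent.PC
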