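import Pool.Agent.Helper10.PL.Dual
import Pool.Agent.Helper10.PL.Spec
import Pool.Agent.Helper10.PL.Hensel

/-!
# PL: block SOL
-/

universe u v

namespace Pool.Agent.PC

open MvPolynomial

section Perm

variable {R : Type u} [CommRing R] {n k h d : ℕ}

lemma GG_perm (γ : Fin d → R) (e : Equiv.Perm (Fin d)) (z : Unk n k h → R) (i : Fin d) :
    GG (fun i => γ (e i)) z i = GG γ z (e i) := rfl

lemma EE_perm (p : ℕ) (γ : Fin d → R) (T : R) (F : MvPolynomial (Fin 2) R)
    (e : Equiv.Perm (Fin d)) (z : Unk n k h → R) :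
    EE p (fun i => γ (e i)) T F z = EE p γ T F z := by
  rw [EE, EE]
  congr 2
  exact Equiv.prod_comp e fun i => pol (GG γ z i)

variable {p r m : ℕ}

lemma map_W0 {S : Type v} [CommRing S] (φ : R →+* S) (γ : Fin d → R) :
    map φ (W0 r m γ) = W0 r m fun i => φ (γ i) := by
  rw [W0, W0, map_mul, map_pow, map_prod, map_X]
  simp only [map_pow, map_sub, map_X, map_C, map_one]

lemma map_H0 {S : Type v} [CommRing S] (φ : R →+* S) (γ : Fin d → R) :
    map φ (H0 p m γ) = H0 p m fun i => φ (γ i) := by
  rw [H0, H0, map_prod]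
  simp only [map_pow, map_sub, map_X, map_C, map_one]

lemma W0_perm (γ : Fin d → R) (e : Equiv.Perm (Fin d)) :
    W0 r m (fun i => γ (e i)) = W0 r m γ := by
  rw [W0, W0]
  congr 1
  exact Equiv.prod_comp e fun j => (X 1 - C (γ j) - 1 : MvPolynomial (Fin 2) R) ^ m

lemma H0_perm (γ : Fin d → R) (e : Equiv.Perm (Fin d)) :
    H0 p m (fun i => γ (e i)) = H0 p m γ :=
  Equiv.prod_comp e fun j => (X 1 - C (γ j) - 1 : MvPolynomial (Fin 2) R) ^ (p * m)

lemma map_z0 {S : Type v} [CommRing S] (φ : R →+* S) (γ : Fin d → R)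
    (u : Unk (1 + p * m) (r * (1 + p * m)) (d * (p * m))) :
    φ (z0 p r m γ u) = z0 p r m (fun i => φ (γ i)) u := by
  rcases u with ⟨l, q⟩ | (q | q)
  · simp only [z0]
    split_ifs
    · rw [map_intCast]
    · rw [map_zero]
  · simp only [z0]
    rw [← cf_map, map_W0]
  · simp only [z0]
    rw [← cf_map, map_H0]

lemma z0_perm (γ : Fin d → R) (e : Equiv.Perm (Fin d))
    (u : Unk (1 + p * m) (r * (1 + p * m)) (d * (p * m))) :
    z0 p r m (fun i => γ (e i)) u = z0 p r m γ u := by
  rcases u with ⟨l, q⟩ | (q | q)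
  · rfl
  · simp only [z0]
    rw [W0_perm]
  · simp only [z0]
    rw [H0_perm]

end Perm

section Ext

variable {R : Type u} [CommRing R] {U κ : Type} [Fintype κ] (a : κ → U)

open Classical in
/-- extension by zero -/
noncomputable def ex (y : κ → R) : U → R := fun u => ∑ b, y b * if a b = u then 1 else 0

lemma ex_add (y w : κ → R) (η : R) (u : U) :
    ex a (fun b => y b + η * w b) u = ex a y u + η * ex a w u := by
  simp only [ex]
  rw [Finset.mul_sum, ← Finset.sum_add_distrib]
  exact Finset.sum_congr rfl fun b _ => by ring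

lemma ex_zero (u : U) : ex a (fun _ => (0 : R)) u = 0 := by
  simp [ex]

lemma map_ex {S : Type v} [CommRing S] (φ : R →+* S) (y : κ → R) (u : U) :
    φ (ex a y u) = ex a (fun b => φ (y b)) u := by
  classical
  simp only [ex]
  rw [map_sum]
  refine Finset.sum_congr rfl fun b _ => ?_
  rw [map_mul]
  split_ifs
  · rw [map_one]
  · rw [map_zero]

lemma ex_apply (ha : Function.Injective a) (y : κ → R) (b : κ) : ex a y (a b) = y b := by
  classical
  simp only [ex]
  rw [Finset.sum_eq_single b]
  · rw [if_pos rfl, mul_one]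
  · intro c _ hc
    rw [if_neg fun h => hc (ha h), mul_zero]
  · intro h
    exact absurd (Finset.mem_univ b) h

lemma ex_der (D : Derivation ℤ R R) (y : κ → R) (u : U) :
    D (ex a y u) = ex a (fun b => D (y b)) u := by
  classical
  simp only [ex]
  rw [map_sum]
  refine Finset.sum_congr rfl fun b _ => ?_
  split_ifs
  · rw [mul_one, mul_one]
  · rw [mul_zero, mul_zero, map_zero]

end Ext

section Sol

variable {A : Type u} [Field A] [CharZero A] {d p r m : ℕ}

open PowerSeries in
/-- the system of equations for the chosen unknowns -/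
theorem exists_sys (hp : p.Prime) (hd : d = p * r) (hd0 : 0 < d) (hm : d ≤ m) {T : A}
    (hT : T ≠ 0) {γ : Fin d → A} (hγ : Function.Injective γ) (hγ1 : ∀ i j, γ i ≠ γ j + 1)
    (f : Mon d → PowerSeries A)
    (hf : pol (fun q => PowerSeries.constantCoeff (f q)) = f0 γ T) :
    ∃ (κ : Type) (_ : Fintype κ) (a : κ → Unk (1 + p * m) (r * (1 + p * m)) (d * (p * m)))
      (M : Mon (d * (1 + p * m)) → κ → A) (N : κ → Mon (d * (1 + p * m)) → A),
      Function.Injective a ∧ PL.Sys
        (fun y => cf (d * (1 + p * m)) (EE p (fun i => PowerSeries.C (γ i)) (PowerSeries.C T)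
          (pol f) fun u => PowerSeries.C (z0 p r m γ u) + ex a y u))
        (fun y δ => cf (d * (1 + p * m)) (JJ p (fun i => PowerSeries.C (γ i)) (PowerSeries.C T)
          (pol f) (fun u => PowerSeries.C (z0 p r m γ u) + ex a y u) (ex a δ)))
        (fun _ => 0) M N := by
  classical
  set Nn := d * (1 + p * m) with hNn
  -- the linear map
  let L : (Unk (1 + p * m) (r * (1 + p * m)) (d * (p * m)) → A) →ₗ[A] (Mon Nn → A) :=
    { toFun := fun δ => cf Nn (JJ p γ T (f0 γ T) (z0 p r m γ) δ)
      map_add' := fun δ δ' => by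
        have h1 := (JJl p γ T (f0 γ T) (z0 p r m γ)).map_add δ δ'
        change cf Nn ((JJl p γ T (f0 γ T) (z0 p r m γ)) (δ + δ')) = _
        rw [h1, cf_add]
        rfl
      map_smul' := fun a δ => by
        have h1 := (JJl p γ T (f0 γ T) (z0 p r m γ)).map_smul a δ
        change cf Nn ((JJl p γ T (f0 γ T) (z0 p r m γ)) (a • δ)) = _
        rw [h1, MvPolynomial.smul_eq_C_mul]
        funext q
        rw [cf_C_mul]
        rfl }
  have hL : Function.Surjective L := by
    intro e
    obtain ⟨δ, hδ⟩ := JJ_surj hp hd hd0 hm hT hγ hγ1 (pol e) (totalDegree_pol_le e)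
    refine ⟨δ, ?_⟩
    change cf Nn (JJ p γ T (f0 γ T) (z0 p r m γ) δ) = e
    rw [hδ, cf_pol]
  -- the basis
  let v : Unk (1 + p * m) (r * (1 + p * m)) (d * (p * m)) → (Mon Nn → A) :=
    fun u => L fun b => if u = b then 1 else 0
  obtain ⟨κ, a, ha, hsp, hli⟩ := exists_linearIndependent' A v
  have hfin : Finite κ := Finite.of_injective a ha
  let _ : Fintype κ := Fintype.ofFinite κ
  have htop : ⊤ ≤ Submodule.span A (Set.range (v ∘ a)) := by
    rw [hsp]
    rintro e -
    obtain ⟨δ, rfl⟩ := hL e
    rw [L.pi_apply_eq_sum_univ δ]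
    exact Submodule.sum_mem _ fun u _ => Submodule.smul_mem _ _ (Submodule.subset_span ⟨u, rfl⟩)
  let bs : Module.Basis κ A (Mon Nn → A) := Module.Basis.mk hli htop
  have hbs : ∀ b, bs b = v (a b) := fun b => by
    rw [Module.Basis.mk_apply]
    rfl
  let M : Mon Nn → κ → A := fun q b => v (a b) q
  let N : κ → Mon Nn → A := fun b q => bs.repr (Pi.single q 1) b
  have hMN : ∀ q q', ∑ b, M q b * N b q' = if q = q' then 1 else 0 := by
    intro q q'
    have h1 := congrFun (bs.sum_repr (Pi.single q' 1)) q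
    rw [Finset.sum_apply] at h1
    rw [show (if q = q' then (1 : A) else 0) = (Pi.single q' 1 : Mon Nn → A) q by
      rw [Pi.single_apply], ← h1]
    refine Finset.sum_congr rfl fun b _ => ?_
    rw [Pi.smul_apply, hbs, smul_eq_mul, mul_comm]
  have hNM : ∀ b b', ∑ q, N b q * M q b' = if b = b' then 1 else 0 := by
    intro b b'
    have h1 : bs.repr (v (a b')) b = if b = b' then 1 else 0 := by
      rw [← hbs, bs.repr_self, Finsupp.single_apply]
      simp only [eq_comm]
    rw [← h1]
    have h2 : v (a b') = ∑ q, M q b' • (Pi.single q 1 : Mon Nn → A) := by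
      funext q
      rw [Finset.sum_apply, Finset.sum_eq_single q]
      · simp [M]
      · intro q' _ hq'
        rw [Pi.smul_apply, Pi.single_eq_of_ne hq'.symm, smul_zero]
      · intro h
        exact absurd (Finset.mem_univ q) h
    rw [h2, map_sum, Finsupp.finsetSum_apply]
    refine Finset.sum_congr rfl fun q _ => ?_
    rw [map_smul, Finsupp.smul_apply, smul_eq_mul, mul_comm]
  have hFmap : map PowerSeries.constantCoeff (pol f) = f0 γ T := by
    rw [map_pol, hf]
  have hz0map : ∀ u, PowerSeries.constantCoeff (PowerSeries.C (z0 p r m γ u) : A⟦X⟧) =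
      z0 p r m γ u := fun u => PowerSeries.constantCoeff_C _
  refine ⟨κ, inferInstance, a, M, N, ha, ?_⟩
  refine ⟨fun q => ?_, fun y η δ => ?_, fun y hy δ q => ?_, fun e q => ?_, fun δ b => ?_⟩
  · rw [PowerSeries.X_dvd_iff, ← cf_map, map_EE, hFmap]
    have h1 : (fun u => PowerSeries.constantCoeff (PowerSeries.C (z0 p r m γ u) +
        ex a (fun _ => PowerSeries.C (0 : A)) u : A⟦X⟧)) = z0 p r m γ := by
      funext u
      have h2 : ex a (fun _ => PowerSeries.C (0 : A)) u = (0 : A⟦X⟧) := by
        rw [map_zero]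
        exact ex_zero a u
      rw [h2, add_zero, hz0map]
    rw [h1]
    simp only [PowerSeries.constantCoeff_C]
    rw [EE_z0 hd]
    simp [cf]
  · obtain ⟨c, hc⟩ := EE_taylor p (fun i => (PowerSeries.C (γ i) : A⟦X⟧)) (PowerSeries.C T)
      (pol f) (fun u => PowerSeries.C (z0 p r m γ u) + ex a y u) (ex a δ) η
    refine ⟨cf Nn c, fun q => ?_⟩
    have h1 : (fun u => (PowerSeries.C (z0 p r m γ u) : A⟦X⟧) + ex a (fun b => y b + η * δ b) u) =
        fun u => (PowerSeries.C (z0 p r m γ u) + ex a y u) + η * ex a δ u := by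
      funext u
      rw [ex_add, add_assoc]
    rw [h1, hc, cf_add, cf_add, Pi.add_apply, Pi.add_apply, cf_C_mul, ← C_pow, cf_C_mul]
  · rw [PowerSeries.X_dvd_iff, map_sub, sub_eq_zero, ← cf_map, map_JJ, hFmap]
    have h0 : ∀ b, PowerSeries.constantCoeff (y b) = 0 := by
      intro b
      have h1 := hy b
      rw [map_zero, sub_zero, PowerSeries.X_dvd_iff] at h1
      exact h1
    have h1 : (fun u => PowerSeries.constantCoeff (PowerSeries.C (z0 p r m γ u) +
        ex a y u : A⟦X⟧)) = z0 p r m γ := by
      funext u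
      rw [map_add, hz0map, map_ex, funext h0, ex_zero, add_zero]
    rw [h1]
    simp only [PowerSeries.constantCoeff_C]
    have h2 : (fun u => PowerSeries.constantCoeff (ex a δ u)) =
        ∑ b, PowerSeries.constantCoeff (δ b) • fun u => if a b = u then (1 : A) else 0 := by
      funext u
      rw [map_ex, Finset.sum_apply]
      simp only [ex]
      refine Finset.sum_congr rfl fun b _ => ?_
      rw [Pi.smul_apply, smul_eq_mul]
      by_cases h : a b = u
      · rw [if_pos h, if_pos h]
      · rw [if_neg h, if_neg h]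
    rw [h2]
    change L (∑ b, PowerSeries.constantCoeff (δ b) • fun u => if a b = u then (1 : A) else 0) q = _
    rw [map_sum, Finset.sum_apply, map_sum]
    refine Finset.sum_congr rfl fun b _ => ?_
    rw [map_smul, Pi.smul_apply, map_mul, PowerSeries.constantCoeff_C, smul_eq_mul, mul_comm]
  · simp only [Finset.mul_sum]
    rw [Finset.sum_comm]
    have h1 : ∀ q', ∑ b, PowerSeries.C (M q b) * (PowerSeries.C (N b q') * e q') =
        if q = q' then e q' else 0 := by
      intro q'
      have h2 := congrArg (PowerSeries.C (R := A)) (hMN q q')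
      rw [map_sum] at h2
      have h3 : ∑ b, PowerSeries.C (M q b) * (PowerSeries.C (N b q') * e q') =
          (∑ b, PowerSeries.C (M q b * N b q')) * e q' := by
        rw [Finset.sum_mul]
        exact Finset.sum_congr rfl fun b _ => by rw [map_mul, mul_assoc]
      rw [h3, h2]
      split_ifs
      · rw [map_one, one_mul]
      · rw [map_zero, zero_mul]
    rw [Finset.sum_congr rfl fun q' _ => h1 q', Finset.sum_ite_eq Finset.univ q,
      if_pos (Finset.mem_univ q)]
  · simp only [Finset.mul_sum]
    rw [Finset.sum_comm]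
    have h1 : ∀ b', ∑ q, PowerSeries.C (N b q) * (PowerSeries.C (M q b') * δ b') =
        if b = b' then δ b' else 0 := by
      intro b'
      have h2 := congrArg (PowerSeries.C (R := A)) (hNM b b')
      rw [map_sum] at h2
      have h3 : ∑ q, PowerSeries.C (N b q) * (PowerSeries.C (M q b') * δ b') =
          (∑ q, PowerSeries.C (N b q * M q b')) * δ b' := by
        rw [Finset.sum_mul]
        exact Finset.sum_congr rfl fun q _ => by rw [map_mul, mul_assoc]
      rw [h3, h2]
      split_ifs
      · rw [map_one, one_mul]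
      · rw [map_zero, zero_mul]
    rw [Finset.sum_congr rfl fun b' _ => h1 b', Finset.sum_ite_eq Finset.univ b,
      if_pos (Finset.mem_univ b)]

end Sol

end Pool.Agent.PC
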