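import Mathlib

/-!
# PL: polynomials in two variables of bounded total degree

`R[X][X]`: the outer variable is `x`, the inner variable is `y`.
-/

namespace PL

open Polynomial

/-- the total degree of `F` is at most `N` -/
def TD {R : Type*} [CommRing R] (N : ℕ) (F : R[X][X]) : Prop :=
  ∀ l k, N < l + k → (F.coeff l).coeff k = 0

variable {R : Type*} [CommRing R] {M N : ℕ} {F G : R[X][X]}

lemma TD.mono (h : TD M F) (hMN : M ≤ N) : TD N F := fun l k hlk => h l k (by omega)

lemma TD.zero : TD N (0 : R[X][X]) := fun l k _ => by simp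

lemma TD.add (hF : TD N F) (hG : TD N G) : TD N (F + G) := fun l k hlk => by
  rw [coeff_add, coeff_add, hF l k hlk, hG l k hlk, add_zero]

lemma TD.neg (hF : TD N F) : TD N (-F) := fun l k hlk => by
  rw [coeff_neg, coeff_neg, hF l k hlk, neg_zero]

lemma TD.sub (hF : TD N F) (hG : TD N G) : TD N (F - G) := fun l k hlk => by
  rw [coeff_sub, coeff_sub, hF l k hlk, hG l k hlk, sub_zero]

lemma TD.sum {ι : Type*} {s : Finset ι} {f : ι → R[X][X]} (h : ∀ i ∈ s, TD N (f i)) :
    TD N (∑ i ∈ s, f i) := fun l k hlk => by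
  rw [finsetSum_coeff, finsetSum_coeff]
  exact Finset.sum_eq_zero fun i hi => h i hi l k hlk

lemma TD.mul (hF : TD M F) (hG : TD N G) : TD (M + N) (F * G) := fun l k hlk => by
  rw [coeff_mul, finsetSum_coeff]
  refine Finset.sum_eq_zero fun ab hab => ?_
  rw [coeff_mul]
  refine Finset.sum_eq_zero fun ce hce => ?_
  rw [Finset.HasAntidiagonal.mem_antidiagonal] at hab hce
  by_cases h : M < ab.1 + ce.1
  · rw [hF _ _ h, zero_mul]
  · rw [hG _ _ (by omega), mul_zero]

lemma TD.one : TD 0 (1 : R[X][X]) := fun l k hlk => by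
  rw [coeff_one]
  split_ifs with h
  · rw [coeff_one, if_neg (by omega)]
  · simp

lemma TD.pow (hF : TD N F) (n : ℕ) : TD (n * N) (F ^ n) := by
  induction n with
  | zero => rw [pow_zero, zero_mul]; exact TD.one
  | succ n ih =>
    rw [pow_succ, Nat.add_mul, one_mul]
    exact ih.mul hF

lemma TD.prod {ι : Type*} {s : Finset ι} {f : ι → R[X][X]} {e : ι → ℕ}
    (h : ∀ i ∈ s, TD (e i) (f i)) : TD (∑ i ∈ s, e i) (∏ i ∈ s, f i) := by
  classical
  induction s using Finset.induction_on with
  | empty => rw [Finset.prod_empty, Finset.sum_empty]; exact TD.one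
  | insert a s ha ih =>
    rw [Finset.prod_insert ha, Finset.sum_insert ha]
    exact (h a (Finset.mem_insert_self a s)).mul
      (ih fun i hi => h i (Finset.mem_insert_of_mem hi))

lemma TD.C {a : R[X]} (h : a.natDegree ≤ N) : TD N (C a : R[X][X]) := fun l k hlk => by
  rw [coeff_C]
  split_ifs with hl
  · exact coeff_eq_zero_of_natDegree_lt (by omega)
  · simp

lemma TD.X_pow (l : ℕ) : TD l (X ^ l : R[X][X]) := fun i k hlk => by
  rw [coeff_X_pow]
  split_ifs with h
  · rw [coeff_one, if_neg (by omega)]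
  · simp

lemma TD.C_mul_X_pow {a : R[X]} {l : ℕ} (h : a = 0 ∨ l + a.natDegree ≤ N) :
    TD N (Polynomial.C a * X ^ l : R[X][X]) := by
  rcases h with rfl | h
  · rw [Polynomial.C_0, zero_mul]
    exact TD.zero
  · exact ((TD.C le_rfl).mul (TD.X_pow l)).mono (by omega)

lemma TD.coeff_natDegree (h : TD N F) {l : ℕ} (hl : F.coeff l ≠ 0) :
    l + (F.coeff l).natDegree ≤ N := by
  by_contra hcon
  exact hl (leadingCoeff_eq_zero.mp (h l _ (by omega)))

end PL
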